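import Pool.Agent.Lib.MP_e78360_co.FWin

/-! The handicap game on all boards. -/

set_option autoImplicit false

noncomputable section

namespace Pool.Agent.Lib.MP_e78360_co

open Finset Filter Real Pool.Agent.Lib.MP_4a944d_co Pool.Agent.Lib.MP_4a944d_co.Hc
open scoped Classical

theorem win_all : ∀ᶠ q : ℕ in atTop, ∀ n : ℕ, (q : ℝ) ^ 16 * 2 ^ (q / 2 : ℝ) ≤ n →
    ∃ t : ℕ, 2 * t ≤ n.choose 2 ∧ Win (V := Fin n) (Has q)
      (fun S => ∃ Q : Finset (Fin n), q + 300 * log q ≤ Q.card ∧ Cl S Q) t ∅ ∅ := by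
  have L0 : 0 < log 2 := log_pos one_lt_two
  filter_upwards [ev_poly ((32 * 1728 ^ 2) ^ 4) 60 (show 0 < log 2 / 3 by positivity),
    ev_poly 1 1 (show (0 : ℝ) < 1 / 400 by positivity), ev_poly 345600 3 one_pos,
    eventually_ge_atTop (10 ^ 8)] with q e1 e2 e3 hq n hn
  have Q : (10 : ℝ) ^ 8 ≤ q := by exact_mod_cast hq
  have q1 : (1 : ℝ) ≤ q := by linarith
  have q0 : (0 : ℝ) < q := by linarith
  rw [one_mul, pow_one, ← log_le_iff_le_exp q0] at e2
  rw [one_mul] at e3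
  have g1 : 1 ≤ log q := by
    rw [le_log_iff_exp_le q0]
    linarith [exp_one_lt_d9]
  have i1 : 1 / (q : ℝ) ≤ 1 / 2 := by gcongr; linarith
  have i0 : 0 ≤ 1 / (q : ℝ) := by positivity
  have s1 := Nat.le_ceil (3 * log q)
  have s2 := (Nat.ceil_lt_add_one (show 0 ≤ 3 * log q by positivity)).le
  generalize ⌈3 * log q⌉₊ = s at s1 s2
  have r1 := Nat.le_ceil (q + 300 * log q)
  have r2 := (Nat.ceil_lt_add_one (show 0 ≤ q + 300 * log q by positivity)).le
  simp only [← Nat.ceil_le]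
  generalize ⌈q + 300 * log q⌉₊ = r at r1 r2
  have b1 : ∀ x : ℕ, x ≤ q → (2 : ℝ) ^ x ≤ 2 * (2 - 1 / q) ^ x := fun x hx => by
    have c := one_add_mul_le_pow (a := -(1 / q / 2 : ℝ)) (by linarith) x
    have d : x * (1 / q / 2 : ℝ) ≤ 1 / 2 := by
      rw [mul_div_assoc', mul_one_div]
      gcongr
      rw [div_le_one q0]
      exact_mod_cast hx
    calc _ = 2 * (2 ^ x * (1 / 2) : ℝ) := by ring
      _ ≤ 2 * (2 ^ x * (1 + -(1 / q / 2)) ^ x) := by gcongr; linarith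
      _ = _ := by rw [← mul_pow]; congr 2; ring
  generalize hθ : (2 - 1 / q : ℝ) = θ at b1
  have t1 : 3 / 2 ≤ θ := by linarith
  have t2 : θ ≤ 2 := by linarith
  have b2 : (q : ℝ) ≤ θ ^ s := by
    have c := exp_bound_div_one_sub_of_interval (x := 1 / 3) (by norm_num) (by norm_num)
    calc _ = exp (log q) := (exp_log q0).symm
      _ ≤ exp (s * (1 / 3)) := exp_le_exp.2 (by linarith)
      _ ≤ _ := by rw [exp_nat_mul]; gcongr; linarith
  have q3 : (10 : ℝ) ^ 24 ≤ q ^ 3 := le_trans (by norm_num) (pow_le_pow_left₀ (by norm_num) Q 3)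
  have b5 : (q : ℝ) ^ 6 ≤ θ ^ (6 * s) := by
    rw [mul_comm, pow_mul]
    gcongr
  have b7 : ∀ x y : ℕ, x ≤ q → (q : ℝ) ^ y * 2 ^ x ≤ θ ^ (x + (y + 1) * s) := fun x y hx =>
    calc _ ≤ (q : ℝ) ^ y * (q * θ ^ x) := by
          refine mul_le_mul_of_nonneg_left ((b1 x hx).trans ?_) (by positivity)
          gcongr
          linarith
      _ = θ ^ x * q ^ (y + 1) := by ring
      _ ≤ θ ^ x * (θ ^ s) ^ (y + 1) := by gcongr
      _ = _ := by ring
  have c0 : 100 * s ≤ q ∧ r ≤ 2 * q ∧ q + 75 * s ≤ r ∧ 3 ≤ s := by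
    simp only [← Nat.cast_le (α := ℝ)]
    push_cast
    exact ⟨by linarith, by linarith, by linarith, by linarith⟩
  have core : ∀ a j p l : ℕ, j + p = q → 2 * a ≤ q → q ≤ 3 * a → p ≤ 2 * a → j ≤ a → a + 15 ≤ l →
      q ^ 14 * 2 ^ (a + j) ≤ n → (∀ (τ : ℝ) (N : ℕ), (θ ^ (2 * a + 27 * s))⁻¹ ≤ τ → τ ≤ 1 →
        (N : ℝ) ≤ θ ^ (2 * a + 27 * s) →
          ∃ ps px, Pot (V := Fin n) θ τ ((θ ^ (6 * s)) ^ l) N r ps px) →
      ∃ t : ℕ, 2 * t ≤ n.choose 2 ∧ Win (V := Fin n) (Has q)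
        (fun S => ∃ Q : Finset (Fin n), r ≤ Q.card ∧ Cl S Q) t ∅ ∅ := by
    intro a j p l hp a2 a3 pa ja al hn H
    have aq : (a : ℝ) ≤ q := by exact_mod_cast (by omega)
    have pq : (p : ℝ) ≤ q := by exact_mod_cast (by omega)
    have E2 := est_board (a := a) (w := q) pq (by exact_mod_cast a3)
      (le_trans (le_of_eq (by ring)) e1)
    have b3 : (14 * tt a p q : ℝ) ≤ q ^ 26 * 2 ^ (2 * a) := by
      unfold tt
      push_cast
      calc _ ≤ 14 * (65 * q * (1728 * q ^ 7) ^ 2 *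
            (128 * 2 ^ a * (65 * q ^ 2 * q) * q) ^ 2 : ℝ) := by gcongr
        _ = 14 * 65 * 1728 ^ 2 * (128 * 65) ^ 2 * (q ^ 23 * 2 ^ (2 * a)) := by ring
        _ ≤ q ^ 3 * (q ^ 23 * 2 ^ (2 * a)) := by gcongr; linarith
        _ = _ := by ring
    have b4 := b3.trans (b7 _ 26 a2)
    have b6 : (16 * (1728 * p ^ 7) ^ 2 * (16 * a) ^ a : ℝ) ≤ (θ ^ (6 * s)) ^ l := by
      calc _ ≤ (16 * (1728 * q ^ 7) ^ 2 * (q * q) ^ a : ℝ) := by gcongr; linarith
        _ = 16 * 1728 ^ 2 * q ^ (14 + 2 * a) := by ring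
        _ ≤ q * q ^ (14 + 2 * a) := by gcongr; linarith
        _ ≤ ((q : ℝ) ^ 6) ^ l := by
            rw [← pow_succ', ← pow_mul]
            exact pow_le_pow_right₀ q1 (by omega)
        _ ≤ _ := by gcongr
    have t0 : (1 : ℝ) ≤ tt a p q := by
      have a0 : 0 < a := by omega
      have p0 : 0 < p := by omega
      have w0 : 0 < q := by omega
      exact_mod_cast Nat.succ_le_of_lt (show 0 < tt a p q by unfold tt; positivity)
    have n2 : 28 * tt a p q ≤ n.choose 2 := by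
      have u : (q : ℝ) ^ 14 * 2 ^ a ≤ n := le_trans (by gcongr; exacts [one_le_two, by omega])
        (show (q : ℝ) ^ 14 * 2 ^ (a + j) ≤ n by exact_mod_cast hn)
      have v : (2 : ℝ) ≤ q ^ 14 * 2 ^ a :=
        calc (2 : ℝ) ≤ q ^ 1 * 1 := by linarith
          _ ≤ _ := by gcongr; exacts [by norm_num, one_le_pow₀ one_le_two]
      have x : (8 * (q ^ 26 * 2 ^ (2 * a)) : ℝ) ≤ n ^ 2 :=
        calc _ ≤ (q : ℝ) ^ 2 * (q ^ 26 * 2 ^ (2 * a)) := by gcongr; nlinarith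
          _ = (q ^ 14 * 2 ^ a) ^ 2 := by ring
          _ ≤ _ := by gcongr
      rw [← Nat.cast_le (α := ℝ), Nat.cast_choose_two]
      push_cast
      nlinarith
    refine ⟨14 * tt a p q, by omega, (congrArg (fun x => Win (Has x) _ _ _ _) hp).mp
      (win_fin (w := q) (by omega) (by omega) pa ja E2 b6 ?_ (le_trans ?_ hn) n2)⟩
    · rw [hθ]
      exact H _ _ (inv_anti₀ (by positivity) b4) (inv_le_one_of_one_le₀ (by linarith))
        (by push_cast; exact b4)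
    · calc _ = 8320 * (a ^ 2 * q * (a + j)) * 2 ^ (a + j) := by ring
        _ ≤ q * (q ^ 2 * q * q) * 2 ^ (a + j) := by gcongr <;> omega
        _ = q ^ 5 * 2 ^ (a + j) := by ring
        _ ≤ _ := by gcongr <;> omega
  have p0 : 0 < q ^ 15 := by positivity
  have k2 : n < q ^ 15 * 2 ^ (Nat.log 2 (n / q ^ 15) + 1) := by
    rw [mul_comm, ← Nat.div_lt_iff_lt_mul p0]
    exact Nat.lt_pow_succ_log_self one_lt_two _
  have h2 : (1 : ℝ) ≤ 2 ^ (q / 2 : ℝ) := one_le_rpow one_le_two (by positivity)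
  have k1 : q ^ 15 * 2 ^ Nat.log 2 (n / q ^ 15) ≤ n := by
    rw [mul_comm, ← Nat.le_div_iff_mul_le p0]
    refine Nat.pow_log_le_self 2 (Nat.div_pos ?_ p0).ne'
    rw [← Nat.cast_le (α := ℝ)]
    push_cast
    calc (q : ℝ) ^ 15 ≤ q ^ 16 * 1 := by rw [mul_one]; gcongr; norm_num
      _ ≤ _ := le_trans (by gcongr) hn
  generalize Nat.log 2 (n / q ^ 15) = k at k1 k2
  have k2' : (n : ℝ) ≤ q ^ 15 * 2 ^ (k + 1) := by exact_mod_cast k2.le
  have k3 : q ≤ 2 * k := by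
    have u : (q : ℝ) ^ 15 * (2 * 2 ^ (q / 2 : ℝ)) ≤ q ^ 15 * (2 * 2 ^ k) :=
      calc _ ≤ (q : ℝ) ^ 15 * (q * 2 ^ (q / 2 : ℝ)) := by gcongr; linarith
        _ ≤ _ := by linarith [pow_succ (2 : ℝ) k ▸ k2']
    have v := le_of_mul_le_mul_left (le_of_mul_le_mul_left u (by positivity)) two_pos
    rw [← rpow_natCast, rpow_le_rpow_left_iff one_lt_two] at v
    rw [← Nat.cast_le (α := ℝ)]
    push_cast
    linarith
  by_cases hk : 3 * k ≤ 2 * q
  · refine core (q - k) (2 * k - q) (2 * (q - k)) (k + 1 + 16 * s) (by omega) (by omega) (by omega)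
      le_rfl (by omega) (by omega) (le_trans ?_ k1) fun τ N h1 _ h3 =>
        pot_flog (by linarith) t2 hq e3 (by omega) (by omega) (by omega) b5 c0.2.1 (by omega)
          (by omega) h1 h3 ?_ (by positivity) le_rfl
    · rw [show q - k + (2 * k - q) = k by omega]
      gcongr <;> omega
    · rw [Fintype.card_fin]
      exact k2'.trans (b7 _ 15 (by omega))
  · refine core ((q + 2) / 3) ((q + 2) / 3) (q - (q + 2) / 3) (2 * ((q + 2) / 3) + 27 * s)
      (by omega) (by omega) (by omega) (by omega) le_rfl (by omega) (le_trans ?_ k1)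
      fun τ N h1 h2 h3 => pot_log (by linarith) t2 hq e3 (by omega) (by omega) (by omega) b5 c0.2.1
        (by omega) h1 h2 h3 (by positivity) le_rfl
    calc _ ≤ q ^ 14 * 2 ^ (k + 1) :=
          Nat.mul_le_mul_left _ (Nat.pow_le_pow_right two_pos (by omega))
      _ = q ^ 14 * 2 * 2 ^ k := by ring
      _ ≤ q ^ 14 * q * 2 ^ k := by gcongr; omega
      _ = _ := by ring

end Pool.Agent.Lib.MP_e78360_co
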