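import Pool.Agent.Lib.MP_e78360_co.FCnt

/-! The blocking potential on a finite board. -/

set_option autoImplicit false

noncomputable section

namespace Pool.Agent.Lib.MP_e78360_co

open Finset Real Pool.Agent.Lib.MP_4a944d_co Pool.Agent.Lib.MP_4a944d_co.Hc
open scoped Classical

variable {V : Type*} [LinearOrder V] {θ τ : ℝ}

lemma grid_start {σ η : ℝ} {R : ℕ} (hθ : 1 ≤ θ) (s0 : 0 ≤ σ) (e0 : 0 ≤ η) (e1 : η ≤ 1)
    (Y : Finset V) (h : σ * (4 * R * Y.card) ≤ 1) : fm θ (gS R Y) (gC σ η) gE ∅ ∅ ≤ 2 := by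
  have a : fm θ (gS R Y) (gC σ η) gE ∅ ∅ ≤ ((1 + σ) ^ (R + R)) ^ Y.card := by
    clear h
    induction Y using Finset.induction_on with
    | empty => rw [grid_empty, card_empty, pow_zero]
    | insert v Y hv ih =>
      rw [card_insert_of_notMem hv, pow_succ']
      exact (grid_grow hθ s0 e0 e1 (by simp [supp])).trans
        (mul_le_mul_of_nonneg_left ih (by positivity))
  calc _ ≤ _ := a
    _ ≤ (exp σ ^ (R + R)) ^ Y.card := by gcongr; linarith [add_one_le_exp σ]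
    _ ≤ exp (1 / 2) := by
      rw [← exp_nat_mul, ← exp_nat_mul]
      push_cast
      exact exp_le_exp.2 (by linarith)
    _ ≤ _ := (exp_bound_div_one_sub_of_interval (by norm_num) (by norm_num)).trans (by norm_num)

theorem pot_fin [Fintype V] {G δ ρ M n : ℝ} {N R h l L r : ℕ} (hθ : 1 ≤ θ) (hθ2 : θ ≤ 2)
    (h0 : 0 < τ) (d0 : 0 < δ) (d1 : δ ≤ 1) (hR : 1 ≤ R) (hh : 256 * R ≤ δ * h) (l1 : 1 ≤ l)
    (lr : l < r) (n1 : 1 ≤ n) (hn : (Fintype.card V : ℝ) ≤ n)
    (H4 : 16 * G < (4 * R * n)⁻¹ ^ (4 * R) * exp (R ^ 2 * δ ^ 2 / 7200))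
    (H5 : ((4 * n)⁻¹⁻¹ + θ ^ l) * log (16 * G * (4 * n)⁻¹⁻¹ ^ r) ≤ M) (M1 : 1 ≤ M)
    (hρ : 2 * ((l * (h + 2) + h + 2 * R : ℕ) : ℝ) ≤ ρ)
    (hρ2 : 2 * (N * (1 + δ) ^ l * θ) ≤ ρ ^ 2 * θ ^ L)
    (Hc : 4 * G * ((r + 1) * (ρ ^ l * θ ^ gy l L l 0 * M) * M ^ (r - l)) < τ * θ ^ r.choose 2) :
    ∃ psi psx, Pot (V := V) θ τ G N r psi psx := by
  have R1 : (1 : ℝ) ≤ R := by exact_mod_cast hR
  have ρ0 : 0 < ρ := lt_of_lt_of_le (by exact_mod_cast (by omega)) hρ
  obtain ⟨K, hK⟩ : ∃ K, K = ρ ^ l * θ ^ gy l L l 0 := ⟨_, rfl⟩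
  have K0 : 0 < K := by rw [hK]; positivity
  obtain ⟨a, ha⟩ : ∃ a, a = τ * M ^ l / ((r + 1) * (K * M)) := ⟨_, rfl⟩
  have a0 : 0 ≤ a := by rw [ha]; positivity
  have s4 : 0 ≤ (4 * R * n)⁻¹ := by positivity
  have s5 : 0 ≤ (4 * n)⁻¹ := by positivity
  have e0 : 0 ≤ δ / 1800 := by positivity
  have e1 : δ / 1800 ≤ 1 := by linarith
  have c4 := gC_nonneg (V := V) (R := R) s4 e0 e1
  have c5 := gC_nonneg (V := V) (R := 1) s5 zero_le_one le_rfl
  have c6 : ∀ U : Finset V, 0 ≤ mC a M U := fun U => by unfold mC; positivity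
  refine ⟨fun F S => (fm θ (gS R univ) (gC (4 * R * n)⁻¹ (δ / 1800)) gE F S +
      fm θ (gS 1 univ) (gC (4 * n)⁻¹ 1) gE F S + fm θ (mS S l r univ) (mC a M) Ed F S) / 4,
    fun x F S => (fx θ (gS R univ) (gC (4 * R * n)⁻¹ (δ / 1800)) gE x F S +
      fx θ (gS 1 univ) (gC (4 * n)⁻¹ 1) gE x F S + fx θ (mS S l r univ) (mC a M) Ed x F S) / 4,
    fun F S => ?_, fun x F S => ?_, fun x F S => ?_, fun x y F S => ?_,
    fun y F S hS hy yS hN hG => ?_, ?_, fun F S Q hF hd hG hQ e => ?_⟩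
  · exact div_nonneg (add_nonneg (add_nonneg (fm_nonneg hθ c4) (fm_nonneg hθ c5)) (fm_nonneg hθ c6))
      zero_le_four
  · exact div_nonneg (add_nonneg (add_nonneg (fx_nonneg hθ c4) (fx_nonneg hθ c5)) (fx_nonneg hθ c6))
      zero_le_four
  · simp only [fm_F]
    ring
  · exact div_le_div_of_nonneg_right (add_le_add (add_le_add (fx_F hθ c4) (fx_F hθ c5)) (fx_F hθ c6))
      zero_le_four
  · have b4 := fm_S (θ := θ) (F := F) (s := gS R univ) (cf := gC (4 * R * n)⁻¹ (δ / 1800))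
      (Eg := gE) yS
    have b5 := fm_S (θ := θ) (F := F) (s := gS 1 univ) (cf := gC (4 * n)⁻¹ 1) (Eg := gE) yS
    have b6 := fm_S (θ := θ) (F := F) (s := mS S l r univ) (cf := mC a M) (Eg := Ed) yS
    have x4 := fx_le (s := gS R univ) (Eg := gE) (y := y) (F := F) (S := S) hθ c4
    have x5 := fx_le (s := gS 1 univ) (Eg := gE) (y := y) (F := F) (S := S) hθ c5
    have o4 := grid_empty.ge.trans (le_fm (Eg := gE) (F := F) (S := S) hθ c4
      (gS_mono (empty_subset univ)))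
    have o5 := grid_empty.ge.trans (le_fm (Eg := gE) (F := F) (S := S) hθ c5
      (gS_mono (empty_subset univ)))
    have o6 := fm_nonneg (s := mS S l r univ) (Eg := Ed) (F := F) (S := S) hθ c6
    have bd : ∀ {P P' x : ℝ}, P' = P + (θ - 1) * x → x ≤ P → 1 ≤ P → P ≤ 4 * G →
        P' ≤ 16 * G := fun k1 k2 k3 k4 => by
      nlinarith [mul_le_mul_of_nonneg_left k2 (sub_nonneg.2 hθ)]
    have A := grid4 hθ s4 hθ2 (inv_le_one_of_one_le₀ (by nlinarith)) d0 d1
      (bd b4 x4 o4 (by linarith)) H4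
    have B := fun B hB => (grid5 (l := l) (r := r) hθ s5 (by positivity)
      (inv_le_one_of_one_le₀ (by linarith)) (subset_univ _) (bd b5 x5 o5 (by linarith)) B hB).trans
      H5
    have E := enter (Y := univ) (y := y) (S := S) (F := F) (r := r) hθ a0
      (by linarith : 0 < M) K0.le fun k hk => by
        have := run2 (C := N) hθ hθ2 (hS.insert hy) d0 (by exact_mod_cast (by omega)) M1 A hR hh
          (subset_univ _) hk B hρ hρ2 l ∅ ∅ ∅ 0 0 (Subset.refl _) (by simp) (by simp) (by simp)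
          (by
            simp only [Om, mu, disjoint_empty_right, if_true, bip, empty_product, image_empty,
              mon_empty, sum_const, nsmul_eq_mul, mul_one, pow_zero, card_insert_of_notMem yS]
            exact_mod_cast hN) (by simp)
        rw [union_empty, Nat.cast_zero, ← hK] at this
        exact this
    rw [show (r + 1) * (a * M⁻¹ ^ l * (K * M)) = τ by rw [ha, inv_pow]; field_simp] at E
    nlinarith [mul_le_mul_of_nonneg_left o4 h0.le, mul_le_mul_of_nonneg_left o5 h0.le,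
      mul_nonneg h0.le o6]
  · have : mS (∅ : Finset (V × V)) l r univ = ∅ := filter_eq_empty_iff.2 fun U _ c => by
      have := c.2 U (Subset.refl _) (by simp [Ind])
      omega
    have g4 := grid_start hθ s4 e0 e1 (univ : Finset V) (by
      rw [← div_eq_inv_mul, div_le_one (by positivity), card_univ]
      gcongr)
    have g5 := grid_start (R := 1) hθ s5 zero_le_one le_rfl (univ : Finset V) (by
      rw [← div_eq_inv_mul, div_le_one (by positivity), card_univ, Nat.cast_one]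
      linarith)
    rw [this, fm.eq_1 θ ∅, sum_empty]
    linarith
  · have es : Ed Q ⊆ S := fun e he => hQ _ (mem_Ed.1 he).1 _ (mem_Ed.1 he).2.1 (mem_Ed.1 he).2.2
    have b := single_le_sum (f := fun U => mC a M U * mon θ F S (Ed U))
      (fun U _ => mul_nonneg (c6 U) (mon_nonneg hθ)) (show Q ∈ mS S l r univ from
        mem_filter.2 ⟨mem_powerset.2 (subset_univ _), e.le, fun I i1 i2 => by
          have : I.card ≤ 1 := card_le_one.2 fun b hb c hc => by
            by_contra k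
            rcases lt_or_gt_of_ne k with k | k
            · exact i2 b hb c hc (by rw [pr, if_pos k]; exact hQ b (i1 hb) c (i1 hc) k)
            · exact i2 c hc b hb (by rw [pr, if_pos k]; exact hQ c (i1 hc) b (i1 hb) k)
          omega⟩)
    have o4 := fm_nonneg (s := gS R univ) (Eg := gE) (F := F) (S := S) hθ c4
    have o5 := fm_nonneg (s := gS 1 univ) (Eg := gE) (F := F) (S := S) hθ c5
    have b' : mC a M Q * mon θ F S (Ed Q) ≤ 4 * G := b.trans (by unfold fm at *; linarith)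
    rw [mC, mon, if_pos (hd.symm.mono_left es), inter_eq_left.2 es, card_Ed, e, ha] at b'
    obtain ⟨i, rfl⟩ := Nat.exists_eq_add_of_le lr.le
    rw [← hK, Nat.add_sub_cancel_left] at Hc
    refine Hc.not_ge (le_trans (le_of_eq ?_) (mul_le_mul_of_nonneg_right b' (by positivity)))
    simp only [pow_add, inv_pow]
    field_simp

lemma log_ineq2 {l L s r : ℝ} (l0 : 0 ≤ l) (s0 : 0 ≤ s) (lL : l ≤ L)
    (h : 2 * l + L + 10 * s + 16 ≤ 2 * r) :
    s + s * l + s * l + gy l L l 0 + (s + l) * (r - l + 1) < -L + r * (r - 1) / 2 := by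
  obtain ⟨e, rfl⟩ : ∃ e, r = l + L / 2 + 5 * s + 8 + e := ⟨r - (l + L / 2 + 5 * s + 8), by ring⟩
  have e0 : 0 ≤ e := by linarith
  unfold gy
  nlinarith [mul_nonneg (l0.trans lL) e0, mul_nonneg s0 e0, mul_nonneg s0 s0, mul_nonneg e0 e0,
    mul_le_mul_of_nonneg_left lL s0]

theorem pot_flog [Fintype V] {G : ℝ} {q l L s r N : ℕ} (t1 : 1 < θ) (t2 : θ ≤ 2)
    (hq : 10 ^ 8 ≤ q) (e1 : 345600 * (q : ℝ) ^ 3 ≤ exp q) (l1 : 1 ≤ l) (lq : l ≤ q) (sq' : s ≤ q)
    (hs : (q : ℝ) ^ 6 ≤ θ ^ s) (rq : r ≤ 2 * q) (lL : l ≤ L) (hr : 2 * l + L + 10 * s + 16 ≤ 2 * r)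
    (h1 : (θ ^ L)⁻¹ ≤ τ) (hN : (N : ℝ) ≤ θ ^ L) (hn : (Fintype.card V : ℝ) ≤ θ ^ l) (G0 : 0 < G)
    (hG : G ≤ (θ ^ s) ^ l) : ∃ psi psx, Pot (V := V) θ τ G N r psi psx := by
  have θ0 : 0 < θ := by linarith
  have h0 : 0 < τ := lt_of_lt_of_le (by positivity) h1
  have Q : (10 : ℝ) ^ 8 ≤ q := by exact_mod_cast hq
  have q1 : (1 : ℝ) ≤ q := by linarith
  have q0 : (0 : ℝ) < q := by linarith
  have lq' : (l : ℝ) ≤ q := by exact_mod_cast lq
  have sq'' : (s : ℝ) ≤ q := by exact_mod_cast sq'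
  have rq' : (r : ℝ) ≤ 2 * q := by exact_mod_cast rq
  have θe : θ ≤ exp 1 := by linarith [add_one_le_exp (1 : ℝ)]
  have pe : ∀ n : ℕ, θ ^ n ≤ exp n := fun n => by
    calc _ ≤ exp 1 ^ n := by gcongr
      _ = _ := by rw [← exp_nat_mul, mul_one]
  have i2 : θ ^ l ≤ exp q := (pe l).trans (exp_le_exp.2 lq')
  have g1 : G ≤ exp ((q : ℝ) ^ 2) := by
    rw [← pow_mul] at hG
    refine hG.trans ((pe _).trans (exp_le_exp.2 ?_))
    push_cast
    rw [sq]
    gcongr
  have p : ∀ {a b : ℕ}, a ≤ b → (q : ℝ) ^ a ≤ q ^ b := fun h => pow_le_pow_right₀ q1 h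
  have p5 : 10 ^ 8 * (q : ℝ) ^ 5 ≤ θ ^ s := by
    refine le_trans ?_ hs
    rw [pow_succ' (q : ℝ) 5]
    gcongr
  have q3 : (1 : ℝ) ≤ q ^ 3 := one_le_pow₀ q1
  have f16 : 16 ≤ exp (q : ℝ) := by linarith
  have a1 := p (show 1 ≤ 5 by norm_num)
  have a2 := p (show 2 ≤ 5 by norm_num)
  have a3 := p (show 3 ≤ 5 by norm_num)
  have a4 := p (show 4 ≤ 5 by norm_num)
  rw [pow_one] at a1
  have s1 : 1 ≤ θ ^ s := by linarith
  have tl : 1 ≤ θ ^ l := one_le_pow₀ t1.le
  refine pot_fin (δ := (q : ℝ)⁻¹) (ρ := θ ^ s) (R := 86400 * q ^ 3) (h := 22118400 * q ^ 4) (l := l)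
    (L := L) (M := θ ^ s * θ ^ l) t1.le t2 h0 (by positivity) (inv_le_one_of_one_le₀ q1)
    (Nat.succ_le_of_lt (by have : 0 < q := by omega
                           positivity)) ?_ l1 (by omega) tl hn ?_ ?_
    (one_le_mul_of_one_le_of_one_le s1 tl) ?_ ?_ ?_
  · push_cast
    refine le_of_eq ?_
    field_simp
    norm_num
  · have u : exp (-(2 * q)) ≤ (4 * (86400 * q ^ 3 : ℕ) * θ ^ l)⁻¹ := by
      push_cast
      rw [exp_neg, two_mul, exp_add]
      gcongr
      linarith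
    calc _ ≤ exp q * exp ((q : ℝ) ^ 2) := by gcongr
      _ < exp (-(2 * q)) ^ (4 * (86400 * q ^ 3)) *
          exp ((86400 * q ^ 3 : ℕ) ^ 2 * (q : ℝ)⁻¹ ^ 2 / 7200) := by
        rw [← exp_nat_mul, ← exp_add, ← exp_add, exp_lt_exp]
        push_cast
        have : (86400 * (q : ℝ) ^ 3) ^ 2 * (q : ℝ)⁻¹ ^ 2 / 7200 = 1036800 * q ^ 4 := by
          field_simp
          norm_num
        rw [this]
        have b1 := p (show 1 ≤ 4 by norm_num)
        have b2 := p (show 2 ≤ 4 by norm_num)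
        rw [pow_one] at b1
        linarith
      _ ≤ _ := by gcongr
  · rw [inv_inv]
    have v : log (16 * G * (4 * θ ^ l) ^ r) ≤ 6 * q ^ 2 := by
      rw [log_le_iff_le_exp (by positivity)]
      calc _ ≤ exp q * exp ((q : ℝ) ^ 2) * (exp q * exp q) ^ r := by
            gcongr
            linarith
        _ ≤ _ := by
          rw [← exp_add, ← exp_add, ← exp_nat_mul, ← exp_add, exp_le_exp]
          nlinarith
    calc _ ≤ _ := mul_le_mul_of_nonneg_left v (by positivity)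
      _ = 30 * q ^ 2 * θ ^ l := by ring
      _ ≤ _ := by gcongr; linarith
  · push_cast
    calc _ ≤ 2 * (q * (22118400 * (q : ℝ) ^ 4 + 2) + 22118400 * q ^ 4 + 2 * (86400 * q ^ 3)) := by
          gcongr
      _ ≤ _ := by linarith
  · have u : (1 + (q : ℝ)⁻¹) ^ l ≤ 3 := by
      calc _ ≤ exp (q : ℝ)⁻¹ ^ l := by gcongr; linarith [add_one_le_exp (q : ℝ)⁻¹]
        _ ≤ exp 1 := by
          rw [← exp_nat_mul, exp_le_exp, ← div_eq_mul_inv, div_le_one q0]
          exact lq'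
        _ ≤ _ := by linarith [exp_one_lt_d9]
    calc _ ≤ 2 * (θ ^ L * 3 * 2) := by gcongr
      _ = 12 * 1 * θ ^ L := by ring
      _ ≤ _ := by
        rw [sq]
        gcongr
        linarith
  · have key := log_ineq2 (l := l) (L := L) (s := s) (r := r) (by positivity) (by positivity)
      (by exact_mod_cast lL) (by exact_mod_cast hr)
    have eθ : exp (log θ) = θ := exp_log θ0
    have L0 : 0 < log θ := log_pos t1
    generalize log θ = T at eθ L0
    calc _ = 4 * (r + 1) * G * (θ ^ s) ^ l * θ ^ gy l L l 0 * (θ ^ s * θ ^ l) ^ (r - l + 1) := by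
          ring
      _ ≤ θ ^ s * (θ ^ s) ^ l * (θ ^ s) ^ l * θ ^ gy l L l 0 * (θ ^ s * θ ^ l) ^ (r - l + 1) := by
          gcongr
          linarith
      _ < (θ ^ L)⁻¹ * θ ^ r.choose 2 := by
        rw [← eθ, ← exp_mul]
        simp only [← exp_nat_mul, ← exp_add, ← exp_neg, exp_lt_exp]
        rw [Nat.cast_choose_two, Nat.cast_succ, Nat.cast_sub (by omega)]
        linarith [mul_lt_mul_of_pos_right key L0]
      _ ≤ _ := by gcongr

end Pool.Agent.Lib.MP_e78360_co
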