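import Pool.Agent.Lib.MP_e78360_co.FPot

/-! The building strategy on a small board. -/

set_option autoImplicit false

noncomputable section

namespace Pool.Agent.Lib.MP_e78360_co

open Finset Filter Real Pool.Agent.Lib.MP_4a944d_co Pool.Agent.Lib.MP_4a944d_co.Hc
open scoped Classical

variable {V : Type*} [LinearOrder V] [Fintype V]

lemma free_pair {F S : Finset (V × V)} (h : F.card + S.card < (Fintype.card V).choose 2) :
    ∃ e, Free F S e := by
  obtain ⟨e, h1, h2⟩ := exists_mem_notMem_of_card_lt_card (s := F ∪ S) (t := Ed univ)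
    (by rw [card_Ed, card_univ]; exact (card_union_le _ _).trans_lt h)
  exact ⟨e, (mem_Ed.1 h1).2.2, fun c => h2 (mem_union_left _ c), fun c => h2 (mem_union_right _ c)⟩

section

variable {B : Finset (V × V) → Prop} {τ Γ G : ℝ} {M r w a : ℕ} {F S : Finset (V × V)}
  {ps : Finset (V × V) → Finset (V × V) → ℝ} {px : V × V → Finset (V × V) → Finset (V × V) → ℝ}
  (P : Pot (2 - 1 / w) τ G M r ps px) (h0 : 0 < τ) (hw : 1 ≤ w) (hΓ : 0 < Γ) (hF : Up F)
  (hS : Up S) (hd : Disjoint F S) (hψ : ps F S ≤ Γ)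

include P h0 hw hΓ hF hS hd hψ

theorem lastF {W C : Finset V} {p t : ℕ} (hp : 3 ≤ p) (ha : p ≤ 2 * a)
    (hM : 12 * p ^ 2 * 2 ^ a ≤ W.card) (H1 : (32 * w * (1728 * p ^ 7) ^ 2) ^ 4 ≤ W.card)
    (ht : t = 65 * w * (1728 * p ^ 7) ^ 2 * W.card ^ 2) (hτ : 14 * τ * t ≤ 1) (hC : Cl F C)
    (hCW : ∀ c ∈ C, ∀ u ∈ W, pr c u ∈ F) (hdj : Disjoint C W)
    (hc : (F.card + S.card) * (8 * p ^ 2) ≤ W.card ^ 2)
    (hB : ∀ F S, Up F → Disjoint F S → ps F S ≤ 16 * (1728 * p ^ 7) ^ 2 * Γ → ¬ B S)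
    (hG : 16 * (1728 * p ^ 7) ^ 2 * Γ ≤ G) (hN : F.card + S.card + 2 * t ≤ M)
    (hV : F.card + S.card + 2 * t < (Fintype.card V).choose 2) : Win (Has (C.card + p)) B (t + 1) F S := by
  have M2 := two_p hp hM
  have M0 : (0 : ℝ) < W.card := by exact_mod_cast (show 0 < W.card by omega)
  have w1 : (1 : ℝ) ≤ w := by exact_mod_cast hw
  have p1 : (1 : ℝ) ≤ p := by exact_mod_cast (show 1 ≤ p by omega)
  have up := beck_up hp ha hM (F ∪ S)
  have low := beck_low hp hM ((Nat.mul_le_mul_right _ (card_union_le F S)).trans hc)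
  have H1' : (32 * w * (1728 * p ^ 7) ^ 2 : ℝ) ^ 4 ≤ W.card := by exact_mod_cast H1
  have ht' : (t : ℝ) = 65 * w * (1728 * p ^ 7) ^ 2 * W.card ^ 2 := by exact_mod_cast ht
  have b0 : (0 : ℝ) < W.card.choose p * (1 / 2) ^ p.choose 2 :=
    mul_pos (by exact_mod_cast Nat.choose_pos (by omega)) (by positivity)
  have β1 : (1 : ℝ) ≤ 1728 * p ^ 7 := by nlinarith [one_le_pow₀ (n := 7) p1]
  generalize (W.card.choose p * (1 / 2) ^ p.choose 2 : ℝ) = b at up low b0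
  generalize (1728 * p ^ 7 : ℝ) = β at up β1 H1' ht' hB hG
  have i1 : 1 / (w : ℝ) ≤ 1 := by rwa [div_le_one (by positivity)]
  have i0 : 0 ≤ 1 / (w : ℝ) := by positivity
  have t1 : (1 : ℝ) ≤ t := by
    rw [ht']
    have : (1 : ℝ) ≤ W.card := by exact_mod_cast (show 1 ≤ W.card by omega)
    calc (1 : ℝ) ≤ 65 * 1 * 1 ^ 2 * 1 ^ 2 := by norm_num
      _ ≤ _ := by gcongr
  have e1 : (W.card : ℝ) ^ 3 * (2 * β ^ 2 * b / W.card ^ 3) = 2 * β ^ 2 * b := by field_simp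
  have m1 : b / (8 * W.card ^ 2) * (Ed W \ (∅ ∪ (F ∪ S))).card -
      (La W p - ((2 * β ^ 2 * b / W.card ^ 3) ^ 3)⁻¹ • Lb W p) (nu ∅ (F ∪ S)) +
      b / (8 * Γ) * ps F S ≤ -(b / 8) := by
    have c1 : ((Ed W \ (∅ ∪ (F ∪ S))).card : ℝ) ≤ W.card ^ 2 := by
      exact_mod_cast (card_le_card sdiff_subset).trans ((card_Ed W).trans_le (Nat.choose_le_pow _ _))
    have c2 : b / (8 * W.card ^ 2) * (Ed W \ (∅ ∪ (F ∪ S))).card ≤ b / 8 :=
      (mul_le_mul_of_nonneg_left c1 (by positivity)).trans_eq (by field_simp)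
    have c3 : b / (8 * Γ) * ps F S ≤ b / 8 :=
      (mul_le_mul_of_nonneg_left hψ (by positivity)).trans_eq (by field_simp)
    have c4 : ((2 * β ^ 2 * b / W.card ^ 3) ^ 3)⁻¹ * Lb W p (nu ∅ (F ∪ S)) ≤ b / 8 :=
      calc _ ≤ _ := mul_le_mul_of_nonneg_left up (by positivity)
        _ = b / 8 / β ^ 2 := by field_simp; norm_num
        _ ≤ _ := div_le_self (by positivity) (one_le_pow₀ β1)
    simp only [LinearMap.sub_apply, LinearMap.smul_apply, smul_eq_mul]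
    linarith
  have hx : ∀ {x : ℝ}, b / (8 * Γ) * x ≤ W.card ^ 3 * (2 * β ^ 2 * b / W.card ^ 3) →
      x ≤ 16 * β ^ 2 * Γ := fun c => by
    rw [e1, div_mul_eq_mul_div, div_le_iff₀ (by positivity)] at c
    nlinarith
  refine zoneN P h0 (by linarith) (by linarith) _ (F₀ := F)
    (u := b / (32 * w * W.card ^ 2)) (d := F.card + S.card + 2 * t) (beck_supp _)
    (fun e he => (mem_Ed.1 he).2.2) (beck_max hp (σ := W.card / (32 * w * β ^ 2)) (by positivity)
      (by positivity) ?_) (by positivity) (by positivity) (by positivity) (by positivity)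
    (by positivity) ?_ (fun _ c => (hx c).trans hG) hN (fun F S a b c => hB F S a b (hx c))
    (fun F' S' X D a1 a2 a3 a4 a5 a6 a7 _ a9 => ?_)
    t F S ∅ (F ∪ S) hF hS hd (Subset.refl _) (empty_subset _)
    (fun e _ h => mem_union_right _ (mem_union.2 h)) le_rfl m1 ?_
  · rw [div_pow, le_div_iff₀ (by positivity), pow_succ (W.card : ℝ) 3]
    gcongr
  · have c : 14 * τ * (2 * β ^ 2 * b) ≤ b / (32 * w * W.card ^ 2) := by
      rw [le_div_iff₀ (by positivity)]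
      rw [ht'] at hτ
      nlinarith [mul_le_mul_of_nonneg_left hτ b0.le,
        show 0 ≤ τ * (w * β ^ 2 * W.card ^ 2) * b by positivity]
    rw [e1]
    refine (add_le_add le_rfl c).trans_eq ?_
    field_simp
    ring
  · obtain ⟨e, he⟩ := free_pair (F := F') (S := S') (by omega)
    have l0 := Lb_nonneg (W := W) (p := p) (φ := nu X D) fun _ => nu_nonneg
    simp only [LinearMap.sub_apply, LinearMap.smul_apply, smul_eq_mul] at a9
    obtain ⟨Q, q1, q2, q3⟩ := beck_end (p := p) (by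
      linarith [mul_nonneg (show 0 ≤ ((2 * β ^ 2 * b / W.card ^ 3) ^ 3)⁻¹ by positivity) l0]) a6
    exact ⟨e, he, .inl ⟨C ∪ Q, by rw [card_union_of_disjoint (hdj.mono_right q1), q2],
      ((hC.mono a4).union (fun x hx y hy l => a5 (q3 (mem_Ed.2 ⟨hx, hy, l⟩)))
        fun c hc u hu => a4 (hCW c hc u (q1 hu))).mono (subset_insert _ _)⟩⟩
  · have : (t : ℝ) * (b / (32 * w * W.card ^ 2)) = 65 / 32 * (β ^ 2 * b) := by
      rw [ht']
      field_simp
    rw [e1, this]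
    nlinarith [show 0 < β ^ 2 * b by positivity]

end

theorem stagesF {B : Finset (V × V) → Prop} {τ G : ℝ} {M r w a j p m z t : ℕ}
    {ps : Finset (V × V) → Finset (V × V) → ℝ} {px : V × V → Finset (V × V) → Finset (V × V) → ℝ}
    (P : Pot (2 - 1 / w) τ G M r ps px) (h0 : 0 < τ) (hw : 1 ≤ w)
    (hp : 3 ≤ p) (ha : p ≤ 2 * a) (hj : j ≤ a) (hz : z = 65 * a ^ 2 * w) (hm : m = 128 * 2 ^ a * z)
    (H1 : (32 * w * (1728 * p ^ 7) ^ 2) ^ 4 ≤ m * a)
    (ht : t = 65 * w * (1728 * p ^ 7) ^ 2 * (m * a) ^ 2) (hτ : 14 * τ * t ≤ 1)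
    (hB : ∀ F S, Up F → Disjoint F S →
      ps F S ≤ 16 * (1728 * p ^ 7) ^ 2 * (16 * a) ^ a → ¬ B S)
    (hG : 16 * (1728 * p ^ 7) ^ 2 * (16 * a) ^ a ≤ G) (hN : 4 * 2 ^ a * m * z + 2 * t ≤ M)
    (hV : 4 * 2 ^ a * m * z + 2 * t < (Fintype.card V).choose 2) :
    ∀ (s : ℕ) (F S : Finset (V × V)) (C K : Finset V), Up F → Up S → Disjoint F S → Cl F C →
      C.card + s = j → (∀ c ∈ C, ∀ u ∈ K, pr c u ∈ F) → Disjoint C K →
      K.card = 2 ^ s * m * (a + s) → ps F S ≤ (16 * a) ^ C.card →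
      F.card + S.card + 4 * 2 ^ s * m * z ≤ 4 * 2 ^ a * m * z →
      Win (Has (j + p)) B (2 * 2 ^ s * m * z + (t + 1)) F S := by
  have a1 : 1 ≤ a := by omega
  have a1' : (1 : ℝ) ≤ a := by exact_mod_cast a1
  have z1 : a ^ 2 ≤ z := by rw [hz]; nlinarith [Nat.mul_le_mul_left (a ^ 2) hw]
  have z0 : 1 ≤ z := (Nat.one_le_pow _ _ a1).trans z1
  have m2 : 128 ≤ m := by rw [hm]; nlinarith [Nat.mul_le_mul (Nat.one_le_two_pow (n := a)) z0]
  have mm : 32 * (4 * 2 ^ a * m * z) = m * m := by rw [hm]; ring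
  have β1 : 1 ≤ (1728 * p ^ 7) ^ 2 := Nat.one_le_pow _ _ (by positivity)
  intro s
  induction s with
  | zero =>
    intro F S C K hF hS hd hC c1 c2 c3 c4 c5 c6
    obtain rfl : C.card = j := c1
    simp only [pow_zero, one_mul, add_zero] at c4
    have g1 : (16 * (1728 * p ^ 7) ^ 2 * (16 * a) ^ C.card : ℝ) ≤
        16 * (1728 * p ^ 7) ^ 2 * (16 * a) ^ a := by
      gcongr
      linarith
    refine Win.add (lastF P h0 hw (by positivity) hF hS hd c5 hp ha ?_ (c4 ▸ H1) (c4 ▸ ht) hτ hC c2 c3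
      ?_ (fun F S a b c => hB F S a b (c.trans g1)) (g1.trans hG) (by omega) (by omega)) _
    · rw [c4, hm]
      calc _ ≤ 12 * (2 * a) ^ 2 * 2 ^ a := by gcongr
        _ = 48 * 2 ^ a * a ^ 2 * 1 := by ring
        _ ≤ 128 * 2 ^ a * z * a := by gcongr; norm_num
    · rw [c4]
      calc _ ≤ (4 * 2 ^ a * m * z) * (8 * (2 * a) ^ 2) := by gcongr; omega
        _ = 32 * (4 * 2 ^ a * m * z) * a ^ 2 := by ring
        _ = _ := by rw [mm]; ring
  | succ s ih =>
    intro F S C K hF hS hd hC c1 c2 c3 c4 c5 c6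
    have s1 : 1 ≤ 2 ^ s := Nat.one_le_two_pow
    have h2 : 2 * m ≤ 2 ^ (s + 1) * m := by rw [pow_succ]; nlinarith
    rw [show 2 * 2 ^ (s + 1) * m * z + (t + 1) = z * (2 ^ (s + 1) * m) +
      (2 * 2 ^ s * m * z + (t + 1)) by ring]
    have g1 : (16 * a * (16 * a) ^ C.card : ℝ) ≤ 16 * (1728 * p ^ 7) ^ 2 * (16 * a) ^ a := by
      rw [← pow_succ']
      refine (pow_le_pow_right₀ (by linarith) (by omega)).trans
        (le_mul_of_one_le_left (by positivity) ?_)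
      have : (1 : ℝ) ≤ (1728 * p ^ 7) ^ 2 := by exact_mod_cast β1
      linarith
    refine starN P h0 hw (by positivity) hF hS hd c5 (K := K) (h := 2 ^ (s + 1) * m)
      (N := 2 ^ s * m * (a + s)) a1 (by omega) (by rw [c4]; exact le_of_eq (by ring)) ?_ ?_
      (by rw [hz]) (le_trans ?_ hτ) (fun F S a b c => hB F S a b (c.trans g1)) (g1.trans hG)
      (by nlinarith)
      fun F' S' v K' b1 b2 b3 b4 b5 b6 b7 b8 b9 b10 => ?_
    · rw [c4, mul_comm]
      gcongr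
      omega
    · have : 2 * m ≤ K.card := by rw [c4]; nlinarith
      have e : F.card + S.card ≤ 4 * 2 ^ a * m * z := by omega
      obtain ⟨x, hx⟩ := Nat.exists_eq_add_of_le (show 2 ≤ 2 ^ (s + 1) * m by omega)
      rw [hx]
      have : m * m ≤ x * K.card := Nat.mul_le_mul (by omega) (by omega)
      nlinarith
    · gcongr
      rw [ht]
      calc z * (2 ^ (s + 1) * m) ≤ z * (2 ^ a * m) := by gcongr; exacts [one_le_two, by omega]
        _ ≤ m * m := by rw [← mm]; nlinarith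
        _ = 1 * 1 * 1 * (m * 1) ^ 2 := by ring
        _ ≤ _ := by gcongr; norm_num
    · have vC : v ∉ C := disjoint_right.1 c3 b1
      have sub : K' ⊆ K := b2.trans (erase_subset _ _)
      refine ih F' S' (insert v C) K' b5 b6 b7 ?_ (by rw [card_insert_of_notMem vC]; omega)
        (forall_mem_insert .. |>.2 ⟨b4, fun c hc u hu => b8 (c2 c hc u (sub hu))⟩)
        (disjoint_insert_left.2 ⟨fun h => notMem_erase _ _ (b2 h), c3.mono_right sub⟩) b3
        (by rwa [card_insert_of_notMem vC, pow_succ']) ?_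
      · rw [insert_eq, union_comm]
        exact (hC.mono b8).union (fun x hx y hy l => absurd ((mem_singleton.1 hx).trans
          (mem_singleton.1 hy).symm) l.ne) fun c hc u hu => mem_singleton.1 hu ▸ b8 (c2 c hc v b1)
      · rw [pow_succ] at c6 b9
        nlinarith

theorem win_fin {w a j p r n : ℕ} {G : ℝ} (hw : 1 ≤ w) (hp : 3 ≤ p) (ha : p ≤ 2 * a) (hj : j ≤ a)
    (H1 : (32 * w * (1728 * p ^ 7) ^ 2) ^ 4 ≤ 2 ^ a)
    (hG : 16 * (1728 * p ^ 7) ^ 2 * (16 * a) ^ a ≤ G)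
    (H2 : ∃ ps px, Pot (V := Fin n) (2 - 1 / w) (14 * tt a p w : ℝ)⁻¹ G (14 * tt a p w) r ps px)
    (n1 : 2 ^ j * (128 * 2 ^ a * (65 * a ^ 2 * w)) * (a + j) ≤ n)
    (n2 : 28 * tt a p w ≤ n.choose 2) :
    Win (V := Fin n) (Has (j + p)) (fun S => ∃ Q, r ≤ Q.card ∧ Cl S Q) (14 * tt a p w) ∅ ∅ := by
  obtain ⟨z, hz⟩ : ∃ z, z = 65 * a ^ 2 * w := ⟨_, rfl⟩
  obtain ⟨m, hm⟩ : ∃ m, m = 128 * 2 ^ a * z := ⟨_, rfl⟩
  have a1 : 1 ≤ a := by omega
  have z0 : 1 ≤ z := by rw [hz]; exact Nat.succ_le_of_lt (by positivity)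
  have ht : tt a p w = 65 * w * (1728 * p ^ 7) ^ 2 * (m * a) ^ 2 := by rw [hm, hz, tt]
  have m1 : 2 * 2 ^ a * z ≤ m := by rw [hm]; gcongr; norm_num
  have t1 : 2 * 2 ^ a * m * z ≤ tt a p w := by
    rw [ht]
    calc _ = 1 * 1 * 1 * (m * (2 * 2 ^ a * z) * 1) := by ring
      _ ≤ 65 * w * (1728 * p ^ 7) ^ 2 * (m * m * a ^ 2) := by
        gcongr
        exacts [by norm_num, Nat.one_le_pow _ _ (by positivity), Nat.one_le_pow _ _ a1]
      _ = _ := by ring
  have t0 : 0 < tt a p w := lt_of_lt_of_le (by rw [hm]; positivity) t1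
  have t2 : 2 * 2 ^ j * m * z ≤ 2 * 2 ^ a * m * z := by gcongr; norm_num
  rw [← hz, ← hm] at n1
  generalize tt a p w = t at *
  have t0' : (0 : ℝ) < t := by exact_mod_cast t0
  obtain ⟨K, -, hK⟩ := exists_subset_card_eq (s := (univ : Finset (Fin n)))
    (n := 2 ^ j * m * (a + j)) (by rw [card_fin]; omega)
  obtain ⟨x, hx⟩ := Nat.exists_eq_add_of_le' (show 2 * 2 ^ j * m * z + (t + 1) ≤ 14 * t by omega)
  obtain ⟨ps, px, P⟩ := H2
  rw [hx]
  refine Win.add (stagesF P (by positivity) hw hp ha hj hz hm (H1.trans ?_) ht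
    (le_of_eq (by field_simp)) ?_ hG (by linarith) (by rw [Fintype.card_fin]; linarith) j ∅ ∅ ∅ K
    (fun _ h => absurd h (notMem_empty _)) (fun _ h => absurd h (notMem_empty _))
    (disjoint_empty_left _) (fun _ h => absurd h (notMem_empty _)) (by simp)
    (fun _ h => absurd h (notMem_empty _)) (disjoint_empty_left _) hK
    (by rw [card_empty, pow_zero]; exact P.empty) (by simp only [card_empty]; linarith)) _
  · calc 2 ^ a = 1 * 2 ^ a * 1 * 1 := by ring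
      _ ≤ _ := by rw [hm]; gcongr; norm_num
  · rintro F S hF hd hψ ⟨Q, q1, q2⟩
    obtain ⟨Q', s1, s2⟩ := exists_subset_card_eq q1
    exact P.clique F S Q' hF hd (hψ.trans hG) (fun x hx y hy => q2 x (s1 hx) y (s1 hy)) s2

end Pool.Agent.Lib.MP_e78360_co
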