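import Pool.Agent.Lib.MP_e78360_co.SLoc
import Pool.Agent.Lib.MP_e78360_co.FAll

/-! Estimates for the weights on boards of the order `q * 2 ^ (q / 2)`. -/

set_option autoImplicit false

noncomputable section

namespace Pool.Agent.Lib.MP_e78360_co

open Finset Filter Real Pool.Agent.Lib.MP_4a944d_co Pool.Agent.Lib.MP_4a944d_co.Hc
open scoped Classical

variable {n q j : ℕ}

lemma two_pow_choose (r : ℕ) : (2 : ℝ) ^ r.choose 2 = (2 ^ ((r - 1) / 2 : ℝ)) ^ r := by
  rw [← rpow_natCast, ← rpow_natCast, ← rpow_mul two_pos.le, Nat.cast_choose_two]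
  congr 1
  ring

lemma gw_one (h : 2 * q ≤ n) (hq : 0 < q) (hj : j ≤ q) :
    gw n q j ≤ n.choose q * (1 / 2) ^ q.choose 2 * ((2 * q / n) ^ j * 2 ^ j.choose 2) := by
  have n0 : (0 : ℝ) < n := by exact_mod_cast (show 0 < n by omega)
  have c : (n.choose (q - j) : ℝ) ≤ n.choose q * (2 * q / n) ^ j := by
    rw [div_pow, ← mul_div_assoc, le_div_iff₀ (by positivity)]
    exact_mod_cast choose_ratio h j hj
  exact (mul_le_mul_of_nonneg_right c (by positivity)).trans_eq (by ring)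

lemma gw_low {ρ : ℝ} (h : 2 * q ≤ n) (hq : 0 < q) (hj : 2 * j ≤ q)
    (hρ : 2 * q / n * 2 ^ (q / 4 : ℝ) ≤ ρ) :
    gw n q j ≤ n.choose q * (1 / 2) ^ q.choose 2 * ρ ^ j := by
  have : 2 * (j : ℝ) ≤ q := by exact_mod_cast hj
  refine (gw_one h hq (by omega)).trans (mul_le_mul_of_nonneg_left ?_ (by positivity))
  rw [two_pow_choose, ← mul_pow]
  refine pow_le_pow_left₀ (by positivity) (le_trans ?_ hρ) _
  exact mul_le_mul_of_nonneg_left (rpow_le_rpow_of_exponent_le one_le_two (by linarith))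
    (by positivity)

lemma gw_high {ρ : ℝ} (hj : j ≤ q) (hj' : q ≤ 2 * j) (hρ : n * 2 ^ (1 - 3 * q / 4 : ℝ) ≤ ρ) :
    gw n q j ≤ ρ ^ (q - j) := by
  obtain ⟨i, rfl⟩ := Nat.exists_eq_add_of_le hj
  have c0 : (i : ℝ) ≤ j := by exact_mod_cast (show i ≤ j by omega)
  have i0 : (0 : ℝ) ≤ i := by positivity
  rw [gw, Nat.add_sub_cancel_left]
  refine le_trans ?_ (pow_le_pow_left₀ (by positivity) hρ i)
  rw [mul_pow]
  gcongr
  · exact_mod_cast Nat.choose_le_pow _ _
  · rw [one_div, inv_pow, ← rpow_natCast, ← rpow_natCast, ← rpow_natCast, ← rpow_neg two_pos.le,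
      ← rpow_add two_pos, ← rpow_mul two_pos.le, Nat.cast_choose_two, Nat.cast_choose_two]
    refine rpow_le_rpow_of_exponent_le one_le_two ?_
    push_cast
    nlinarith [mul_nonneg i0 (sub_nonneg.2 c0)]

lemma gw_small {s τ : ℕ} (h : 2 * q ≤ n) (hq : 0 < q) (h3 : τ ≤ j) (hj : j ≤ s) (hs : s ≤ q) :
    gw n q j ≤ n.choose q * (1 / 2) ^ q.choose 2 * ((2 * q) ^ s * 2 ^ s ^ 2 / n ^ τ) := by
  have n1 : (1 : ℝ) ≤ n := by exact_mod_cast (show 1 ≤ n by omega)
  have q1 : (1 : ℝ) ≤ 2 * q := by exact_mod_cast (show 1 ≤ 2 * q by omega)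
  refine (gw_one h hq (by omega)).trans (mul_le_mul_of_nonneg_left ?_ (by positivity))
  rw [div_pow, div_mul_eq_mul_div]
  gcongr
  · exact one_le_two
  · exact (Nat.choose_le_pow _ _).trans (Nat.pow_le_pow_left hj _)

lemma fact_le (hq : 0 < q) : (q.factorial : ℝ) ≤ exp 1 * q * (q / exp 1) ^ q := by
  induction q, hq using Nat.le_induction with
  | base => simp [(exp_pos 1).ne']
  | succ k hk ih =>
    have k0 : (0 : ℝ) < k := by exact_mod_cast hk
    have c : exp 1 * (k : ℝ) ^ (k + 1) ≤ (k + 1) ^ (k + 1) := by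
      have a := one_sub_div_pow_le_exp_neg (n := k + 1) (t := 1) (by push_cast; linarith)
      rw [show 1 - 1 / ((k + 1 : ℕ) : ℝ) = k / (k + 1) by push_cast; field_simp; ring, div_pow,
        exp_neg, div_le_iff₀ (by positivity), inv_mul_eq_div, le_div_iff₀ (exp_pos 1)] at a
      linarith
    rw [Nat.factorial_succ]
    push_cast
    calc _ ≤ (k + 1) * (exp 1 * k * (k / exp 1) ^ k) := by gcongr
      _ = exp 1 * (k + 1) * (exp 1 * (k : ℝ) ^ (k + 1) / exp 1 ^ (k + 1)) := by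
          rw [div_pow, pow_succ, pow_succ]
          field_simp
      _ ≤ _ := by rw [div_pow]; gcongr

lemma two_half (q : ℕ) : (2 : ℝ) ^ (q / 2 : ℝ) = √2 * 2 ^ ((q - 1) / 2 : ℝ) := by
  rw [sqrt_eq_rpow, ← rpow_add two_pos]
  congr 1
  ring

lemma b_low {η : ℝ} (hq : 0 < q) (h : q ≤ n) (h1 : exp (-η) * n ≤ n - q)
    (hn : √2 / exp 1 * exp (3 * η) * q * 2 ^ (q / 2 : ℝ) ≤ n) :
    2 ^ q * exp (2 * η * q) ≤ exp 1 * q * (n.choose q * (1 / 2) ^ q.choose 2) := by
  have q0 : (0 : ℝ) < q := by exact_mod_cast hq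
  have c1 : (exp (-η) * n) ^ q / (exp 1 * q * (q / exp 1) ^ q) ≤ n.choose q :=
    calc _ ≤ ((n + 1 - q : ℕ) : ℝ) ^ q / q.factorial := by
          gcongr
          · rw [Nat.cast_sub (by omega)]
            push_cast
            linarith
          · exact fact_le hq
      _ ≤ _ := by exact_mod_cast Nat.pow_le_choose (α := ℝ) q n
  rw [two_half] at hn
  rw [one_div, inv_pow, two_pow_choose]
  have z0 : (0 : ℝ) < 2 ^ ((q - 1) / 2 : ℝ) := by positivity
  generalize (2 : ℝ) ^ ((q - 1) / 2 : ℝ) = z at *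
  have c2 : 2 * exp (2 * η) ≤ exp (-η) * n / (q / exp 1) / z := by
    rw [le_div_iff₀ z0, le_div_iff₀ (by positivity)]
    refine le_trans (le_of_eq ?_) (mul_le_mul_of_nonneg_left hn (exp_pos _).le)
    rw [show 2 * η = -η + 3 * η by ring, exp_add]
    nth_rewrite 1 [← mul_self_sqrt (zero_le_two (α := ℝ))]
    ring
  calc _ = (2 * exp (2 * η)) ^ q := by rw [mul_pow, ← exp_nat_mul, mul_comm (q : ℝ)]
    _ ≤ (exp (-η) * n / (q / exp 1) / z) ^ q := by gcongr
    _ = exp 1 * q * ((exp (-η) * n) ^ q / (exp 1 * q * (q / exp 1) ^ q) * (z ^ q)⁻¹) := by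
        rw [div_pow, div_pow]
        field_simp
    _ ≤ _ := by gcongr

lemma b_up (hq : 0 < q) (hn : n ≤ 17 * q * (2 : ℝ) ^ (q / 2 : ℝ)) :
    (n.choose q * (1 / 2) ^ q.choose 2 : ℝ) ≤ exp (5 * q) := by
  have q0 : (0 : ℝ) < q := by exact_mod_cast hq
  have c1 : (n.choose q : ℝ) ≤ (exp 1 * n / q) ^ q :=
    calc _ ≤ (n : ℝ) ^ q / q.factorial := Nat.choose_le_pow_div q n
      _ = (q : ℝ) ^ q / q.factorial * (n / q) ^ q := by rw [div_pow]; field_simp
      _ ≤ exp q * (n / q) ^ q := by gcongr; exact pow_div_factorial_le_exp _ q0.le q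
      _ = _ := by rw [mul_div_assoc, mul_pow, exp_one_pow]
  rw [two_half] at hn
  rw [one_div, inv_pow, two_pow_choose, ← div_eq_mul_inv]
  have z0 : (0 : ℝ) < 2 ^ ((q - 1) / 2 : ℝ) := by positivity
  generalize (2 : ℝ) ^ ((q - 1) / 2 : ℝ) = z at *
  have c2 : 17 * √2 ≤ exp 4 := by
    have a : √2 ≤ 2 := sqrt_le_iff.2 ⟨by norm_num, by norm_num⟩
    have b : (2.7 : ℝ) ^ 4 ≤ exp 1 ^ 4 := by gcongr; linarith [exp_one_gt_d9]
    rw [exp_one_pow] at b
    push_cast at b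
    linarith
  calc _ ≤ (exp 1 * n / q) ^ q / z ^ q := by gcongr
    _ = (exp 1 * (n / q / z)) ^ q := by rw [← div_pow]; congr 1; ring
    _ ≤ (exp 1 * exp 4) ^ q := by
        gcongr
        refine le_trans ?_ c2
        rw [div_le_iff₀ z0, div_le_iff₀ q0]
        linarith
    _ = _ := by rw [← exp_add, ← exp_nat_mul]; congr 1; ring

end Pool.Agent.Lib.MP_e78360_co
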