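import Pool.Agent.Lib.MP_e78360_co.PSum
import Pool.Agent.Lib.MP_e78360_co.SEst

/-! Blocking below the threshold: the initial values are small. -/

set_option autoImplicit false

noncomputable section

namespace Pool.Agent.Lib.MP_e78360_co

open Finset Filter Real Pool.Agent.Lib.MP_4a944d_co Pool.Agent.Lib.MP_4a944d_co.Hc
open scoped Classical

lemma b_blk {N r : ℕ} {ε : ℝ} (ε1 : ε ≤ 1) (hr : 6 ≤ r)
    (hN : N ≤ √2 / exp 1 * exp (-ε) * r * 2 ^ (r / 2 : ℝ)) :
    (N.choose r * (1 / 2) ^ r.choose 2 : ℝ) ≤ N ^ 2 * exp (-(ε * r)) := by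
  have r6 : (6 : ℝ) ≤ r := by exact_mod_cast hr
  have r0 : (0 : ℝ) < r := by linarith
  have c1 : (N.choose r : ℝ) ≤ (exp 1 * N / r) ^ r :=
    calc _ ≤ (N : ℝ) ^ r / r.factorial := Nat.choose_le_pow_div r N
      _ = (r : ℝ) ^ r / r.factorial * (N / r) ^ r := by rw [div_pow]; field_simp
      _ ≤ exp r * (N / r) ^ r := by gcongr; exact pow_div_factorial_le_exp _ r0.le r
      _ = _ := by rw [mul_div_assoc, mul_pow, exp_one_pow]
  obtain ⟨t, ht⟩ : ∃ t, r = t + 2 := ⟨r - 2, by omega⟩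
  have z2 : ((2 : ℝ) ^ ((r - 1) / 2 : ℝ)) ^ 2 = 2 ^ t * 2 := by
    rw [← rpow_natCast, ← rpow_mul two_pos.le, ← pow_succ, ← rpow_natCast, ht]
    congr 1
    push_cast
    ring
  rw [two_half] at hN
  rw [one_div, inv_pow, two_pow_choose, ← div_eq_mul_inv]
  have z0 : (0 : ℝ) < 2 ^ ((r - 1) / 2 : ℝ) := by positivity
  generalize (2 : ℝ) ^ ((r - 1) / 2 : ℝ) = z at *
  have c2 : exp 1 * N / r / z ≤ 2 * exp (-ε) := by
    rw [div_le_iff₀ z0, div_le_iff₀ r0]
    refine (mul_le_mul_of_nonneg_left hN (exp_pos 1).le).trans_eq ?_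
    rw [show 2 * exp (-ε) = √2 * √2 * exp (-ε) by rw [mul_self_sqrt zero_le_two]]
    field_simp
  have c3 : exp 1 ^ 2 * exp (2 * ε) ≤ 2 * r ^ 2 :=
    calc _ ≤ exp 1 ^ 2 * exp 1 ^ 2 := by
          gcongr
          rw [exp_one_pow, exp_le_exp]
          push_cast
          linarith
      _ ≤ 2.72 ^ 2 * 2.72 ^ 2 := by gcongr <;> linarith [exp_one_lt_d9]
      _ ≤ 2 * 6 ^ 2 := by norm_num
      _ ≤ _ := by gcongr
  calc _ ≤ (exp 1 * N / r) ^ r / z ^ r := by gcongr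
    _ = (exp 1 * N / r / z) ^ t * (exp 1 * N / r / z) ^ 2 := by rw [← div_pow, ← pow_add, ← ht]
    _ ≤ (2 * exp (-ε)) ^ t * (exp 1 * N / r / z) ^ 2 := by gcongr
    _ = N ^ 2 * exp (-(ε * r)) * (exp 1 ^ 2 * exp (2 * ε) / (2 * r ^ 2)) := by
        rw [div_pow, z2, mul_pow, ← exp_nat_mul, show t * -ε = -(ε * r) + 2 * ε by
          rw [ht]; push_cast; ring, exp_add]
        field_simp
    _ ≤ _ := mul_le_of_le_one_right (by positivity) ((div_le_one (by positivity)).2 c3)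

lemma far_small {N r : ℕ} (hr : 65 ≤ r) (h1 : 2 * (r : ℝ) ^ 4 ≤ exp (1 / 100 * r))
    (hN : (N : ℝ) + 1 ≤ exp (37 / 100 * r)) :
    ((r + 1) * (r ^ 3 + 1) ^ r * ((r / 3 + 1) * (N + 1) ^ (r / 3)) : ℕ) * exp (-(18 / 100 * r ^ 2)) ≤
      exp (-(r : ℝ)) := by
  have r6 : (65 : ℝ) ≤ r := by exact_mod_cast hr
  have a1 : (r : ℝ) + 1 ≤ exp r := add_one_le_exp _
  have a2 : ((r / 3 : ℕ) : ℝ) ≤ r / 3 := Nat.cast_div_le
  have a3 : (r : ℝ) ^ 3 + 1 ≤ exp (1 / 100 * r) := le_trans (by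
    linarith [pow_le_pow_right₀ (show (1 : ℝ) ≤ r by linarith) (show 3 ≤ 4 by norm_num),
      one_le_pow₀ (n := 4) (show (1 : ℝ) ≤ r by linarith)]) h1
  push_cast
  calc _ ≤ exp r * exp (1 / 100 * r) ^ r * (exp r * exp (37 / 100 * r) ^ (r / 3)) *
        exp (-(18 / 100 * r ^ 2)) := by
        gcongr
        linarith
    _ ≤ _ := by
        rw [← exp_nat_mul, ← exp_nat_mul, ← exp_add, ← exp_add, ← exp_add, ← exp_add, exp_le_exp]
        nlinarith [mul_le_mul_of_nonneg_left a2 (show (0 : ℝ) ≤ r by linarith)]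

lemma far_half {r d a : ℕ} (hr : 65 ≤ r) (ha : 3 * a ≤ 2 * r)
    (h : r.choose 2 ≤ d + a.choose 2 + r ^ 2 / 230400 * 48 ^ 2) :
    (1 / 2 : ℝ) ^ d ≤ exp (-(18 / 100 * r ^ 2)) := by
  have c1 : ((r ^ 2 / 230400 : ℕ) : ℝ) ≤ (r ^ 2 : ℕ) / (230400 : ℕ) := Nat.cast_div_le
  have c2 : (r.choose 2 : ℝ) ≤ d + a.choose 2 + (r ^ 2 / 230400 : ℕ) * 48 ^ 2 := by exact_mod_cast h
  have c3 : 3 * (a : ℝ) ≤ 2 * r := by exact_mod_cast ha
  have r6 : (65 : ℝ) ≤ r := by exact_mod_cast hr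
  have a0 : (0 : ℝ) ≤ a := by positivity
  rw [Nat.cast_choose_two, Nat.cast_choose_two] at c2
  push_cast at c1
  have c4 : 26 / 100 * (r : ℝ) ^ 2 ≤ d := by nlinarith [mul_self_le_mul_self (by positivity) c3]
  rw [← log_le_iff_le_exp (by positivity), log_pow, one_div, log_inv]
  nlinarith [log_two_gt_d9, sq_nonneg (r : ℝ)]

theorem block {ε : ℝ} (ε0 : 0 < ε) (ε1 : ε ≤ 1) : ∃ k : ℕ, ∀ᶠ r : ℕ in atTop, ∀ N : ℕ,
    exp (r / 3) ≤ N → N ≤ √2 / exp 1 * exp (-ε) * r * 2 ^ (r / 2 : ℝ) →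
    ∃ Ψ : (Finset (Fin N × Fin N) → ℝ) →ₗ[ℝ] ℝ, (∀ φ ψ, (∀ E, φ E ≤ ψ E) → Ψ φ ≤ Ψ ψ) ∧
      (∀ F S 𝒬, Good r (2 * k + 2) S 𝒬 → Disjoint S F → Ψ (nu S F) < 1 → ∀ A : Finset (Fin N),
        A.card = r → (Ed A \ (S ∪ PE 𝒬)).card ≤ k + 2 → (Ed A ∩ PE 𝒬).card ≤ k) ∧
      1536 * Ψ wt ≤ 1 ∧ Ps (powersetCard r (univ : Finset (Fin N))) Ed (fun _ => 2 * k + 2) wt ≤
        N ^ 2 * exp (-(ε / 2 * r)) ∧ k + 3 ≤ r.choose 2 := by
  obtain ⟨k, hk⟩ := exists_nat_ge (8 / ε)
  have k8 : (8 : ℝ) ≤ k := le_trans (by rw [le_div_iff₀ ε0]; linarith) hk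
  rw [div_le_iff₀ ε0] at hk
  obtain ⟨l, hl⟩ : ∃ l, l = 2 * (230400 * k) + 2 := ⟨_, rfl⟩
  obtain ⟨c, hc⟩ : ∃ c, c = l + (230400 * k + 2) + 2 * 230400 := ⟨_, rfl⟩
  obtain ⟨C, hC⟩ : ∃ C : ℝ, C = 2 ^ 48 * 2 ^ 48 ^ 2 := ⟨_, rfl⟩
  have C1 : 1 ≤ C := hC ▸ one_le_mul_of_one_le_of_one_le (one_le_pow₀ one_le_two)
    (one_le_pow₀ one_le_two)
  refine ⟨230400 * k, ?_⟩
  rw [← hl]
  filter_upwards [eventually_ge_atTop (230400 * k + 200),
    ev_poly 2 4 (show (0 : ℝ) < 1 / 100 by norm_num),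
    ev_poly (8 ^ (3 * c) * (9216 * C)) (4 * (3 * c) + 193) (half_pos ε0)] with r e1 e2 e3 N hN hN'
  have r2 : 200 ≤ r := by omega
  have r1 : (200 : ℝ) ≤ r := by exact_mod_cast r2
  have r0 : (0 : ℝ) < r := by linarith
  have rp : ∀ {i j : ℕ}, i ≤ j → (r : ℝ) ^ i ≤ r ^ j := pow_le_pow_right₀ (by linarith)
  have L1 := mul_le_mul_of_nonneg_right log_two_gt_d9.le r0.le
  have L2 := mul_le_mul_of_nonneg_right log_two_lt_d9.le r0.le
  have εr := mul_le_mul_of_nonneg_right ε1 r0.le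
  have bN := b_blk ε1 (show 6 ≤ r by omega) hN'
  have n1 : (N : ℝ) ≤ r * 2 ^ (r / 2 : ℝ) := hN'.trans (by
    gcongr
    refine mul_le_of_le_one_left r0.le (mul_le_one₀ ((div_le_one (exp_pos 1)).2 ?_) (exp_pos _).le
      (exp_le_one_iff.2 (by linarith)))
    exact (sqrt_le_iff.2 ⟨by norm_num, by norm_num⟩).trans (add_one_le_exp 1))
  have e4 : 2 * (r : ℝ) ≤ exp (1 / 100 * r) := by linarith [rp (show 1 ≤ 4 by norm_num)]
  have n2 : 2 * (N : ℝ) ≤ exp (36 / 100 * r) :=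
    calc _ ≤ 2 * r * (2 : ℝ) ^ (r / 2 : ℝ) := by linarith
      _ ≤ exp (1 / 100 * r) * 2 ^ (r / 2 : ℝ) := by gcongr
      _ ≤ _ := by rw [rpow_def_of_pos two_pos, ← exp_add, exp_le_exp]; linarith
  have N1 : (1 : ℝ) ≤ N := (one_le_exp (by positivity)).trans hN
  have h2r : 2 * r ≤ N := by
    exact_mod_cast e4.trans ((exp_le_exp.2 (by linarith)).trans hN)
  have cN : Fintype.card (Fin N) = N := Fintype.card_fin N
  have g1 : ∀ j, 3 * j ≤ 2 * r → (r ^ 3 : ℕ) ^ j * gw N r j ≤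
      N.choose r * (1 / 2) ^ r.choose 2 * exp (-(r / 16)) ^ j := fun j hj => by
    have : 3 * (j : ℝ) ≤ 2 * r := by exact_mod_cast hj
    refine (mul_le_mul_of_nonneg_left (gw_one h2r (by omega) (by omega)) (by positivity)).trans ?_
    rw [mul_left_comm, two_pow_choose j, ← mul_pow, ← mul_pow]
    gcongr
    push_cast
    calc _ = 2 * r ^ 4 * (N : ℝ)⁻¹ * 2 ^ ((j - 1) / 2 : ℝ) := by ring
      _ ≤ exp (1 / 100 * r) * (exp (r / 3))⁻¹ * 2 ^ (r / 3 : ℝ) :=
          mul_le_mul (by gcongr) (rpow_le_rpow_of_exponent_le one_le_two (by linarith))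
            (by positivity) (by positivity)
      _ ≤ _ := by
          rw [rpow_def_of_pos two_pos, ← exp_neg, ← exp_add, ← exp_add, exp_le_exp]
          linarith
  have g2 : ∀ j ≤ r, r ≤ 2 * j → gw N r j ≤ exp (-(r / 16)) ^ (r - j) := fun j a b =>
    gw_high a b (by
      rw [rpow_sub two_pos, rpow_one, ← mul_div_assoc, mul_comm, div_le_iff₀ (by positivity),
        rpow_def_of_pos two_pos, ← exp_add]
      exact n2.trans (exp_le_exp.2 (by linarith)))
  have g3 : ∀ j, 2 ≤ j → j ≤ 48 → gw N r j ≤ _ := fun j a b =>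
    gw_small h2r (by omega) a b (show 48 ≤ r by omega)
  have s1 := sum_I1 (V := Fin N) (r := r) (s := 48) (g := exp (72 / 100 * r) * exp (-(r / 16)) ^ 48)
  have s2 := sum_I2 (V := Fin N) (r := r)
  have s3 := sum_I3 (V := Fin N) (r := r) (s := 48) (k := k) (i₀ := r ^ 2 / 230400) (c := c)
    (θ := 2 * C * r ^ 193 * exp (-(ε * r))) (Y := 4 * ((r ^ 4 : ℕ) + 1)) (η := exp (-(ε / 2 * r)))
  have s4 := sum_Ed (V := Fin N) r
  rw [cN] at s1 s2 s3 s4
  obtain ⟨b, hb⟩ : ∃ b : ℝ, b = N.choose r * (1 / 2) ^ r.choose 2 := ⟨_, rfl⟩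
  rw [← hb] at bN g1 g3 s1 s2 s3 s4
  have b0 : 0 ≤ b := hb ▸ by positivity
  have b1 : b ≤ exp (72 / 100 * r) :=
    calc _ ≤ (N : ℝ) ^ 2 := bN.trans (mul_le_of_le_one_right (by positivity)
          (exp_le_one_iff.2 (neg_nonpos.2 (by positivity))))
      _ ≤ exp (36 / 100 * r) ^ 2 := by gcongr; linarith
      _ = _ := by rw [← exp_nat_mul]; congr 1; push_cast; ring
  have ρ1 : exp (-(r / 16 : ℝ)) ≤ 1 := exp_le_one_iff.2 (by linarith)
  have ρ2 : exp (-(r / 16 : ℝ)) ^ 48 = exp (-(3 * r)) := by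
    rw [← exp_nat_mul]; congr 1; push_cast; ring
  obtain ⟨Y, hY⟩ : ∃ Y : ℝ, Y = 4 * ((r ^ 4 : ℕ) + 1) := ⟨_, rfl⟩
  have Y1 : 1 ≤ Y := by rw [hY]; linarith [Nat.cast_nonneg (α := ℝ) (r ^ 4)]
  have Z : ∀ i ≤ 3 * c, ∀ j ≤ 193, Y ^ i * (9216 * C * r ^ j) ≤ exp (ε / 2 * r) := fun i a j b =>
    calc _ ≤ (8 * r ^ 4) ^ (3 * c) * (9216 * C * r ^ 193) := by
          refine mul_le_mul ((pow_le_pow_right₀ Y1 a).trans (pow_le_pow_left₀ (by linarith) ?_ _))
            (mul_le_mul_of_nonneg_left (rp b) (by positivity)) (by positivity) (by positivity)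
          rw [hY]
          push_cast
          linarith [rp (show 0 ≤ 4 by norm_num), pow_zero (r : ℝ)]
      _ = 8 ^ (3 * c) * (9216 * C) * (r : ℝ) ^ (4 * (3 * c) + 193) := by
          rw [mul_pow, ← pow_mul, pow_add]
          ring
      _ ≤ _ := e3
  have Z' : ∀ i ≤ 3 * c, ∀ j ≤ 193, ∀ x : ℝ, x ≤ r ^ j * exp (-(ε / 2 * r)) →
      Y ^ i * x ≤ 1 / 4608 := fun i a j b x hx => by
    have Yi : 0 ≤ Y ^ i := by positivity
    have c1 := mul_le_mul_of_nonneg_right (Z i a j b) (exp_pos (-(ε / 2 * r))).le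
    rw [← exp_add, add_neg_cancel, exp_zero] at c1
    have c2 := mul_le_mul_of_nonneg_left C1
      (show 0 ≤ Y ^ i * (r ^ j * exp (-(ε / 2 * r))) by positivity)
    have c3 : 0 ≤ Y ^ i * (r ^ j * exp (-(ε / 2 * r))) := by positivity
    linarith [mul_le_mul_of_nonneg_left hx Yi]
  have i1 : r ^ 2 / 230400 + 1 ≤ r ^ 2 := Nat.div_lt_self (by positivity) (by norm_num)
  have ch : ∀ A : Finset (Fin N), A.card = r → (Ed A).card ≤ r ^ 2 := fun A a => by
    rw [card_Ed, a]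
    exact Nat.choose_le_pow _ _
  have r4 : 2 * (r + 1) ^ 2 ≤ r ^ 4 := by nlinarith [Nat.pow_le_pow_left r2 2]
  refine ⟨Ps (I1 (Fin N) r 48) (fun z => Ed z.1 ∪ Ed z.2) (fun _ => 2 * l) +
    Ps (I2 (Fin N) r) (fun z => Ed (insert z.2.1 z.1) ∪ Ed (insert z.2.2 z.1))
      (fun _ => 3 * l + 2 * 48) + Ps (I3 (Fin N) r 48 k (r ^ 2 / 230400))
      (fun z => Ed z.1 ∪ z.2.biUnion Ed) (fun z => c * z.2.card),
    fun φ ψ h => add_le_add (add_le_add (Ps_mono h) (Ps_mono h)) (Ps_mono h),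
    fun F S 𝒬 g d h A a1 a2 => ?_, ?_, ?_, ?_⟩
  · simp only [LinearMap.add_apply] at h
    refine g.few (s := 48) (i₀ := r ^ 2 / 230400) (c := c) ⟨fun B B' u v w x => ?_,
      fun B x y u v w z => ?_, fun A 𝒟 u v w x => ?_⟩ (by omega) (by norm_num)
      (by exact_mod_cast (show (1 : ℝ) ≤ k by linarith)) le_rfl hc.ge a1 a2
    · exact Ps_lt (i := (B, B')) d (lt_of_le_of_lt ((le_add_of_nonneg_right (Ps_nonneg _ _)).trans
        (le_add_of_nonneg_right (Ps_nonneg _ _))) h) (by simp [I1, *])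
    · exact Ps_lt (i := (B, x, y)) d (lt_of_le_of_lt ((le_add_of_nonneg_left (Ps_nonneg _ _)).trans
        (le_add_of_nonneg_right (Ps_nonneg _ _))) h) (by simp [I2, *])
    · exact Ps_lt (i := (A, 𝒟)) d (lt_of_le_of_lt (le_add_of_nonneg_left
        (add_nonneg (Ps_nonneg _ _) (Ps_nonneg _ _))) h) (by simp [I3, *])
  · have t1 := Ps_up (I := I1 (Fin N) r 48) (E := fun z => Ed z.1 ∪ Ed z.2) (lam := fun _ => 2 * l)
      (u := r ^ 4) fun z hz => by
        have a := mem_product.1 (mem_filter.1 hz).1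
        linarith [card_union_le (Ed z.1) (Ed z.2), ch _ (mem_powersetCard.1 a.1).2,
          ch _ (mem_powersetCard.1 a.2).2, Nat.pow_le_pow_left r.le_succ 2]
    have t2 := Ps_up (I := I2 (Fin N) r) (lam := fun _ => 3 * l + 2 * 48) (u := r ^ 4)
      (E := fun z => Ed (insert z.2.1 z.1) ∪ Ed (insert z.2.2 z.1)) fun z hz => by
        have a := (mem_powersetCard.1 (mem_product.1 (mem_filter.1 hz).1).1).2
        have b : ∀ x, (Ed (insert x z.1)).card ≤ (r + 1) ^ 2 := fun x => (card_Ed _).trans_le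
          ((Nat.choose_le_pow _ _).trans (Nat.pow_le_pow_left (a ▸ card_insert_le _ _) _))
        linarith [card_union_le (Ed (insert z.2.1 z.1)) (Ed (insert z.2.2 z.1)), b z.2.1, b z.2.2]
    have t3 := Ps_up (I := I3 (Fin N) r 48 k (r ^ 2 / 230400)) (lam := fun z => c * z.2.card)
      (E := fun z => Ed z.1 ∪ z.2.biUnion Ed) (u := r ^ 4) fun z hz => by
        obtain ⟨a, b, -, d⟩ := mem_filter.1 hz
        have a := ch _ (mem_powersetCard.1 (mem_product.1 a).1).2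
        have e := card_biUnion_le_card_mul z.2 Ed (r ^ 2) fun D hD => ch D (b.1 D hD).1
        nlinarith [card_union_le (Ed z.1) (z.2.biUnion Ed), Nat.mul_le_mul_right (r ^ 2) i1,
          Nat.mul_le_mul_right (r ^ 2) d]
    rw [← hY] at t1 t2 t3 s3
    rw [← mul_sum] at t1 t2
    have u1 := Z' (2 * l) (by omega) 0 (by norm_num) _ ((s1 (by positivity) fun j a b => by
      rcases le_total (2 * j) r with h | h
      · refine le_trans (le_mul_of_one_le_left (gw_nonneg _ _ _) (one_le_pow₀ (by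
          exact_mod_cast Nat.one_le_pow _ _ (by omega)))) ((g1 j (by omega)).trans ?_)
        exact mul_le_mul b1 (pow_le_pow_of_le_one (exp_pos _).le ρ1 a.le) (by positivity)
          (by positivity)
      · exact (g2 j (by omega) h).trans ((pow_le_pow_of_le_one (exp_pos _).le ρ1 (by omega)).trans
          (le_mul_of_one_le_left (by positivity) (one_le_exp (by positivity))))).trans (by
      rw [ρ2, pow_zero, one_mul, ← rpow_natCast, rpow_def_of_pos two_pos, ← exp_add, ← exp_add]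
      refine (mul_le_mul_of_nonneg_right b1 (exp_pos _).le).trans ?_
      rw [← exp_add, exp_le_exp]
      linarith))
    have u2 := Z' (3 * l + 2 * 48) (by omega) 4 (by norm_num) _ (s2.trans (by
      have a : (N : ℝ) * (N * (1 / 2) ^ r) ≤ r ^ 2 := by
        rw [← mul_assoc, ← pow_two, one_div, inv_pow, ← div_eq_mul_inv, div_le_iff₀ (by positivity)]
        refine (pow_le_pow_left₀ (by positivity) n1 2).trans_eq ?_
        rw [mul_pow, ← rpow_natCast (_ ^ _) 2, ← rpow_mul two_pos.le, ← rpow_natCast 2 r]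
        congr 2
        ring
      calc _ ≤ N ^ 2 * exp (-(ε * r)) * (N * (1 / 2) ^ r) ^ 2 := by gcongr
        _ = (N * (N * (1 / 2) ^ r)) ^ 2 * exp (-(ε * r)) := by ring
        _ ≤ (r ^ 2) ^ 2 * exp (-(ε / 2 * r)) := by
            gcongr
            linarith
        _ = _ := by ring))
    have u3 := Z' 0 (by omega) 2 (by norm_num) _ ((s3 (by positivity) (by linarith) (by
      have a := mul_le_mul_of_nonneg_right (Z c (by omega) 193 le_rfl) (exp_pos (-(ε * r))).le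
      rw [← exp_add, show ε / 2 * r + -(ε * r) = -(ε / 2 * r) by ring] at a
      have : 0 ≤ Y ^ c * (C * r ^ 193 * exp (-(ε * r))) := by positivity
      linarith) (exp_le_one_iff.2 (neg_nonpos.2 (by positivity))) fun A a => star_sum (by positivity)
        fun 𝒟 u v => (star_step (u := r ^ 3) (θ := C * r ^ 192 * exp (-(ε * r))) a u v
          (by nlinarith [Nat.mul_le_mul_right r i1]) (by positivity) (exp_pos _).le
          (fun j x y => by
            rw [cN]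
            rcases le_total j 48 with h | h
            · calc _ ≤ ((r ^ 3 : ℕ) : ℝ) ^ 48 * (N ^ 2 * exp (-(ε * r)) *
                    ((2 * r) ^ 48 * 2 ^ 48 ^ 2 / N ^ 2)) :=
                    mul_le_mul (pow_le_pow_right₀ (by exact_mod_cast Nat.one_le_pow _ _ (by omega)) h)
                      ((g3 j x h).trans (by gcongr)) (gw_nonneg _ _ _) (by positivity)
                _ = _ := by
                    rw [hC, mul_pow]
                    generalize (2 : ℝ) ^ 48 ^ 2 = a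
                    push_cast
                    field_simp
            · refine (g1 j y).trans ((mul_le_mul b1 (pow_le_pow_of_le_one (exp_pos _).le ρ1 h)
                (by positivity) (by positivity)).trans (le_trans ?_ (le_mul_of_one_le_left
                  (exp_pos _).le (one_le_mul_of_one_le_of_one_le C1 (one_le_pow₀ (by linarith))))))
              rw [ρ2, ← exp_add, exp_le_exp]
              linarith) fun d a x y => far_half (by omega) x y).trans (mul_le_mul_of_nonneg_left (by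
          have a := far_small (N := N) (show 65 ≤ r by omega) e2 (le_trans (by linarith)
            (n2.trans (exp_le_exp.2 (by linarith))))
          have b := le_mul_of_one_le_left (exp_pos (-(ε * r))).le
            (one_le_mul_of_one_le_of_one_le C1 (one_le_pow₀ (n := 193) (show (1 : ℝ) ≤ r by linarith)))
          rw [cN]
          linarith [exp_le_exp.2 (show -(r : ℝ) ≤ -(ε * r) by linarith)]) wt_pos.le)).trans (by
      have a : ((r ^ 2 / 230400 : ℕ) : ℝ) + 1 ≤ r ^ 2 := by exact_mod_cast i1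
      calc _ ≤ exp (72 / 100 * r) * (r ^ 2 * exp (-(ε / 2 * r)) ^ k) := by gcongr
        _ = r ^ 2 * exp (72 / 100 * r + k * -(ε / 2 * r)) := by rw [exp_add, exp_nat_mul]; ring
        _ ≤ _ := by
            gcongr
            linarith [mul_le_mul_of_nonneg_right hk r0.le]))
    simp only [LinearMap.add_apply]
    rw [pow_zero, one_mul] at u3
    linarith
  · refine (Ps_up (u := r ^ 4) fun B hB => (ch B (mem_powersetCard.1 hB).2).trans
      (Nat.pow_le_pow_right (by omega) (by norm_num))).trans ?_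
    have a := Z l (by omega) 0 (by norm_num)
    have c1 : Y ^ l ≤ exp (ε / 2 * r) :=
      (le_mul_of_one_le_right (by positivity) (by rw [pow_zero]; linarith)).trans a
    rw [← hY, ← mul_sum, s4]
    refine (mul_le_mul c1 bN b0 (exp_pos _).le).trans_eq ?_
    rw [mul_left_comm, ← exp_add]
    congr 2
    ring
  · rw [Nat.choose_two_right, Nat.le_div_iff_mul_le two_pos, mul_comm r]
    exact (mul_comm _ _).trans_le (Nat.mul_le_mul (by omega) (by omega))

end Pool.Agent.Lib.MP_e78360_co
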