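import Pool.Agent.Lib.MP_e78360_co.PCla

/-! The blocking functionals and their initial values. -/

set_option autoImplicit false

noncomputable section

namespace Pool.Agent.Lib.MP_e78360_co

open Finset Pool.Agent.Lib.MP_4a944d_co Pool.Agent.Lib.MP_4a944d_co.Hc
open scoped Classical

variable {V : Type*} [LinearOrder V] {ι : Type*} {I : Finset ι} {E : ι → Finset (V × V)} {lam : ι → ℕ}

variable (I E lam) in
/-- The sum over the sets `E i` with at most `lam i` elements removed. -/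
def Ps : (Finset (V × V) → ℝ) →ₗ[ℝ] ℝ :=
  ∑ i ∈ I, ∑ L ∈ sm (E i) (lam i), LinearMap.proj (E i \ L)

lemma Ps_apply (φ : Finset (V × V) → ℝ) :
    Ps I E lam φ = ∑ i ∈ I, ∑ L ∈ sm (E i) (lam i), φ (E i \ L) := by
  simp only [Ps, LinearMap.sum_apply, LinearMap.proj_apply]

lemma Ps_mono {φ ψ : Finset (V × V) → ℝ} (h : ∀ E, φ E ≤ ψ E) : Ps I E lam φ ≤ Ps I E lam ψ := by
  rw [Ps_apply, Ps_apply]
  exact sum_le_sum fun _ _ => sum_le_sum fun _ _ => h _

lemma Ps_nonneg (S F : Finset (V × V)) : 0 ≤ Ps I E lam (nu S F) := by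
  simpa using Ps_mono (I := I) (E := E) (lam := lam) (φ := 0) (ψ := nu S F) fun _ => nu_nonneg

lemma Ps_card {S F : Finset (V × V)} (hd : Disjoint S F) {J : Finset ι} (hJ : J ⊆ I)
    (h : ∀ i ∈ J, (E i \ S).card ≤ lam i) : J.card ≤ Ps I E lam (nu S F) := by
  rw [Ps_apply, card_eq_sum_ones]
  push_cast
  refine (sum_le_sum fun i hi => ?_).trans (sum_le_sum_of_subset_of_nonneg hJ
    fun i _ _ => sum_nonneg fun _ _ => nu_nonneg)
  refine le_trans ?_ (single_le_sum (f := fun L => nu S F (E i \ L)) (fun _ _ => nu_nonneg)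
    (mem_sm.2 ⟨sdiff_subset, h i hi⟩))
  have : E i \ (E i \ S) ⊆ S := by simp
  rw [nu, if_pos (hd.mono_left this), sdiff_eq_empty_iff_subset.2 this, card_empty, pow_zero]

lemma Ps_lt {S F : Finset (V × V)} (hd : Disjoint S F) (h : Ps I E lam (nu S F) < 1) {i : ι}
    (hi : i ∈ I) : lam i < (E i \ S).card := by
  by_contra! n
  have := Ps_card (I := I) (E := E) (lam := lam) hd (singleton_subset_iff.2 hi) (by simpa using n)
  rw [card_singleton, Nat.cast_one] at this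
  linarith

lemma Ps_up {u : ℕ} (h : ∀ i ∈ I, (E i).card ≤ u) :
    Ps I E lam wt ≤ ∑ i ∈ I, (4 * (u + 1) : ℝ) ^ lam i * wt (E i) := by
  rw [Ps_apply]
  refine sum_le_sum fun i hi => (sum_le_card_nsmul _ _ (2 ^ lam i * wt (E i)) fun L hL => ?_).trans ?_
  · have c := le_card_sdiff L (E i)
    have d := (mem_sm.1 hL).2
    rw [wt, wt, one_div, inv_pow, inv_pow, ← div_eq_mul_inv, le_div_iff₀ (by positivity),
      inv_mul_le_iff₀ (by positivity), ← pow_add]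
    exact pow_le_pow_right₀ one_le_two (by omega)
  · rw [nsmul_eq_mul, ← mul_assoc]
    refine mul_le_mul_of_nonneg_right ?_ wt_pos.le
    have c := (card_sm (h i hi) (lam i)).trans (Nat.mul_le_mul_right _ Nat.lt_two_pow_self)
    calc _ ≤ ((2 ^ lam i * (u + 1) ^ lam i : ℕ) : ℝ) * 2 ^ lam i := by gcongr
      _ = _ := by
          push_cast
          rw [← mul_pow, ← mul_pow]
          congr 1
          ring

variable [Fintype V] {r s : ℕ}

lemma sum_Ed (r : ℕ) : ∑ B ∈ powersetCard r (univ : Finset V), wt (Ed B) =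
    (Fintype.card V).choose r * (1 / 2) ^ r.choose 2 := by
  rw [sum_congr rfl fun B hB => by rw [wt, card_Ed, (mem_powersetCard.1 hB).2], sum_const,
    card_powersetCard, card_univ, nsmul_eq_mul]

variable (V r s) in
def I1 : Finset (Finset V × Finset V) := (powersetCard r univ ×ˢ powersetCard r univ).filter
  fun z => s < (z.1 ∩ z.2).card ∧ (z.1 ∩ z.2).card + s < r

lemma sum_I1 {g : ℝ} (g0 : 0 ≤ g) (hg : ∀ j, s < j → j + s < r → gw (Fintype.card V) r j ≤ g) :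
    ∑ z ∈ I1 V r s, wt (Ed z.1 ∪ Ed z.2) ≤
      (Fintype.card V).choose r * (1 / 2) ^ r.choose 2 * (2 ^ r * g) := by
  rw [I1, sum_filter, sum_product, ← sum_Ed, sum_mul]
  refine sum_le_sum fun B hB => ?_
  rw [← sum_filter]
  refine sum_trace' (W := univ) (p := r) (Z := B)
    (F := B.powerset.filter fun Z => s < Z.card ∧ Z.card + s < r) (fun A hA => ⟨mem_powersetCard.1
      (mem_filter.1 hA).1, mem_filter.2 ⟨mem_powerset.2 inter_subset_right,
        inter_comm A B ▸ (mem_filter.1 hA).2⟩⟩) (Subset.refl _) g0 ?_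
    fun Z hZ => hg _ (mem_filter.1 hZ).2.1 (mem_filter.1 hZ).2.2
  have := card_filter_le B.powerset fun Z => s < Z.card ∧ Z.card + s < r
  rw [card_powerset, (mem_powersetCard.1 hB).2] at this
  exact_mod_cast this

variable (V r) in
def I2 : Finset (Finset V × V × V) := (powersetCard r univ ×ˢ univ).filter
  fun z => z.2.1 ∉ z.1 ∧ z.2.2 ∉ z.1 ∧ z.2.1 ≠ z.2.2

lemma sum_I2 : ∑ z ∈ I2 V r, wt (Ed (insert z.2.1 z.1) ∪ Ed (insert z.2.2 z.1)) ≤
    (Fintype.card V).choose r * (1 / 2) ^ r.choose 2 * (Fintype.card V * (1 / 2) ^ r) ^ 2 := by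
  refine (sum_le_card_nsmul _ _ ((1 / 2) ^ r.choose 2 * ((1 / 2) ^ r) ^ 2) fun z hz => ?_).trans ?_
  · obtain ⟨a, b, c, d⟩ := mem_filter.1 hz
    have a := (mem_powersetCard.1 (mem_product.1 a).1).2
    refine (wt_le (p := r + 1) (by rw [card_insert_of_notMem c, a]) (Subset.refl _)).trans_eq ?_
    rw [insert_inter_of_notMem (by simp [c, d.symm]), inter_eq_left.2 (subset_insert _ _), wt,
      card_Ed, card_insert_of_notMem b, a, Nat.choose_succ_succ' r 1, Nat.choose_one_right, pow_add,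
      show (2 : ℝ) ^ r.choose 2 = ((1 / 2) ^ r.choose 2)⁻¹ by simp]
    field_simp
  · have := card_filter_le (powersetCard r (univ : Finset V) ×ˢ (univ : Finset (V × V)))
      fun z => z.2.1 ∉ z.1 ∧ z.2.2 ∉ z.1 ∧ z.2.1 ≠ z.2.2
    rw [card_product, card_powersetCard, card_univ, card_univ, Fintype.card_prod] at this
    rw [nsmul_eq_mul]
    refine (mul_le_mul_of_nonneg_right (Nat.cast_le.2 this) (by positivity)).trans_eq ?_
    push_cast
    ring

lemma star_step {A : Finset V} {𝒟 : Finset (Finset V)} {u i₀ : ℕ} {θ ξ : ℝ} (hA : A.card = r)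
    (h𝒟 : ∀ D ∈ 𝒟, D.card = r) (hi : 𝒟.card ≤ i₀) (hu : (i₀ + 1) * r ≤ u) (θ0 : 0 ≤ θ)
    (ξ0 : 0 ≤ ξ) (hθ : ∀ j, 2 ≤ j → 3 * j ≤ 2 * r → u ^ j * gw (Fintype.card V) r j ≤ θ)
    (hξ : ∀ d a, 3 * a ≤ 2 * r → r.choose 2 ≤ d + a.choose 2 + i₀ * s ^ 2 → (1 / 2 : ℝ) ^ d ≤ ξ) :
    ∑ B ∈ powersetCard r univ with 2 ≤ (B ∩ A).card ∧ 3 * (B ∩ A).card ≤ 2 * r ∧
      ∀ D ∈ 𝒟, (B ∩ D).card ≤ s, wt (Ed A ∪ 𝒟.biUnion Ed ∪ Ed B) ≤ wt (Ed A ∪ 𝒟.biUnion Ed) *
      (r * θ + ((r + 1) * (u + 1) ^ r * ((r / 3 + 1) * (Fintype.card V + 1) ^ (r / 3)) : ℕ) * ξ) := by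
  set U := A ∪ 𝒟.biUnion id
  have cU : U.card ≤ u := by
    have a := card_biUnion_le_card_mul 𝒟 id r fun D hD => (h𝒟 D hD).le
    have b := card_union_le A (𝒟.biUnion id)
    nlinarith
  have hE : Ed A ∪ 𝒟.biUnion Ed ⊆ Ed U := union_subset (Ed_mono subset_union_left)
    (biUnion_subset.2 fun D hD => Ed_mono ((subset_biUnion_of_mem id hD).trans subset_union_right))
  rw [← sum_filter_add_sum_filter_not _ fun B => 3 * (B ∩ U).card ≤ 2 * r, mul_add]
  refine add_le_add ((sum_trace (W := univ) (p := r) (Z := U)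
    (F := U.powerset.filter fun Z => 2 ≤ Z.card ∧ 3 * Z.card ≤ 2 * r) (fun B hB => ?_) hE).trans
      (mul_le_mul_of_nonneg_left ?_ wt_pos.le)) ((sum_le_card_nsmul _ _
        (wt (Ed A ∪ 𝒟.biUnion Ed) * ξ) fun B hB => ?_).trans ?_)
  · obtain ⟨a, b⟩ := mem_filter.1 hB
    obtain ⟨a, c, -⟩ := mem_filter.1 a
    exact ⟨mem_powersetCard.1 a, mem_filter.2 ⟨mem_powerset.2 inter_subset_right,
      c.trans (card_le_card (inter_subset_inter_left subset_union_left)), b⟩⟩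
  · rw [← sum_fiberwise_of_maps_to (t := range r) (g := card) fun Z hZ => mem_range.2 (by
      have := (mem_filter.1 hZ).2; omega)]
    refine (sum_le_card_nsmul _ _ θ fun j _ => ?_).trans_eq (by rw [card_range, nsmul_eq_mul])
    by_cases c : 2 ≤ j ∧ 3 * j ≤ 2 * r
    · rw [sum_congr rfl fun Z hZ => by rw [(mem_filter.1 hZ).2], sum_const, nsmul_eq_mul, card_univ]
      refine le_trans (mul_le_mul_of_nonneg_right ?_ (gw_nonneg _ _ _)) (hθ j c.1 c.2)
      have := (card_le_card (t := powersetCard j U) (s := (U.powerset.filter fun Z =>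
        2 ≤ Z.card ∧ 3 * Z.card ≤ 2 * r).filter (card · = j)) fun Z hZ => mem_powersetCard.2
          ⟨mem_powerset.1 (mem_filter.1 (mem_filter.1 hZ).1).1, (mem_filter.1 hZ).2⟩).trans_eq
        (card_powersetCard _ _)
      exact_mod_cast this.trans ((Nat.choose_le_pow _ _).trans (Nat.pow_le_pow_left cU _))
    · exact (sum_eq_zero fun Z hZ => absurd ((mem_filter.1 hZ).2 ▸
        (mem_filter.1 (mem_filter.1 hZ).1).2) c).trans_le θ0
  · obtain ⟨a, -, c, d⟩ := mem_filter.1 (mem_filter.1 hB).1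
    rw [wt, ← union_sdiff_self_eq_union, card_union_of_disjoint disjoint_sdiff, pow_add]
    refine mul_le_mul_of_nonneg_left (hξ _ _ c ?_) wt_pos.le
    have c1 : Ed B ⊆ Ed B \ (Ed A ∪ 𝒟.biUnion Ed) ∪ Ed (B ∩ A) ∪ 𝒟.biUnion fun D => Ed (B ∩ D) := by
      intro e he
      by_cases n : e ∈ Ed A ∪ 𝒟.biUnion Ed
      · rw [mem_Ed] at he
        rcases mem_union.1 n with n | n
        · rw [mem_Ed] at n
          exact mem_union_left _ (mem_union_right _ (mem_Ed.2 ⟨mem_inter.2 ⟨he.1, n.1⟩,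
            mem_inter.2 ⟨he.2.1, n.2.1⟩, n.2.2⟩))
        · obtain ⟨D, u, n⟩ := mem_biUnion.1 n
          rw [mem_Ed] at n
          exact mem_union_right _ (mem_biUnion.2 ⟨D, u, mem_Ed.2 ⟨mem_inter.2 ⟨he.1, n.1⟩,
            mem_inter.2 ⟨he.2.1, n.2.1⟩, n.2.2⟩⟩)
      · exact mem_union_left _ (mem_union_left _ (mem_sdiff.2 ⟨he, n⟩))
    have c2 := (card_le_card c1).trans ((card_union_le _ _).trans (add_le_add (card_union_le _ _)
      (card_biUnion_le_card_mul _ _ (s ^ 2) fun D hD => (card_Ed _).trans_le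
        ((Nat.choose_le_pow _ _).trans (Nat.pow_le_pow_left (d D hD) _)))))
    rw [card_Ed, card_Ed, (mem_powersetCard.1 a).2] at c2
    exact c2.trans (by gcongr)
  · rw [nsmul_eq_mul, mul_left_comm]
    gcongr
    · exact wt_pos.le
    refine le_trans (card_le_card_of_injOn (t := sm U r ×ˢ sm univ (r / 3))
      (fun B => (B ∩ U, B \ U)) (fun B hB => ?_) fun A _ B _ e => ?_) ?_
    · obtain ⟨a, b⟩ := mem_filter.1 hB
      have a := (mem_powersetCard.1 (mem_filter.1 a).1).2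
      have c := card_sdiff_add_card_inter B U
      exact mem_product.2 ⟨mem_sm.2 ⟨inter_subset_right, by simp only; omega⟩,
        mem_sm.2 ⟨subset_univ _, by simp only; omega⟩⟩
    · rw [← sdiff_union_inter A U, ← sdiff_union_inter B U, (Prod.mk.inj e).1, (Prod.mk.inj e).2]
    · rw [card_product]
      exact Nat.mul_le_mul (card_sm cU _) (card_sm card_univ.le _)

lemma star_sum {A : Finset V} {i₀ : ℕ} {θ : ℝ} (θ0 : 0 ≤ θ)
    (h : ∀ 𝒟 : Finset (Finset V), (∀ D ∈ 𝒟, D.card = r) → 𝒟.card ≤ i₀ →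
      ∑ B ∈ powersetCard r univ with 2 ≤ (B ∩ A).card ∧ 3 * (B ∩ A).card ≤ 2 * r ∧
        ∀ D ∈ 𝒟, (B ∩ D).card ≤ s, wt (Ed A ∪ 𝒟.biUnion Ed ∪ Ed B) ≤
        wt (Ed A ∪ 𝒟.biUnion Ed) * θ) : ∀ i ≤ i₀,
    ∑ 𝒟 with Star r s A 𝒟 ∧ 𝒟.card = i, wt (Ed A ∪ 𝒟.biUnion Ed) ≤ wt (Ed A) * θ ^ i := by
  intro i
  induction i with
  | zero =>
    intro _
    refine (sum_le_sum_of_subset_of_nonneg (t := {∅}) (fun 𝒟 h𝒟 => mem_singleton.2
      (card_eq_zero.1 (mem_filter.1 h𝒟).2.2)) fun _ _ _ => wt_pos.le).trans (by simp)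
  | succ i ih =>
    intro hi
    refine (sum_le_sum_of_subset_of_nonneg (t := ((univ.filter fun 𝒟 => Star r s A 𝒟 ∧
      𝒟.card = i).sigma fun 𝒟 => (powersetCard r univ).filter fun B => 2 ≤ (B ∩ A).card ∧
        3 * (B ∩ A).card ≤ 2 * r ∧ ∀ D ∈ 𝒟, (B ∩ D).card ≤ s).image fun z => insert z.2 z.1)
      (fun 𝒟 h𝒟 => ?_) fun _ _ _ => wt_pos.le).trans
      ((sum_image_le_of_nonneg fun _ _ => wt_pos.le).trans ?_)
    · obtain ⟨⟨a, b⟩, c⟩ := (mem_filter.1 h𝒟).2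
      obtain ⟨B, hB⟩ := card_pos.1 (show 0 < 𝒟.card by omega)
      exact mem_image.2 ⟨⟨𝒟.erase B, B⟩, mem_sigma.2 ⟨mem_filter.2 ⟨mem_univ _,
        ⟨fun D hD => a D (mem_of_mem_erase hD), fun D hD D' hD' =>
          b D (mem_of_mem_erase hD) D' (mem_of_mem_erase hD')⟩,
        by simp only [card_erase_of_mem hB]; omega⟩, mem_filter.2 ⟨mem_powersetCard.2
          ⟨subset_univ _, (a B hB).1⟩, (a B hB).2.1, (a B hB).2.2, fun D hD =>
            b B hB D (mem_of_mem_erase hD) (ne_of_mem_erase hD).symm⟩⟩, insert_erase hB⟩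
    · rw [sum_sigma, pow_succ, ← mul_assoc]
      refine le_trans (sum_le_sum fun 𝒟 h𝒟 => ?_) ((sum_mul _ _ _).ge.trans
        (mul_le_mul_of_nonneg_right (ih (by omega)) θ0))
      obtain ⟨⟨a, -⟩, c⟩ := (mem_filter.1 h𝒟).2
      simp only [biUnion_insert, union_comm (Ed _) (𝒟.biUnion Ed), ← union_assoc]
      simpa only [union_comm (Ed A)] using h 𝒟 (fun D hD => (a D hD).1) (by omega)

variable (V r s) in
def I3 (k i₀ : ℕ) : Finset (Finset V × Finset (Finset V)) := (powersetCard r univ ×ˢ univ).filter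
  fun z => Star r s z.1 z.2 ∧ k ≤ z.2.card ∧ z.2.card ≤ i₀

lemma sum_I3 {k i₀ c : ℕ} {θ Y η : ℝ} (θ0 : 0 ≤ θ) (Y0 : 0 ≤ Y) (hη : Y ^ c * θ ≤ η) (η1 : η ≤ 1)
    (h : ∀ A : Finset V, A.card = r → ∀ i ≤ i₀,
      ∑ 𝒟 with Star r s A 𝒟 ∧ 𝒟.card = i, wt (Ed A ∪ 𝒟.biUnion Ed) ≤ wt (Ed A) * θ ^ i) :
    ∑ z ∈ I3 V r s k i₀, Y ^ (c * z.2.card) * wt (Ed z.1 ∪ z.2.biUnion Ed) ≤
      (Fintype.card V).choose r * (1 / 2) ^ r.choose 2 * ((i₀ + 1) * η ^ k) := by
  have η0 : 0 ≤ η := le_trans (by positivity) hη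
  rw [I3, sum_filter, sum_product, ← sum_Ed, sum_mul]
  refine sum_le_sum fun A hA => ?_
  rw [← sum_filter, ← sum_fiberwise_of_maps_to (t := Icc k i₀) (g := card) fun 𝒟 h𝒟 =>
    mem_Icc.2 (mem_filter.1 h𝒟).2.2]
  refine (sum_le_card_nsmul _ _ (wt (Ed A) * η ^ k) fun i hi => ?_).trans ?_
  · rw [sum_congr rfl fun 𝒟 h𝒟 => by rw [(mem_filter.1 h𝒟).2], ← mul_sum]
    refine (mul_le_mul_of_nonneg_left ((sum_le_sum_of_subset_of_nonneg (fun 𝒟 h𝒟 => mem_filter.2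
      ⟨mem_univ _, (mem_filter.1 (mem_filter.1 h𝒟).1).2.1, (mem_filter.1 h𝒟).2⟩)
      fun _ _ _ => wt_pos.le).trans (h A (mem_powersetCard.1 hA).2 i (mem_Icc.1 hi).2))
      (by positivity)).trans ?_
    rw [mul_left_comm, pow_mul, ← mul_pow]
    exact mul_le_mul_of_nonneg_left ((pow_le_pow_left₀ (by positivity) hη _).trans
      (pow_le_pow_of_le_one η0 η1 (mem_Icc.1 hi).1)) wt_pos.le
  · rw [nsmul_eq_mul, mul_left_comm, Nat.card_Icc]
    gcongr
    · exact wt_pos.le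
    · exact_mod_cast Nat.sub_le _ _

end Pool.Agent.Lib.MP_e78360_co
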