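import Pool.Agent.Lib.MP_e78360_co.PGame
import Pool.Agent.Lib.MP_e78360_co.PSum

/-! Building on a part of the board while blocking with reserved pairs. -/

set_option autoImplicit false

noncomputable section

namespace Pool.Agent.Lib.MP_e78360_co

open Finset Pool.Agent.Lib.MP_4a944d_co Pool.Agent.Lib.MP_4a944d_co.Hc
open scoped Classical

section

variable {V : Type*} [LinearOrder V] {W : Finset V} {p : ℕ}

lemma nu_two {S : Finset (V × V)} (h : S.card ≤ 1) (E : Finset (V × V)) :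
    nu S ∅ E ≤ ((2 : ℝ) • wt) E := by
  have c := le_card_sdiff S E
  rw [nu, if_pos (disjoint_empty_right _), Pi.smul_apply, smul_eq_mul, wt]
  refine le_of_mul_le_mul_right ?_ (show (0 : ℝ) < 1 / 2 by norm_num)
  rw [← pow_succ, mul_right_comm, mul_one_div_cancel two_ne_zero, one_mul]
  exact pow_le_pow_of_le_one (by norm_num) (by norm_num) (by omega)

lemma La_gn {X D D' : Finset (V × V)} (hD : D ⊆ D') {γ : ℝ} (hγ : 0 ≤ γ)
    (h : ∀ T ∈ powersetCard 2 W, ∑ A ∈ Fm W p T, nu X D (Ed A) ≤ γ) (x : V × V) :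
    La W p (gn x X D') ≤ γ := by
  rw [La_apply]
  by_cases hx : x ∈ Ed W
  swap
  · exact (sum_eq_zero fun A hA => if_neg fun a => hx (Ed_mono (mem_powersetCard.1 hA).1 a)).trans_le
      hγ
  rw [mem_Ed] at hx
  refine le_trans ?_ (h {x.1, x.2} (mem_powersetCard.2
    ⟨by simp [insert_subset_iff, hx.1, hx.2.1], card_pair hx.2.2.ne⟩))
  simp only [Fm, sum_filter, gn]
  refine sum_le_sum fun B _ => ?_
  split_ifs with c1 c2
  · unfold nu
    split_ifs with a b
    exacts [le_rfl, absurd (a.mono_right hD) b, by positivity, le_rfl]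
  · exact absurd (by simp [insert_subset_iff, (mem_Ed.1 c1).1, (mem_Ed.1 c1).2.1]) c2
  · exact nu_nonneg
  · rfl

end

theorem win_pair {p r N m k : ℕ} {W : Finset (Fin N)} {b K K₂ σ : ℝ} (hp : 3 ≤ p)
    (hM : 12 * p ^ 2 ≤ W.card) (hm : m ≠ 0) (hb : b = W.card.choose p * (1 / 2) ^ p.choose 2)
    (K0 : 0 < K) (K2 : 0 < K₂) (σ0 : 0 ≤ σ)
    (h1 : ∀ T : Finset (Fin N), T.card = 3 → Lk (Fm W p T) m ∅ wt ≤ K ^ m)
    (h1' : ∀ T : Finset (Fin N), T.card = 2 → Lk (Fm W p T) m ∅ wt ≤ K₂ ^ m)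
    (h2 : Lk (powersetCard p W) 2 ∅ wt ≤ 6 * b ^ 2)
    (h3 : 768 * (W.card : ℝ) ^ 3 ≤ σ ^ m) (h4 : 16 * W.card ^ 2 * (σ * K) ≤ b)
    (Ψ : (Finset (Fin N × Fin N) → ℝ) →ₗ[ℝ] ℝ) (m0 : ∀ φ ψ, (∀ E, φ E ≤ ψ E) → Ψ φ ≤ Ψ ψ)
    (h0 : ∀ F S 𝒬, Good r (2 * k + 2) S 𝒬 → Disjoint S F → Ψ (nu S F) < 1 → ∀ A : Finset (Fin N),
      A.card = r → (Ed A \ (S ∪ PE 𝒬)).card ≤ k + 2 → (Ed A ∩ PE 𝒬).card ≤ k)
    (hΨ : 1536 * Ψ wt ≤ 1) (hZ : 64 * (σ * K₂) *
      Ps (powersetCard r (univ : Finset (Fin N))) Ed (fun _ => 2 * k + 2) wt ≤ b)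
    (hr : k + 3 ≤ r.choose 2) :
    Win (V := Fin N) (Has p) (fun S => ∃ Q, r ≤ Q.card ∧ Cl S Q) (N.choose 2 / 2) ∅ ∅ := by
  have core : ∀ S : Finset (Fin N × Fin N), Up S → S.card + 2 * (N.choose 2 / 2) = N.choose 2 →
      Win (V := Fin N) (Has p) (fun S => ∃ Q, r ≤ Q.card ∧ Cl S Q) (N.choose 2 / 2) ∅ S := by
    intro S hS hc
    have S1 : S.card ≤ 1 := by omega
    have low := beck_low (W := W) (a := 0) (D := S) hp (by simpa using hM) (by
      nlinarith [Nat.le_self_pow two_ne_zero W.card, Nat.mul_le_mul_right (8 * p ^ 2) S1])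
    rw [← hb] at low
    have pn : p ≤ W.card := by nlinarith
    have M1 : (1 : ℝ) ≤ W.card := by exact_mod_cast (show 1 ≤ W.card by omega)
    have b0 : 0 < b := hb ▸ mul_pos (by exact_mod_cast Nat.choose_pos pn) (by positivity)
    have c0 : 0 < b / (16 * W.card ^ 3 * K ^ m) := by positivity
    have c0' : 0 < (48 * b)⁻¹ := by positivity
    have c0'' : 0 < b / (16 * W.card ^ 2 * K₂ ^ m) := by positivity
    have ap : ∀ φ, (Lam W p m (b / (16 * W.card ^ 3 * K ^ m)) (48 * b)⁻¹ -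
        (b / (16 * W.card ^ 2 * K₂ ^ m)) • ∑ T ∈ powersetCard 2 W, Lk (Fm W p T) m ∅) φ =
        Lam W p m (b / (16 * W.card ^ 3 * K ^ m)) (48 * b)⁻¹ φ -
        b / (16 * W.card ^ 2 * K₂ ^ m) * ∑ T ∈ powersetCard 2 W, Lk (Fm W p T) m ∅ φ := fun φ => by
      simp only [LinearMap.sub_apply, LinearMap.smul_apply, LinearMap.sum_apply, smul_eq_mul]
    generalize (Lam W p m (b / (16 * W.card ^ 3 * K ^ m)) (48 * b)⁻¹ -
      (b / (16 * W.card ^ 2 * K₂ ^ m)) • ∑ T ∈ powersetCard 2 W, Lk (Fm W p T) m ∅) = Λ at ap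
    have le1 : ∀ φ, (∀ E, 0 ≤ φ E) →
        Λ φ ≤ Lam W p m (b / (16 * W.card ^ 3 * K ^ m)) (48 * b)⁻¹ φ := fun φ h => by
      rw [ap]
      exact sub_le_self _ (mul_nonneg c0''.le (sum_nonneg fun _ _ => Lk_nonneg h _ _))
    have le2 : ∀ φ, (∀ E, 0 ≤ φ E) → Λ φ ≤ La W p φ := fun φ h =>
      (le1 φ h).trans (Lam_le c0.le c0'.le h)
    refine (pair_game (k := k) Λ Ψ (Ps (powersetCard r univ) Ed fun _ => 2 * k + 2) (μ := 48 * b)
      (γ := σ * K) (δ := 2 * (σ * K₂)) (Lm := 48 * b) (B₀ := Ed W) (fun X D h => ?_)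
      (fun X D h hX => ?_) le_rfl (by positivity) (by positivity) (by positivity) m0
      (fun _ _ => Ps_mono) (fun F S 𝒬 g d => ?_) h0 _ S hS
      (by rw [Fintype.card_fin]; exact hc) (by omega) ?_).resolve_left ?_
    · have n0 : ∀ E, 0 ≤ nu X D E := fun _ => nu_nonneg
      obtain ⟨a1, a2⟩ := Lam_max hm (γ := σ * K) c0 c0' (by positivity) (by
        rw [show b / (16 * W.card ^ 3 * K ^ m) * (48 * b)⁻¹ * (σ * K) ^ m =
          σ ^ m / (768 * W.card ^ 3) by rw [mul_pow]; field_simp; ring, one_le_div (by positivity)]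
        exact h3) X D (h.trans (le1 _ n0))
      rw [inv_inv] at a1
      have a3 : ∀ T ∈ powersetCard 2 W, ∑ A ∈ Fm W p T, nu X D (Ed A) ≤ σ * K₂ := fun T hT => by
        refine le_of_pow_le_pow_left₀ hm (by positivity) (le_of_mul_le_mul_left ?_ c0'')
        have b4 := (Lk_pow' (s := Fm W p T) X D m).trans (single_le_sum
          (f := fun T => Lk (Fm W p T) m ∅ (nu X D)) (fun T _ => Lk_nonneg n0 m ∅) hT)
        have b5 := mul_le_mul_of_nonneg_left b4 c0''.le
        rw [ap] at h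
        refine le_trans (show _ ≤ 48 * b by linarith) ?_
        rw [show b / (16 * W.card ^ 2 * K₂ ^ m) * (σ * K₂) ^ m = b * (σ ^ m / (16 * W.card ^ 2)) by
          rw [mul_pow]; field_simp, mul_comm]
        refine mul_le_mul_of_nonneg_left ((le_div_iff₀ (by positivity)).2 ?_) b0.le
        linarith [pow_le_pow_right₀ M1 (show 2 ≤ 3 by norm_num)]
      have g0 : ∀ x D E, 0 ≤ gn (V := Fin N) x X D E := fun x D E => by
        unfold gn
        split_ifs
        exacts [nu_nonneg, le_rfl]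
      refine ⟨(le1 _ n0).trans a1, fun x y xy => ?_, fun x y => ?_⟩
      · have g0 : ∀ E, 0 ≤ g2 x y X D E := fun E => by
          unfold g2
          split_ifs
          exacts [nu_nonneg, le_rfl]
        split_ifs with c
        · exact (le1 _ g0).trans (a2 x y xy)
        · refine (le2 _ g0).trans_eq ?_
          rw [La_apply]
          exact sum_eq_zero fun A hA => if_neg fun a => c (Ed_mono (mem_powersetCard.1 hA).1 a.1)
      · rw [nu_D, nu_D, map_sub, map_sub]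
        linarith [(le2 _ (g0 y D)).trans (La_gn (Subset.refl _) (by positivity) a3 y),
          (le2 _ (g0 x _)).trans (La_gn (subset_insert y D) (by positivity) a3 x)]
    · obtain ⟨Q, -, q2, q3⟩ := beck_end (p := p) (h.trans_le (le2 _ fun _ => nu_nonneg))
        ((Ed_mono (subset_univ W)).trans hX)
      exact ⟨Q, q2, fun x hx y hy l => q3 (mem_Ed.2 ⟨hx, hy, l⟩)⟩
    · rw [← card_image_of_injOn g.inj]
      refine Ps_card d (fun B hB => ?_) fun B hB => ?_ <;> obtain ⟨π, a, rfl⟩ := mem_image.1 hB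
      exacts [mem_powersetCard.2 ⟨subset_univ _, g.card π a⟩, g.miss π a]
    · have c1 : σ * K * (Ed W).card ≤ b / 16 := by
        have : ((Ed W).card : ℝ) ≤ W.card ^ 2 := by
          rw [card_Ed]
          exact_mod_cast Nat.choose_le_pow _ _
        linarith [mul_le_mul_of_nonneg_left this (mul_nonneg σ0 K0.le)]
      have c2 : ∀ {τ : ℕ} {K : ℝ}, 0 < K → (∀ T : Finset (Fin N), T.card = τ →
          Lk (Fm W p T) m ∅ wt ≤ K ^ m) → b / (16 * W.card ^ τ * K ^ m) *
          ∑ T ∈ powersetCard τ W, Lk (Fm W p T) m ∅ (nu ∅ S) ≤ b / 16 := fun {τ K} K0 h1 => by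
        refine (mul_le_mul_of_nonneg_left (c := W.card ^ τ * K ^ m) ?_ (by positivity)).trans_eq
          (by field_simp)
        refine (sum_le_card_nsmul _ _ (K ^ m) fun T hT => (Lk_mono (nu_le_wt S) _ _).trans
          (h1 T (mem_powersetCard.1 hT).2)).trans ?_
        rw [nsmul_eq_mul, card_powersetCard]
        gcongr
        exact_mod_cast Nat.choose_le_pow _ _
      have c4 := (mul_le_mul_of_nonneg_left ((Lk_mono (nu_le_wt S) _ _).trans h2) c0'.le).trans_eq
        (show _ = b / 8 by field_simp; ring)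
      have c5 := m0 _ _ (nu_two S1)
      have c6 := Ps_mono (I := powersetCard r (univ : Finset (Fin N))) (E := Ed)
        (lam := fun _ => 2 * k + 2) (nu_two S1)
      rw [map_smul, smul_eq_mul] at c5 c6
      rw [ap, Lam_apply]
      linarith [c2 K0 h1, c2 K2 h1', mul_le_mul_of_nonneg_left c5 b0.le,
        mul_le_mul_of_nonneg_left hΨ b0.le, mul_le_mul_of_nonneg_left c6 (mul_nonneg σ0 K2.le)]
    · rintro ⟨Q, q1, q2⟩
      obtain ⟨x, hx, y, hy, xy⟩ := one_lt_card.1 (show 1 < Q.card by omega)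
      rcases lt_or_gt_of_ne xy with l | l
      exacts [notMem_empty _ (q2 x hx y hy l), notMem_empty _ (q2 y hy x hx l)]
  by_cases ev : 2 * (N.choose 2 / 2) = N.choose 2
  · exact core ∅ (fun _ h => absurd h (notMem_empty _)) (by simpa using ev)
  · obtain ⟨g, hg⟩ := free_pair (V := Fin N) (F := ∅) (S := ∅) (by
      rw [Fintype.card_fin, card_empty]; omega)
    exact win_imag (fun S S' h ⟨Q, q1, q2⟩ => ⟨Q, q1, q2.mono h⟩) _ _ _ g hg
      (by rw [Fintype.card_fin, card_empty]; omega) (core _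
        (Up.insert (fun _ h => absurd h (notMem_empty _)) hg.1)
        (by rw [card_insert_of_notMem (notMem_empty _), card_empty]; omega))

end Pool.Agent.Lib.MP_e78360_co
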