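import Pool.Agent.Lib.MP_e78360_co.PBld
import Pool.Agent.Lib.MP_e78360_co.PBlk
import Pool.Agent.Lib.MP_e78360_co.PWin

/-! Building and blocking at both thresholds. -/

set_option autoImplicit false

noncomputable section

namespace Pool.Agent.Lib.MP_e78360_co

open Finset Filter Real Pool.Agent.Lib.MP_4a944d_co Pool.Agent.Lib.MP_4a944d_co.Hc
open scoped Classical

theorem win_one {ε : ℝ} (ε0 : 0 < ε) : ∀ᶠ q : ℕ in atTop, ∀ N : ℕ,
    (√2 / exp 1 + ε) * q * (2 : ℝ) ^ (q / 2 : ℝ) ≤ N →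
    ∃ t : ℕ, 2 * t ≤ N.choose 2 ∧ Win (V := Fin N) (Has q) (fun S => ∃ Q : Finset (Fin N),
      q + min (300 * log q) (2 * logb 2 (N / (√2 / exp 1 * q * 2 ^ (q / 2 : ℝ))) + ε) ≤ Q.card ∧
        Cl S Q) t ∅ ∅ := by
  have L0 : 0 < log 2 := log_pos one_lt_two
  have c1 : 1 / 2 ≤ √2 / exp 1 := by
    have a : (1.4 : ℝ) ≤ √2 := le_sqrt_of_sq_le (by norm_num)
    rw [le_div_iff₀ (exp_pos 1)]
    linarith [exp_one_lt_d9]
  have c2 : √2 / exp 1 ≤ 1 := (div_le_one (exp_pos 1)).2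
    ((sqrt_le_iff.2 ⟨by norm_num, by norm_num⟩).trans (add_one_le_exp 1))
  obtain ⟨δ, δ0, δ1, δ2⟩ : ∃ δ : ℝ, 0 < δ ∧ δ ≤ 1 ∧ δ ≤ log 2 * (ε / 2) :=
    ⟨min 1 _, by positivity, min_le_left _ _, min_le_right _ _⟩
  obtain ⟨η, η0, η1, η2, η3⟩ : ∃ η : ℝ, 0 < η ∧ η ≤ 1 / 10 ∧ η ≤ δ / 8 ∧ η ≤ log (1 + ε) / 3 :=
    ⟨min (1 / 10) (min _ _), by have := log_pos (show 1 < 1 + ε by linarith); positivity,
      min_le_left _ _, (min_le_right _ _).trans (min_le_left _ _),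
      (min_le_right _ _).trans (min_le_right _ _)⟩
  obtain ⟨k, hk⟩ := block δ0 δ1
  obtain ⟨r₀, hk⟩ := eventually_atTop.1 hk
  filter_upwards [win_all, build η0 η1, eventually_ge_atTop r₀, eventually_ge_atTop 3,
    tendsto_natCast_atTop_atTop.eventually_ge_atTop (exp ε),
    ev_poly 64 208 (show 0 < δ / 4 by positivity),
    ev_poly (exp 1) 100 (show (0 : ℝ) < 1 / 80 by norm_num)] with q e0 e1 e2 q3 e3 e4 e5 N hN
  have q0 : (3 : ℝ) ≤ q := by exact_mod_cast q3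
  have qp : (0 : ℝ) < q := by linarith
  have g1 : 1 ≤ log q := by
    rw [le_log_iff_exp_le qp]
    linarith [exp_one_lt_d9]
  have g2 : ε ≤ log q := (le_log_iff_exp_le qp).2 e3
  have z1 : (1 : ℝ) ≤ 2 ^ (q / 2 : ℝ) := one_le_rpow one_le_two (by positivity)
  have w1 : (1 : ℝ) ≤ q * 2 ^ (q / 2 : ℝ) := one_le_mul_of_one_le_of_one_le (by linarith) z1
  obtain ⟨y, hy⟩ : ∃ y : ℝ, y = N / (√2 / exp 1 * q * 2 ^ (q / 2 : ℝ)) := ⟨_, rfl⟩
  have ey : (N : ℝ) = y * (√2 / exp 1 * (q * 2 ^ (q / 2 : ℝ))) := by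
    rw [hy, mul_assoc, div_mul_cancel₀ _ (by positivity)]
  have y1 : 1 ≤ y := by
    rw [hy, one_le_div (by positivity)]
    exact le_trans (by gcongr; linarith) hN
  rw [← hy]
  have y2 : y = exp (log 2 * logb 2 y) := by
    rw [← rpow_def_of_pos two_pos, rpow_logb two_pos (by norm_num) (by linarith)]
  have y3 := logb_nonneg one_lt_two y1
  generalize logb 2 y = a at y2 y3 ⊢
  rcases le_total (300 * log q) (2 * a + ε) with h | h
  · rw [min_eq_left h]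
    refine e0 N ?_
    have b : (q : ℝ) ^ 16 ≤ y := by
      rw [y2, ← exp_log (pow_pos qp 16), exp_le_exp, log_pow]
      push_cast
      nlinarith [log_two_gt_d9]
    rw [ey]
    calc _ = (q : ℝ) ^ 16 * (1 / 2 * (2 * 2 ^ (q / 2 : ℝ))) := by ring
      _ ≤ _ := by gcongr; linarith
  rw [min_eq_right h]
  simp only [← Nat.ceil_le]
  have r1 := Nat.le_ceil (q + (2 * a + ε))
  have r2 := Nat.ceil_lt_add_one (show 0 ≤ q + (2 * a + ε) by positivity)
  generalize ⌈q + (2 * a + ε)⌉₊ = r at r1 r2 ⊢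
  have qr : (q : ℝ) ≤ r := by linarith
  have n0 : √2 / exp 1 * exp (3 * η) * q * 2 ^ (q / 2 : ℝ) ≤ N := le_trans (by
    gcongr
    have a : exp (3 * η) ≤ 1 + ε := (le_log_iff_exp_le (by linarith)).1 (by linarith)
    nlinarith) hN
  have n1 := Nat.le_ceil (√2 / exp 1 * exp (3 * η) * q * 2 ^ (q / 2 : ℝ))
  have n2 := Nat.ceil_lt_add_one
    (show 0 ≤ √2 / exp 1 * exp (3 * η) * q * 2 ^ (q / 2 : ℝ) by positivity)
  rw [← Nat.ceil_le] at n0
  generalize ⌈√2 / exp 1 * exp (3 * η) * q * 2 ^ (q / 2 : ℝ)⌉₊ = n at n0 n1 n2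
  obtain ⟨W, -, hW⟩ := exists_subset_card_eq (s := (univ : Finset (Fin N))) (n := n) (by simpa)
  have n3 : √2 / exp 1 * (q * 2 ^ (q / 2 : ℝ)) ≤ n := le_trans (by
    rw [mul_assoc (_ * _)]
    gcongr
    exact le_mul_of_one_le_right (by positivity) (one_le_exp (by positivity))) n1
  obtain ⟨m, b, K, K₂, σ, a1, a2, a3, a4, a5, a6, a7, a8, a9, a10, a11, a12⟩ := e1 N n W hW n1 (by
    have : √2 / exp 1 * exp (3 * η) * (q * 2 ^ (q / 2 : ℝ)) ≤ 1 * 3 * (q * 2 ^ (q / 2 : ℝ)) := by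
      gcongr
      linarith [exp_le_exp.2 (show 3 * η ≤ 1 by linarith), exp_one_lt_d9]
    linarith)
  obtain ⟨Ψ, b1, b2, b3, b4, b5⟩ := hk r (e2.trans (by exact_mod_cast qr)) N (by
    have a : exp (r / 3) ≤ (2 : ℝ) ^ (q / 2 : ℝ) := by
      have a := log_le_log (by positivity) e5
      rw [log_exp, log_mul (exp_pos 1).ne' (by positivity), log_exp, log_pow] at a
      rw [rpow_def_of_pos two_pos, exp_le_exp]
      push_cast at a
      linarith [mul_le_mul_of_nonneg_right log_two_gt_d9.le qp.le]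
    rw [ey]
    calc _ ≤ 1 * (1 / 2 * (2 * (2 : ℝ) ^ (q / 2 : ℝ))) := by linarith
      _ ≤ _ := by gcongr; linarith) (by
    rw [ey, y2]
    calc _ = √2 / exp 1 * (q * (exp (log 2 * a) * 2 ^ (q / 2 : ℝ))) := by ring
      _ ≤ √2 / exp 1 * (r * (exp (-δ) * 2 ^ (r / 2 : ℝ))) := by
          refine mul_le_mul_of_nonneg_left (mul_le_mul qr ?_ (by positivity) (by positivity))
            (by positivity)
          rw [rpow_def_of_pos two_pos, rpow_def_of_pos two_pos, ← exp_add, ← exp_add, exp_le_exp]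
          linarith [mul_le_mul_of_nonneg_left r1 L0.le]
      _ = _ := by ring)
  rw [← hW] at a1 a3 a10 a11
  refine ⟨N.choose 2 / 2, Nat.mul_div_le _ _,
    win_pair q3 a1 a2 a3 a4 a5 a6 a7 a8 a9 a10 a11 Ψ b1 b2 b3 ?_ b5⟩
  have y4 : y ≤ (q : ℝ) ^ 104 := by
    rw [y2, ← exp_log (pow_pos qp 104), exp_le_exp, log_pow]
    push_cast
    nlinarith [log_two_lt_d9]
  have b0 : 0 ≤ b := a3 ▸ by positivity
  calc _ ≤ 64 * (σ * K₂) * ((q ^ 104 * n) ^ 2 * exp (-(δ / 2 * q))) := by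
        refine mul_le_mul_of_nonneg_left (b4.trans (mul_le_mul (pow_le_pow_left₀ (by positivity)
          (ey.trans_le (mul_le_mul y4 n3 (by positivity) (pow_pos qp _).le)) 2) (exp_le_exp.2 ?_)
          (exp_pos _).le (sq_nonneg _))) (by positivity)
        linarith [mul_le_mul_of_nonneg_left qr δ0.le]
    _ = 64 * q ^ 208 * (n ^ 2 * (σ * K₂)) * exp (-(δ / 2 * q)) := by ring
    _ ≤ exp (δ / 4 * q) * (exp (2 * η * q) * b) * exp (-(δ / 2 * q)) := by gcongr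
    _ = exp (δ / 4 * q + 2 * η * q + -(δ / 2 * q)) * b := by rw [exp_add, exp_add]; ring
    _ ≤ _ := mul_le_of_le_one_left b0 (exp_le_one_iff.2
        (by linarith [mul_le_mul_of_nonneg_right η2 qp.le]))

end Pool.Agent.Lib.MP_e78360_co
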