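import Pool.Agent.Lib.MP_e78360_co.SEst

/-! Building above the threshold: the initial values of the moments. -/

set_option autoImplicit false

noncomputable section

namespace Pool.Agent.Lib.MP_e78360_co

open Finset Filter Real Pool.Agent.Lib.MP_4a944d_co Pool.Agent.Lib.MP_4a944d_co.Hc
open scoped Classical

theorem build {η : ℝ} (η0 : 0 < η) (η1 : η ≤ 1 / 10) : ∀ᶠ q : ℕ in atTop, ∀ (N n : ℕ)
    (W : Finset (Fin N)), W.card = n → √2 / exp 1 * exp (3 * η) * q * 2 ^ (q / 2 : ℝ) ≤ n →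
    n ≤ 17 * q * (2 : ℝ) ^ (q / 2 : ℝ) → ∃ (m : ℕ) (b K K₂ σ : ℝ), 12 * q ^ 2 ≤ n ∧ m ≠ 0 ∧
      b = n.choose q * (1 / 2) ^ q.choose 2 ∧ 0 < K ∧ 0 < K₂ ∧ 0 ≤ σ ∧
      (∀ T : Finset (Fin N), T.card = 3 → Lk (Fm W q T) m ∅ wt ≤ K ^ m) ∧
      (∀ T : Finset (Fin N), T.card = 2 → Lk (Fm W q T) m ∅ wt ≤ K₂ ^ m) ∧
      Lk (powersetCard q W) 2 ∅ wt ≤ 6 * b ^ 2 ∧ 768 * (n : ℝ) ^ 3 ≤ σ ^ m ∧
      16 * n ^ 2 * (σ * K) ≤ b ∧ n ^ 2 * (σ * K₂) ≤ exp (2 * η * q) * b := by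
  obtain ⟨m, hm⟩ := exists_nat_ge (2 / η)
  have m20 : (20 : ℝ) ≤ m := le_trans (by rw [le_div_iff₀ η0]; linarith) hm
  rw [div_le_iff₀ η0] at hm
  obtain ⟨s₁, hs₁⟩ : ∃ s₁, s₁ = 8 * ((m + 6) * (m + 1)) := ⟨_, rfl⟩
  obtain ⟨s, hs⟩ : ∃ s, s = 9 * s₁ := ⟨_, rfl⟩
  obtain ⟨σ, hσ⟩ : ∃ σ, σ = m * s + 3 + s := ⟨_, rfl⟩
  have η2 : 0 < 1 - exp (-η) := sub_pos.2 (exp_lt_one_iff.2 (by linarith))
  filter_upwards [eventually_ge_atTop (2 * (s₁ + σ)),
    ev_poly 34 1 (show (0 : ℝ) < 1 / 25 by norm_num),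
    ev_poly (768 * 17 ^ 3) 3 (show (0 : ℝ) < 1 / 2 by norm_num),
    ev_poly (32 * ((s + 1) * (m + 2) ^ s * (2 ^ s * 2 ^ s ^ 2))) (2 * s) η0,
    ev_poly (32 * 289 * 3 * (m * ((σ + 1) * (m + 2) ^ σ) ^ 2 + 2)) (2 * σ + 3) η0,
    ev_poly (2 / (1 - exp (-η))) 0 (show (0 : ℝ) < 1 / 3 by norm_num)]
    with q e1 e2 e4 e5 e6 e8 N n W cu hn hn'
  have q3 : 3 ≤ q := by omega
  have q0 : (3 : ℝ) ≤ q := by exact_mod_cast q3
  have qp : (0 : ℝ) < q := by linarith
  have L1 := mul_le_mul_of_nonneg_right log_two_gt_d9.le qp.le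
  have L2 := mul_le_mul_of_nonneg_right log_two_lt_d9.le qp.le
  have zq : (2 : ℝ) ^ (q / 2 : ℝ) = exp (log 2 * (q / 2)) := rpow_def_of_pos two_pos _
  have z1 : exp (1 / 3 * q) ≤ (2 : ℝ) ^ (q / 2 : ℝ) := by
    rw [zq, exp_le_exp]
    linarith
  have z2 : (2 : ℝ) ^ (q / 2 : ℝ) ≤ exp (7 / 20 * q) := by
    rw [zq, exp_le_exp]
    linarith
  have z3 : ((2 : ℝ) ^ (q / 2 : ℝ)) ^ 2 = 2 ^ q := by
    rw [← rpow_natCast, ← rpow_mul two_pos.le, ← rpow_natCast]
    congr 1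
    ring
  have n1 : q * (2 : ℝ) ^ (q / 2 : ℝ) ≤ 2 * n := by
    have a : (1.4 : ℝ) ≤ √2 := le_sqrt_of_sq_le (by norm_num)
    have b : 1 / 2 ≤ √2 / exp 1 := by
      rw [le_div_iff₀ (exp_pos 1)]
      linarith [exp_one_lt_d9]
    have c : 1 / 2 * 1 * (q * (2 : ℝ) ^ (q / 2 : ℝ)) ≤
        √2 / exp 1 * exp (3 * η) * (q * 2 ^ (q / 2 : ℝ)) := by
      gcongr
      exact one_le_exp (by positivity)
    linarith
  rw [pow_one] at e2
  rw [pow_zero, mul_one] at e8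
  have e9 : 34 * (q : ℝ) ≤ 2 ^ (q / 2 : ℝ) := e2.trans ((exp_le_exp.2 (by linarith)).trans z1)
  have hM : 12 * q ^ 2 ≤ n := by
    rw [← Nat.cast_le (α := ℝ)]
    push_cast
    linarith [mul_le_mul_of_nonneg_left e9 qp.le, sq_nonneg (q : ℝ)]
  have h2q : 2 * q ≤ n := by linarith [Nat.le_self_pow two_ne_zero q]
  have n0 : (0 : ℝ) < n := by exact_mod_cast (show 0 < n by omega)
  have bl := b_low (η := η) (by omega) (show q ≤ n by omega) (by
    rw [div_le_iff₀ η2] at e8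
    linarith [mul_le_mul_of_nonneg_left (e8.trans (mul_le_mul_of_nonneg_right z1 η2.le)) qp.le,
      mul_le_mul_of_nonneg_right n1 η2.le]) hn
  have bu := b_up (n := n) (show 0 < q by omega) hn'
  have y1 : 34 * q * (2 : ℝ) ^ (-(q / 4) : ℝ) ≤ exp (-(q / 8)) := by
    refine (mul_le_mul_of_nonneg_right e2 (by positivity)).trans ?_
    rw [rpow_def_of_pos two_pos, ← exp_add, exp_le_exp]
    linarith
  have g1 : ∀ j, 2 * j ≤ q → gw n q j ≤ n.choose q * (1 / 2) ^ q.choose 2 * exp (-(q / 8)) ^ j :=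
    fun j hj => gw_low h2q (by omega) hj (le_trans (by
      rw [show (-(q / 4) : ℝ) = q / 4 - q / 2 by ring, rpow_sub two_pos, mul_div_assoc',
        le_div_iff₀ (by positivity), mul_right_comm, div_mul_eq_mul_div]
      gcongr
      rw [div_le_iff₀ n0]
      linarith [mul_le_mul_of_nonneg_left n1 qp.le, mul_le_mul_of_nonneg_left q0 n0.le,
        mul_le_mul_of_nonneg_right q0 (mul_pos qp n0).le]) y1)
  have g2 : ∀ j ≤ q, q ≤ 2 * j → gw n q j ≤ exp (-(q / 8)) ^ (q - j) :=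
    fun j hj hj' => gw_high hj hj' (le_trans ((mul_le_mul_of_nonneg_right hn'
      (by positivity)).trans_eq (by
        rw [mul_assoc, ← rpow_add two_pos, show (q / 2 + (1 - 3 * q / 4) : ℝ) = 1 + -(q / 4) by ring,
          rpow_add two_pos, rpow_one]
        ring)) y1)
  have g3 : ∀ τ j, τ ≤ j → j ≤ s → gw n q j ≤ n.choose q * (1 / 2) ^ q.choose 2 *
      ((2 * q) ^ s * 2 ^ s ^ 2 / n ^ τ) := fun τ j a b =>
    gw_small h2q (by omega) a b (show s ≤ q by omega)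
  obtain ⟨b, hb⟩ : ∃ b : ℝ, b = n.choose q * (1 / 2) ^ q.choose 2 := ⟨_, rfl⟩
  rw [← hb] at bl bu g1 g3
  have u1 : (m + 1) * q + 1 ≤ (m + 2) * q := by linarith
  have m0 : (0 : ℝ) < m := by linarith
  have σ1 : exp (2 / m * q) ≤ exp (η * q) := by
    gcongr
    rw [div_le_iff₀ m0]
    linarith
  have ηq := mul_le_mul_of_nonneg_right η1 qp.le
  have p0 : 32 * (exp (2 / m * q) * (((s + 1) * ((m + 1) * q + 1) ^ s : ℕ) *
      ((2 * q) ^ s * 2 ^ s ^ 2))) ≤ exp (2 * η * q) :=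
    calc _ ≤ 32 * (exp (η * q) * (((s + 1) * ((m + 2) * q) ^ s : ℕ) *
          ((2 * q) ^ s * 2 ^ s ^ 2))) := by gcongr
      _ = exp (η * q) * (32 * ((s + 1) * (m + 2) ^ s * (2 ^ s * 2 ^ s ^ 2)) * q ^ (2 * s)) := by
          push_cast
          rw [mul_pow, mul_pow, two_mul s, pow_add]
          ring
      _ ≤ exp (η * q) * exp (η * q) := by gcongr
      _ = _ := by rw [← exp_add]; congr 1; ring
  have p1 := p0.trans (show _ ≤ (n : ℝ) by
    linarith [mul_le_mul_of_nonneg_right q0 ((exp_pos _).le.trans z1), exp_pos (1 / 3 * q),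
      exp_le_exp.2 (show 2 * η * q ≤ 1 / 3 * q by linarith)])
  have p2 : 32 * n ^ 2 * (exp (2 / m * q) *
      ((m * ((σ + 1) * ((m + 1) * q + 1) ^ σ) ^ 2 : ℕ) + 2)) ≤ b := by
    refine le_of_mul_le_mul_left (le_trans ?_ bl) (by positivity)
    calc _ ≤ 3 * q * (32 * (17 * q * (2 : ℝ) ^ (q / 2 : ℝ)) ^ 2 * (exp (η * q) *
          ((m * ((σ + 1) * ((m + 2) * q) ^ σ) ^ 2 : ℕ) + 2 * q ^ (2 * σ)))) := by
          gcongr
          · linarith [exp_one_lt_d9]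
          · exact le_mul_of_one_le_right two_pos.le (one_le_pow₀ (by linarith))
      _ = 2 ^ q * (exp (η * q) *
          (32 * 289 * 3 * (m * ((σ + 1) * (m + 2) ^ σ) ^ 2 + 2) * q ^ (2 * σ + 3))) := by
          rw [mul_pow, z3]
          push_cast
          rw [mul_pow ((m : ℝ) + 2), pow_add, pow_mul']
          ring
      _ ≤ 2 ^ q * (exp (η * q) * exp (η * q)) := by gcongr
      _ = _ := by rw [← exp_add]; congr 2; ring
  have b1 : 1 ≤ b := by
    refine le_trans ?_ p2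
    have n1 : (1 : ℝ) ≤ n := by exact_mod_cast (show 1 ≤ n by omega)
    refine one_le_mul_of_one_le_of_one_le (by linarith [one_le_pow₀ (n := 2) n1]) (one_le_mul_of_one_le_of_one_le
      (one_le_exp (by positivity)) (le_trans one_le_two (le_add_of_nonneg_left (by positivity))))
  have b0 : 0 < b := by linarith
  have v1 : (2 : ℝ) ^ ((m + 1) * q) ≤ exp ((m + 1) * q) := by
    rw [show ((m : ℝ) + 1) * q = ((m + 1) * q : ℕ) by push_cast; ring, ← exp_one_pow]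
    gcongr
    linarith [exp_one_gt_d9]
  have v2 : ((2 : ℝ) ^ ((m + 1) * q) * b) ^ (m + 1) ≤ exp (s₁ / 8 * q) :=
    calc _ ≤ (exp ((m + 1) * q) * exp (5 * q)) ^ (m + 1) := by gcongr
      _ = _ := by
          rw [← exp_add, ← exp_nat_mul, hs₁]
          congr 1
          push_cast
          ring
  have loc : ∀ τ ≤ 3, ∀ T : Finset (Fin N), T.card = τ → Lk (Fm W q T) m ∅ wt ≤
      (((s + 1) * ((m + 1) * q + 1) ^ s : ℕ) * (b * ((2 * q) ^ s * 2 ^ s ^ 2 / n ^ τ)) +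
      (m * ((σ + 1) * ((m + 1) * q + 1) ^ σ) ^ 2 : ℕ) + 2) ^ m := fun τ hτ T hT => by
    have := local_moment (W := W) (p := q) hT (m := m) (s := s) (s₁ := s₁)
      (u := (m + 1) * q) (σ := σ) (ξ := (1 / 2) ^ (2 * (q * s₁)))
      (by linarith [show m * s + 3 ≤ q by omega]) hσ.ge b1
      (exp_pos _).le (exp_le_one_iff.2 (by linarith)) (by positivity) (by positivity)
      (cu.symm ▸ g1) (cu.symm ▸ g2) (cu.symm ▸ g3 τ) (by omega) (by omega) (fun d hd => ?_) ?_ ?_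
      le_rfl m ∅ T ∅ ⟨by simp, by simp, by simp⟩ (Subset.refl _) (by simp) (by omega)
    · simpa [wt, cu] using this
    · refine pow_le_pow_of_le_one (by norm_num) (by norm_num) ?_
      have a : q ≤ 2 * (q - s₁ - (m * s + 3)) := by omega
      rw [show s - s₁ = 8 * s₁ by omega] at hd
      linarith [Nat.mul_le_mul_right s₁ a]
    · calc _ = ((2 : ℝ) ^ ((m + 1) * q) * b) ^ (m + 1) * exp (-(q / 8)) ^ s₁ := by ring
        _ ≤ exp (s₁ / 8 * q) * exp (-(q / 8)) ^ s₁ := by gcongr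
        _ = 1 := by rw [← exp_nat_mul, ← exp_add, ← exp_zero]; congr 1; ring
    · have a1 : (s₁ : ℝ) + 1 ≤ exp q :=
        le_trans (by gcongr; omega) (add_one_le_exp _)
      have a2 : (n : ℝ) + 1 ≤ exp q :=
        calc _ ≤ 34 * q * (2 : ℝ) ^ (q / 2 : ℝ) := by
              linarith [mul_le_mul_of_nonneg_right q0 ((exp_pos _).le.trans z1)]
          _ ≤ exp (1 / 25 * q) * exp (7 / 20 * q) := by gcongr
          _ ≤ _ := by rw [← exp_add, exp_le_exp]; linarith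
      have a3 : (1 / 2 : ℝ) ^ (2 * (q * s₁)) ≤ exp (-(4 / 3)) ^ (q * s₁) := by
        rw [pow_mul]
        gcongr
        rw [← log_le_iff_le_exp (by norm_num), log_pow, one_div, log_inv]
        push_cast
        linarith [log_two_gt_d9]
      have a4 : (8 : ℝ) ≤ s₁ := by
        exact_mod_cast hs₁ ▸ Nat.le_mul_of_pos_right 8 (by positivity)
      rw [cu]
      push_cast
      calc _ ≤ 2 ^ ((m + 1) * q) * b * (exp q * exp q ^ s₁) * exp (-(4 / 3)) ^ (q * s₁) *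
            (2 ^ ((m + 1) * q) * b) ^ m := by
            gcongr
            exact le_mul_of_one_le_right (by positivity) b1
        _ = ((2 : ℝ) ^ ((m + 1) * q) * b) ^ (m + 1) *
            (exp q * exp q ^ s₁ * exp (-(4 / 3)) ^ (q * s₁)) := by ring
        _ ≤ exp (s₁ / 8 * q) * (exp q * exp q ^ s₁ * exp (-(4 / 3)) ^ (q * s₁)) := by gcongr
        _ ≤ 1 := by
            rw [← exp_nat_mul, ← exp_nat_mul, ← exp_add, ← exp_add, ← exp_add, exp_le_one_iff]
            push_cast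
            linarith [mul_le_mul_of_nonneg_left a4 qp.le]
  refine ⟨m, b, _, _, exp (2 / m * q), hM, by rintro rfl; simp at m0, hb, by positivity,
    by positivity, (exp_pos _).le, loc 3 le_rfl, loc 2 (by norm_num), ?_, ?_, ?_, ?_⟩
  · refine (second (W := W) b1 (exp_pos _).le (cu.symm ▸ hb) (cu.symm ▸ g1)
      (cu.symm ▸ g2)).trans ?_
    have a : (1 + exp (-(q / 8))) ^ q ≤ 3 :=
      calc _ ≤ exp (exp (-(q / 8))) ^ q := by
            gcongr
            linarith [add_one_le_exp (exp (-(q / 8 : ℝ)))]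
        _ ≤ exp 1 := by
            rw [← exp_nat_mul, exp_le_exp, exp_neg, ← div_eq_mul_inv, div_le_one (exp_pos _)]
            exact le_trans (by linarith) (e2.trans (exp_le_exp.2 (by linarith)))
        _ ≤ 3 := by linarith [exp_one_lt_d9]
    linarith [mul_le_mul_of_nonneg_left a (mul_pos b0 b0).le]
  · calc _ ≤ 768 * (17 * q * exp (7 / 20 * q)) ^ 3 := by
          gcongr
          exact hn'.trans (by gcongr)
      _ = 768 * 17 ^ 3 * q ^ 3 * exp (7 / 20 * q) ^ 3 := by ring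
      _ ≤ exp (1 / 2 * q) * exp (7 / 20 * q) ^ 3 := by gcongr
      _ ≤ _ := by
          rw [← exp_nat_mul, ← exp_nat_mul, ← exp_add, exp_le_exp, ← mul_assoc (m : ℝ),
            mul_div_cancel₀ _ m0.ne']
          push_cast
          linarith
  · have a := mul_le_mul_of_nonneg_right p1 (show 0 ≤ b / (2 * n) by positivity)
    rw [show n * (b / (2 * n)) = b / 2 by field_simp] at a
    refine le_trans (le_of_eq ?_) ((add_le_add a (div_le_div_of_nonneg_right p2 two_pos.le)).trans_eq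
      (add_halves b))
    field_simp
    ring
  · have a := mul_le_mul_of_nonneg_right p0 b0.le
    have c := le_mul_of_one_le_left b0.le (one_le_exp (show 0 ≤ 2 * η * q by positivity))
    have d : n ^ 2 * (b * ((2 * q) ^ s * 2 ^ s ^ 2 / n ^ 2)) = b * ((2 * q) ^ s * 2 ^ s ^ 2) := by
      field_simp
    generalize (b * ((2 * q) ^ s * 2 ^ s ^ 2 / n ^ 2) : ℝ) = x at d ⊢
    generalize ((2 * q) ^ s * 2 ^ s ^ 2 : ℝ) = y at a d
    generalize (((s + 1) * ((m + 1) * q + 1) ^ s : ℕ) : ℝ) = z at a ⊢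
    have := congrArg (exp (2 / m * q) * z * ·) d
    linarith

end Pool.Agent.Lib.MP_e78360_co
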