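import Pool.Agent.Lib.MP_e78360_co.SCnt
import Pool.Agent.Lib.MP_4a944d_co.HStage

/-! Reserved pairs: a clique that is almost lost contains few reserved edges. -/

set_option autoImplicit false

noncomputable section

namespace Pool.Agent.Lib.MP_e78360_co

open Finset Pool.Agent.Lib.MP_4a944d_co Pool.Agent.Lib.MP_4a944d_co.Hc
open scoped Classical

/-- A clique `B` with two reserved edges `e`, `f` and a time stamp. -/
structure Rec (V : Type*) where
  t : ℕ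
  B : Finset V
  e : V × V
  f : V × V

variable {V : Type*} [LinearOrder V]

/-- The reserved edges. -/
def PE (𝒬 : Finset (Rec V)) : Finset (V × V) := 𝒬.image (·.e) ∪ 𝒬.image (·.f)

lemma mem_PE {𝒬 : Finset (Rec V)} {x : V × V} : x ∈ PE 𝒬 ↔ ∃ π ∈ 𝒬, π.e = x ∨ π.f = x := by
  simp only [PE, mem_union, mem_image, and_or_left, exists_or]

structure Good (r l : ℕ) (S : Finset (V × V)) (𝒬 : Finset (Rec V)) : Prop where
  card : ∀ π ∈ 𝒬, π.B.card = r
  me : ∀ π ∈ 𝒬, π.e ∈ Ed π.B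
  mf : ∀ π ∈ 𝒬, π.f ∈ Ed π.B
  miss : ∀ π ∈ 𝒬, (Ed π.B \ S).card ≤ l
  lt : ∀ π ∈ 𝒬, π.t < 𝒬.card
  ord : ∀ π ∈ 𝒬, ∀ π' ∈ 𝒬, π ≠ π' → π.t ≤ π'.t → ¬ (π.e ∈ Ed π'.B ∧ π.f ∈ Ed π'.B)
  ne : ∀ π ∈ 𝒬, π.e ≠ π.f
  dis : ∀ π ∈ 𝒬, ∀ π' ∈ 𝒬, π ≠ π' → π.e ≠ π'.e ∧ π.e ≠ π'.f ∧ π.f ≠ π'.f

/-- Families of cliques around `A` with small overlaps. -/
def Star (r s : ℕ) (A : Finset V) (𝒟 : Finset (Finset V)) : Prop :=
  (∀ D ∈ 𝒟, D.card = r ∧ 2 ≤ (D ∩ A).card ∧ 3 * (D ∩ A).card ≤ 2 * r) ∧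
    ∀ D ∈ 𝒟, ∀ D' ∈ 𝒟, D ≠ D' → (D ∩ D').card ≤ s

/-- The three configurations that the opponent does not come close to. -/
structure Safe (r s l k i₀ c : ℕ) (S : Finset (V × V)) : Prop where
  mid : ∀ B B' : Finset V, B.card = r → B'.card = r → s < (B ∩ B').card → (B ∩ B').card + s < r →
    2 * l < ((Ed B ∪ Ed B') \ S).card
  two : ∀ (B : Finset V) (x y : V), B.card = r → x ∉ B → y ∉ B → x ≠ y →
    3 * l + 2 * s < ((Ed (insert x B) ∪ Ed (insert y B)) \ S).card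
  star : ∀ (A : Finset V) (𝒟 : Finset (Finset V)), A.card = r → Star r s A 𝒟 → k ≤ 𝒟.card →
    𝒟.card ≤ i₀ → c * 𝒟.card < ((Ed A ∪ 𝒟.biUnion Ed) \ S).card

variable {r s l k i₀ c : ℕ} {S : Finset (V × V)} {𝒬 : Finset (Rec V)}

lemma Good.inj (h : Good r l S 𝒬) : Set.InjOn Rec.B (𝒬 : Set (Rec V)) := fun π a π' b e => by
  by_contra n
  rcases le_total π.t π'.t with c | c
  · exact h.ord π a π' b n c ⟨e ▸ h.me π a, e ▸ h.mf π a⟩
  · exact h.ord π' b π a (Ne.symm n) c ⟨e ▸ h.me π' b, e ▸ h.mf π' b⟩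

lemma Good.five (h : Good r l S 𝒬) {W : Finset V} (hW : W.card = r + 1) :
    ((𝒬.image Rec.B).filter (· ⊆ W)).card ≤ 5 := by
  rcases (𝒬.filter (·.B ⊆ W)).eq_empty_or_nonempty with e | e
  · refine le_trans (card_eq_zero.2 (filter_eq_empty_iff.2 fun B hB c => ?_)).le (by norm_num)
    obtain ⟨π, a, rfl⟩ := mem_image.1 hB
    exact filter_eq_empty_iff.1 e a c
  obtain ⟨π₀, a₀, m⟩ := exists_min_image _ Rec.t e
  obtain ⟨a₀, b₀⟩ := mem_filter.1 a₀
  refine (card_le_card (t := insert π₀.B (({π₀.e.1, π₀.e.2, π₀.f.1, π₀.f.2} : Finset V).image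
    W.erase)) fun B hB => ?_).trans ((card_insert_le _ _).trans
      (Nat.succ_le_succ (card_image_le.trans card_le_four)))
  obtain ⟨a', b⟩ := mem_filter.1 hB
  obtain ⟨π, a, rfl⟩ := mem_image.1 a'
  refine mem_insert.2 (or_iff_not_imp_left.2 fun n => ?_)
  have o := h.ord π₀ a₀ π a (fun e => n (e ▸ rfl)) (m π (mem_filter.2 ⟨a, b⟩))
  have u := mem_Ed.1 (h.me π₀ a₀)
  have v := mem_Ed.1 (h.mf π₀ a₀)
  obtain ⟨z, z1, z2, z3⟩ : ∃ z ∈ ({π₀.e.1, π₀.e.2, π₀.f.1, π₀.f.2} : Finset V), z ∈ π₀.B ∧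
      z ∉ π.B := by
    by_contra! c
    exact o ⟨mem_Ed.2 ⟨c _ (by simp) u.1, c _ (by simp) u.2.1, u.2.2⟩,
      mem_Ed.2 ⟨c _ (by simp) v.1, c _ (by simp) v.2.1, v.2.2⟩⟩
  refine mem_image.2 ⟨z, z1, (eq_of_subset_of_card_le (subset_erase.2 ⟨b, z3⟩) ?_).symm⟩
  rw [card_erase_of_mem (b₀ z2), hW, h.card π a]
  rfl

lemma Ed_insert_sub {B B' : Finset V} {x : V} (hx : x ∈ B') :
    Ed (insert x B) ⊆ Ed B ∪ (Ed B' ∪ (B \ B').image (pr x)) := by
  rintro ⟨a, b⟩ he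
  obtain ⟨u, v, w⟩ : a ∈ insert x B ∧ b ∈ insert x B ∧ a < b := mem_Ed.1 he
  simp only [mem_union, mem_Ed, mem_image, mem_sdiff]
  rcases mem_insert.1 u with u | u <;> rcases mem_insert.1 v with v | v
  · exact absurd (u.trans v.symm) w.ne
  · by_cases c : b ∈ B'
    · exact .inr (.inl ⟨u ▸ hx, c, w⟩)
    · exact .inr (.inr ⟨b, ⟨v, c⟩, u ▸ pr_lt w⟩)
  · by_cases c : a ∈ B'
    · exact .inr (.inl ⟨c, v ▸ hx, w⟩)
    · exact .inr (.inr ⟨a, ⟨u, c⟩, v ▸ pr_gt w⟩)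
  · exact .inl ⟨u, v, w⟩

lemma miss_union (A B S : Finset (V × V)) : ((A ∪ B) \ S).card ≤ (A \ S).card + (B \ S).card := by
  rw [union_sdiff_distrib]
  exact card_union_le _ _

lemma Good.close (h : Good r l S 𝒬) (hS : Safe r s l k i₀ c S) {B : Finset V}
    (hB : B ∈ 𝒬.image Rec.B) : ((𝒬.image Rec.B).filter fun B' => s < (B ∩ B').card).card ≤ 5 := by
  have P : ∀ B ∈ 𝒬.image Rec.B, B.card = r ∧ (Ed B \ S).card ≤ l := fun B hB => by
    obtain ⟨π, a, rfl⟩ := mem_image.1 hB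
    exact ⟨h.card π a, h.miss π a⟩
  have near : ∀ B' ∈ (𝒬.image Rec.B).filter fun B' => s < (B ∩ B').card, ∀ x,
      ((Ed B' ∪ (B \ B').image (pr x)) \ S).card ≤ l + s := fun B' hB' x => by
    obtain ⟨a, b⟩ := mem_filter.1 hB'
    have c1 := miss_union (Ed B) (Ed B') S
    have c2 := mt (hS.mid B B' (P B hB).1 (P B' a).1 b) (by linarith [(P B hB).2, (P B' a).2])
    have c3 := card_sdiff_add_card_inter B B'
    have c4 := miss_union (Ed B') ((B \ B').image (pr x)) S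
    have c5 := (card_le_card (sdiff_subset (t := S))).trans (card_image_le (s := B \ B') (f := pr x))
    linarith [(P B hB).1, (P B' a).2]
  by_cases e : ∀ B' ∈ (𝒬.image Rec.B).filter fun B' => s < (B ∩ B').card, B' ⊆ B
  · refine le_trans (card_le_one.2 fun B₁ a B₂ b => ?_) (by norm_num)
    have q : ∀ B' ∈ (𝒬.image Rec.B).filter fun B' => s < (B ∩ B').card, B' = B := fun B' a =>
      eq_of_subset_of_card_le (e B' a) (by rw [(P B hB).1, (P B' (mem_filter.1 a).1).1])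
    rw [q B₁ a, q B₂ b]
  simp only [not_forall, not_subset] at e
  obtain ⟨B', hB', x, x1, x2⟩ := e
  refine le_trans (card_le_card fun B'' hB'' => mem_filter.2 ⟨(mem_filter.1 hB'').1, fun y y1 => ?_⟩)
    (h.five (W := insert x B) (by rw [card_insert_of_notMem x2, (P B hB).1]))
  by_contra n
  rw [mem_insert, not_or] at n
  have c1 := hS.two B x y (P B hB).1 x2 n.2 (Ne.symm n.1)
  have c2 : Ed (insert x B) ∪ Ed (insert y B) ⊆ Ed B ∪ ((Ed B' ∪ (B \ B').image (pr x)) ∪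
      (Ed B'' ∪ (B \ B'').image (pr y))) := union_subset
    ((Ed_insert_sub x1).trans (union_subset_union_right subset_union_left))
    ((Ed_insert_sub y1).trans (union_subset_union_right subset_union_right))
  have c3 := (card_le_card (sdiff_subset_sdiff c2 (Subset.refl S))).trans ((miss_union _ _ _).trans
    (Nat.add_le_add_left (miss_union _ _ _) _))
  linarith [(P B hB).2, near B' hB' x, near B'' hB'' y]

lemma pick {α : Type*} {R : α → α → Prop} [DecidableRel R] (hR : ∀ a b, R a b → R b a) :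
    ∀ (i : ℕ) (T : Finset α), (∀ a ∈ T, R a a ∧ (T.filter (R a)).card ≤ 5) → 5 * i ≤ T.card →
      ∃ D ⊆ T, D.card = i ∧ ∀ a ∈ D, ∀ b ∈ D, a ≠ b → ¬ R a b
  | 0, _, _, _ => ⟨∅, empty_subset _, rfl, by simp⟩
  | i + 1, T, h, hT => by
    obtain ⟨a, ha⟩ := card_pos.1 (show 0 < T.card by omega)
    have c := card_filter_add_card_filter_not (s := T) (R a)
    obtain ⟨D, d1, d2, d3⟩ := pick hR i (T.filter (¬ R a ·)) (fun b hb => ⟨(h b (mem_filter.1 hb).1).1,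
      (card_le_card (filter_subset_filter _ (filter_subset _ _))).trans (h b (mem_filter.1 hb).1).2⟩)
      (by have := (h a ha).2; omega)
    have n : ∀ b ∈ D, ¬ R a b := fun b hb => (mem_filter.1 (d1 hb)).2
    refine ⟨insert a D, insert_subset ha (d1.trans (filter_subset _ _)),
      by rw [card_insert_of_notMem fun m => n a m (h a ha).1, d2], fun x hx y hy xy => ?_⟩
    rcases mem_insert.1 hx with u | u <;> rcases mem_insert.1 hy with v | v
    · exact absurd (u.trans v.symm) xy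
    · exact u ▸ n y v
    · exact fun c => n x u (hR _ _ (v ▸ c))
    · exact d3 x u y v xy

theorem Good.few (h : Good r l S 𝒬) (hS : Safe r s l k i₀ c S) {M l₀ : ℕ} (hs : 3 * s < r)
    (hM : 20 ≤ M) (hk : 1 ≤ k) (hi : r ^ 2 / M ≤ i₀) (hc : l + l₀ + 2 * M ≤ c) {A : Finset V}
    (hA : A.card = r) (h0 : (Ed A \ (S ∪ PE 𝒬)).card ≤ l₀) : (Ed A ∩ PE 𝒬).card ≤ M * k := by
  by_contra! n
  set j := (Ed A ∩ PE 𝒬).card with hj
  set 𝔓 := 𝒬.filter fun π => π.e ∈ Ed A ∨ π.f ∈ Ed A with h𝔓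
  have j1 : j ≤ 𝔓.card + 𝔓.card := by
    refine (card_le_card (t := PE 𝔓) fun x hx => ?_).trans ((card_union_le _ _).trans
      (add_le_add card_image_le card_image_le))
    obtain ⟨π, a, b⟩ := mem_PE.1 (mem_inter.1 hx).2
    exact mem_PE.2 ⟨π, mem_filter.2 ⟨a, b.imp (fun c => by rw [c]; exact (mem_inter.1 hx).1)
      fun c => by rw [c]; exact (mem_inter.1 hx).1⟩, b⟩
  have j2 : j ≤ r ^ 2 := (card_le_card inter_subset_left).trans
    (by rw [card_Ed, hA]; exact Nat.choose_le_pow _ _)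
  have j3 : k ≤ j / M := (Nat.le_div_iff_mul_le (by omega)).2 (by linarith)
  have j4 := Nat.mul_div_le j M
  have j5 := Nat.lt_mul_div_succ j (show 0 < M by omega)
  have sub : 𝔓.image Rec.B ⊆ 𝒬.image Rec.B := image_subset_image (filter_subset _ _)
  have cB : (𝔓.image Rec.B).card = 𝔓.card :=
    card_image_of_injOn (h.inj.mono (coe_subset.2 (filter_subset _ _)))
  have P : ∀ B ∈ 𝔓.image Rec.B, B.card = r ∧ (Ed B \ S).card ≤ l ∧ 2 ≤ (B ∩ A).card := fun B hB => by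
    obtain ⟨π, a, rfl⟩ := mem_image.1 hB
    obtain ⟨a, b⟩ := mem_filter.1 a
    refine ⟨h.card π a, h.miss π a, ?_⟩
    obtain ⟨x, u, v⟩ : ∃ x, x ∈ Ed π.B ∧ x ∈ Ed A :=
      b.elim (fun b => ⟨_, h.me π a, b⟩) fun b => ⟨_, h.mf π a, b⟩
    rw [mem_Ed] at u v
    exact one_lt_card.2 ⟨x.1, mem_inter.2 ⟨u.1, v.1⟩, x.2, mem_inter.2 ⟨u.2.1, v.2.1⟩, u.2.2.ne⟩
  have big : ((𝔓.image Rec.B).filter fun B => ¬ 3 * (B ∩ A).card ≤ 2 * r).card ≤ 5 := by
    rcases ((𝔓.image Rec.B).filter fun B => ¬ 3 * (B ∩ A).card ≤ 2 * r).eq_empty_or_nonempty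
      with e | ⟨B, hB⟩
    · rw [e]
      exact Nat.zero_le _
    refine le_trans (card_le_card fun B' hB' => mem_filter.2 ⟨sub (mem_filter.1 hB').1, ?_⟩)
      (h.close hS (sub (mem_filter.1 hB).1))
    have c1 := card_union_add_card_inter (B ∩ A) (B' ∩ A)
    have c2 := card_le_card (union_subset (inter_subset_right (s₁ := B) (s₂ := A))
      (inter_subset_right (s₁ := B') (s₂ := A)))
    have c3 := card_le_card (inter_subset_inter (inter_subset_left (s₁ := B) (s₂ := A))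
      (inter_subset_left (s₁ := B') (s₂ := A)))
    have c4 := (mem_filter.1 hB).2
    have c5 := (mem_filter.1 hB').2
    omega
  have c0 := card_filter_add_card_filter_not (s := 𝔓.image Rec.B)
    fun B => 3 * (B ∩ A).card ≤ 2 * r
  obtain ⟨𝒟, d1, d2, d3⟩ := pick (R := fun B B' : Finset V => s < (B ∩ B').card)
    (fun a b c => inter_comm a b ▸ c) (j / M)
    ((𝔓.image Rec.B).filter fun B => 3 * (B ∩ A).card ≤ 2 * r) (fun B hB => ⟨by
      rw [inter_self, (P B (mem_filter.1 hB).1).1]; omega, le_trans (card_le_card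
        (filter_subset_filter _ ((filter_subset _ _).trans sub)))
        (h.close hS (sub (mem_filter.1 hB).1))⟩) (by nlinarith)
  have c1 := hS.star A 𝒟 hA ⟨fun D hD => ⟨(P D (mem_filter.1 (d1 hD)).1).1,
    (P D (mem_filter.1 (d1 hD)).1).2.2, (mem_filter.1 (d1 hD)).2⟩,
    fun D a D' b e => not_lt.1 (d3 D a D' b e)⟩ (d2 ▸ j3) (d2 ▸ (Nat.div_le_div_right j2).trans hi)
  have c2 := miss_union (Ed A) (𝒟.biUnion Ed) S
  have c3 : (Ed A \ S).card ≤ l₀ + j := by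
    refine le_trans (card_le_card (t := Ed A \ (S ∪ PE 𝒬) ∪ Ed A ∩ PE 𝒬) fun x hx => ?_)
      ((card_union_le _ _).trans (Nat.add_le_add_right h0 _))
    simp only [mem_union, mem_sdiff, mem_inter] at hx ⊢
    tauto
  have c4 : (𝒟.biUnion Ed \ S).card ≤ 𝒟.card * l := by
    refine le_trans (card_le_card (t := 𝒟.biUnion fun D => Ed D \ S) fun x hx => ?_)
      (card_biUnion_le_card_mul _ _ _ fun D hD => (P D (mem_filter.1 (d1 hD)).1).2.1)
    obtain ⟨D, a, b⟩ := mem_biUnion.1 (mem_sdiff.1 hx).1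
    exact mem_biUnion.2 ⟨D, a, mem_sdiff.2 ⟨b, (mem_sdiff.1 hx).2⟩⟩
  rw [d2] at c1 c4
  have j6 : 1 ≤ j / M := hk.trans j3
  nlinarith [Nat.mul_le_mul_right (j / M) hc, Nat.mul_le_mul_left l₀ j6, Nat.mul_le_mul_left M j6]

end Pool.Agent.Lib.MP_e78360_co
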