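import Pool.Agent.Lib.MP_e78360_co.PCla
import Pool.Agent.Lib.MP_e78360_co.FWin

/-! The game with reserved pairs. -/

set_option autoImplicit false

noncomputable section

namespace Pool.Agent.Lib.MP_e78360_co

open Finset Pool.Agent.Lib.MP_4a944d_co Pool.Agent.Lib.MP_4a944d_co.Hc
open scoped Classical

variable {V : Type*} [LinearOrder V]

def Prot (F : Finset (V × V)) (𝒬 : Finset (Rec V)) (A : Finset V) : Prop :=
  ¬ Disjoint (Ed A) F ∨ ∃ π ∈ 𝒬, π.e ∈ Ed A ∧ π.f ∈ Ed A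

/-- `F`, `S` are the edges taken outside the pairs, `G`, `T` all edges taken. -/
structure Pos (r l : ℕ) (F S G T : Finset (V × V)) (𝒬 : Finset (Rec V)) : Prop where
  good : Good r l S 𝒬
  upG : Up G
  upT : Up T
  dis : Disjoint G T
  f1 : F ⊆ G
  f2 : G ⊆ F ∪ PE 𝒬
  s1 : S ⊆ T
  s2 : T ⊆ S ∪ PE 𝒬
  pe : ∀ π ∈ 𝒬, (π.e ∈ T ↔ π.f ∈ G) ∧ (π.f ∈ T ↔ π.e ∈ G)

variable {r l : ℕ} {F S G T : Finset (V × V)} {𝒬 : Finset (Rec V)}

lemma Pos.free (h : Pos r l F S G T 𝒬) {x : V × V} (hx : Free F (S ∪ PE 𝒬) x) : Free G T x :=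
  ⟨hx.1, fun c => (mem_union.1 (h.f2 c)).elim hx.2.1 fun c => hx.2.2 (mem_union_right _ c),
    fun c => hx.2.2 (h.s2 c)⟩

lemma Pos.swap (h : Pos r l F S G T 𝒬) {a : V × V} (ha : a ∈ PE 𝒬) (hf : Free G T a) :
    ∃ b, Free G (insert a T) b ∧ Pos r l F S (insert b G) (insert a T) 𝒬 := by
  obtain ⟨π, hπ, e⟩ := mem_PE.1 ha
  have n := h.good.ne π hπ
  have p := h.pe π hπ
  obtain ⟨b, b1, b2, b3, b4⟩ : ∃ b, (π.e = a ∧ π.f = b ∨ π.f = a ∧ π.e = b) ∧ b.1 < b.2 ∧ b ∉ G ∧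
      b ∉ T := by
    rcases e with e | e
    · exact ⟨π.f, .inl ⟨e, rfl⟩, (mem_Ed.1 (h.good.mf π hπ)).2.2, fun c => hf.2.2 (e ▸ p.1.2 c),
        fun c => hf.2.1 (e ▸ p.2.1 c)⟩
    · exact ⟨π.e, .inr ⟨e, rfl⟩, (mem_Ed.1 (h.good.me π hπ)).2.2, fun c => hf.2.2 (e ▸ p.2.2 c),
        fun c => hf.2.1 (e ▸ p.1.1 c)⟩
  have ab : b ≠ a := by
    rcases b1 with ⟨rfl, rfl⟩ | ⟨rfl, rfl⟩
    exacts [n.symm, n]
  have hb : b ∈ PE 𝒬 := mem_PE.2 ⟨π, hπ, by tauto⟩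
  refine ⟨b, ⟨b2, b3, fun c => (mem_insert.1 c).elim ab b4⟩, h.good, h.upG.insert b2,
    h.upT.insert hf.1, ?_, h.f1.trans (subset_insert _ _),
    insert_subset (mem_union_right _ hb) h.f2, h.s1.trans (subset_insert _ _),
    insert_subset (mem_union_right _ ha) h.s2, fun π' hπ' => ?_⟩
  · rw [disjoint_insert_left, disjoint_insert_right, mem_insert, not_or]
    exact ⟨⟨ab, b4⟩, hf.2.1, h.dis⟩
  · simp only [mem_insert]
    by_cases c : π = π'
    · subst c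
      have := hf.2.1
      have := hf.2.2
      have := n.symm
      rcases b1 with ⟨rfl, rfl⟩ | ⟨rfl, rfl⟩ <;> simp [*]
    · obtain ⟨d1, d2, d3⟩ := h.good.dis π hπ π' hπ' c
      obtain ⟨d4, d5, d6⟩ := h.good.dis π' hπ' π hπ (Ne.symm c)
      have := d2.symm
      have := h.pe π' hπ'
      rcases b1 with ⟨rfl, rfl⟩ | ⟨rfl, rfl⟩ <;> simp [*]

lemma Pos.add (h : Pos r l F S G T 𝒬) {A : Finset V} {e f : V × V} (hA : A.card = r)
    (hp : ¬ Prot F 𝒬 A) (hm : (Ed A \ S).card ≤ l) (he : e ∈ Ed A \ (S ∪ PE 𝒬))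
    (hf : f ∈ Ed A \ (S ∪ PE 𝒬)) (ef : e ≠ f) : ∃ 𝒬', Pos r l F S G T 𝒬' ∧ 𝒬 ⊆ 𝒬' ∧
      𝒬'.card = 𝒬.card + 1 ∧ PE 𝒬' = insert e (insert f (PE 𝒬)) := by
  rw [Prot, not_or, not_not] at hp
  rw [mem_sdiff] at he hf
  have fe := h.free ⟨(mem_Ed.1 he.1).2.2, disjoint_left.1 hp.1 he.1, he.2⟩
  have ff := h.free ⟨(mem_Ed.1 hf.1).2.2, disjoint_left.1 hp.1 hf.1, hf.2⟩
  have n : (⟨𝒬.card, A, e, f⟩ : Rec V) ∉ 𝒬 := fun c => (h.good.lt _ c).ne rfl
  have eP : PE (insert ⟨𝒬.card, A, e, f⟩ 𝒬) = insert e (insert f (PE 𝒬)) := by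
    simp only [PE, image_insert, insert_union, union_insert]
    exact insert_comm _ _ _
  have sP : PE 𝒬 ⊆ PE (insert ⟨𝒬.card, A, e, f⟩ 𝒬) :=
    eP ▸ (subset_insert _ _).trans (subset_insert _ _)
  have m1 : ∀ π ∈ 𝒬, π.e ≠ e ∧ π.e ≠ f ∧ π.f ≠ e ∧ π.f ≠ f := fun π a =>
    ⟨fun c => he.2 (mem_union_right _ (mem_PE.2 ⟨π, a, .inl c⟩)),
      fun c => hf.2 (mem_union_right _ (mem_PE.2 ⟨π, a, .inl c⟩)),
      fun c => he.2 (mem_union_right _ (mem_PE.2 ⟨π, a, .inr c⟩)),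
      fun c => hf.2 (mem_union_right _ (mem_PE.2 ⟨π, a, .inr c⟩))⟩
  refine ⟨_, ⟨⟨forall_mem_insert _ _ _ |>.2 ⟨hA, h.good.card⟩,
    forall_mem_insert _ _ _ |>.2 ⟨he.1, h.good.me⟩, forall_mem_insert _ _ _ |>.2 ⟨hf.1, h.good.mf⟩,
    forall_mem_insert _ _ _ |>.2 ⟨hm, h.good.miss⟩, ?_, ?_,
    forall_mem_insert _ _ _ |>.2 ⟨ef, h.good.ne⟩, ?_⟩, h.upG, h.upT, h.dis, h.f1,
    h.f2.trans (union_subset_union_right sP), h.s1, h.s2.trans (union_subset_union_right sP),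
    forall_mem_insert _ _ _ |>.2 ⟨?_, h.pe⟩⟩, subset_insert _ _, card_insert_of_notMem n, eP⟩
  · rw [card_insert_of_notMem n]
    exact forall_mem_insert _ _ _ |>.2 ⟨Nat.lt_succ_self _, fun π a => (h.good.lt π a).trans
      (Nat.lt_succ_self _)⟩
  · intro π a π' b c d
    rcases mem_insert.1 a with rfl | a <;> rcases mem_insert.1 b with rfl | b
    · exact absurd rfl c
    · exact absurd d (h.good.lt π' b).not_ge
    · exact fun c => hp.2 ⟨π, a, c⟩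
    · exact h.good.ord π a π' b c d
  · intro π a π' b c
    rcases mem_insert.1 a with rfl | a <;> rcases mem_insert.1 b with rfl | b
    · exact absurd rfl c
    · exact ⟨(m1 π' b).1.symm, (m1 π' b).2.2.1.symm, (m1 π' b).2.2.2.symm⟩
    · exact ⟨(m1 π a).1, (m1 π a).2.1, (m1 π a).2.2.2⟩
    · exact h.good.dis π a π' b c
  · simp [fe.2.1, fe.2.2, ff.2.1, ff.2.2]

lemma Pos.notB (h : Pos r l F S G T 𝒬) {f : V × V} (hf : Free G T f)
    (hu : ∀ A : Finset V, A.card = r → ¬ Prot F 𝒬 A → 1 < (Ed A \ (S ∪ PE 𝒬)).card) :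
    ¬ ∃ Q, r ≤ Q.card ∧ Cl (insert f T) Q := by
  rintro ⟨Q, q1, q2⟩
  obtain ⟨A, s1, s2⟩ := exists_subset_card_eq q1
  have es : Ed A ⊆ insert f T := fun x hx =>
    q2 _ (s1 (mem_Ed.1 hx).1) _ (s1 (mem_Ed.1 hx).2.1) (mem_Ed.1 hx).2.2
  have nG : ∀ x ∈ Ed A, x ∉ G := fun x hx c => (mem_insert.1 (es hx)).elim
    (fun e => hf.2.1 (e ▸ c)) (disjoint_left.1 h.dis c)
  refine (hu A s2 ?_).not_ge ((card_le_card (t := {f}) fun x hx => ?_).trans (card_singleton f).le)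
  · rintro (c | ⟨π, a, b, c⟩)
    · exact c (disjoint_left.2 fun x hx c => nG x hx (h.f1 c))
    · rcases mem_insert.1 (es b) with u | u
      · rcases mem_insert.1 (es c) with v | v
        exacts [h.good.ne π a (u.trans v.symm), nG _ b ((h.pe π a).2.1 v)]
      · exact nG _ c ((h.pe π a).1.1 u)
  · exact mem_singleton.2 ((mem_insert.1 (es (mem_sdiff.1 hx).1)).resolve_right
      fun c => (mem_sdiff.1 hx).2 (h.s2 c))

variable [Fintype V]

lemma win_imag {A B : Finset (V × V) → Prop} (hB : ∀ S S', S ⊆ S' → B S → B S') :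
    ∀ (t : ℕ) (F S : Finset (V × V)) (g : V × V), Free F S g →
      F.card + S.card + 2 * t < (Fintype.card V).choose 2 → Win A B t F (insert g S) →
        Win A B t F S := by
  intro t
  induction t with
  | zero => exact fun _ _ _ _ _ h => h.elim
  | succ t ih =>
    rintro F S g hg hc ⟨e, he, h⟩
    refine ⟨e, ⟨he.1, he.2.1, fun c => he.2.2 (mem_insert_of_mem c)⟩, h.imp id fun h f hf => ?_⟩
    have eg : g ∉ insert e F := fun c =>
      (mem_insert.1 c).elim (fun c => he.2.2 (c ▸ mem_insert_self _ _)) hg.2.1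
    have c1 := card_insert_le e F
    have c2 := card_insert_le f S
    by_cases fg : f = g
    · subst fg
      obtain ⟨f', hf'⟩ := free_pair (F := insert e F) (S := insert f S) (by omega)
      exact ⟨fun c => (h f' hf').1 (hB _ _ (subset_insert _ _) c),
        ih _ _ f' hf' (by omega) (h f' hf').2⟩
    · have := h f ⟨hf.1, hf.2.1, fun c => (mem_insert.1 c).elim fg hf.2.2⟩
      rw [insert_comm] at this
      exact ⟨fun c => this.1 (hB _ _ (subset_insert _ _) c), ih _ _ g ⟨hg.1, eg, fun c =>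
        (mem_insert.1 c).elim (fun c => fg c.symm) hg.2.2⟩ (by omega) this.2⟩

lemma card_lt_of_free (hG : Up G) (hT : Up T) (hd : Disjoint G T) {x : V × V} (hx : Free G T x) :
    G.card + T.card < (Fintype.card V).choose 2 := by
  rw [← card_union_of_disjoint hd, ← card_univ, ← card_Ed]
  refine card_lt_card ⟨fun e he => mem_Ed.2 ⟨mem_univ _, mem_univ _,
    (mem_union.1 he).elim (hG e) (hT e)⟩, fun c => ?_⟩
  exact (mem_union.1 (c (mem_Ed.2 ⟨mem_univ _, mem_univ _, hx.1⟩))).elim hx.2.1 hx.2.2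

theorem pair_game {p k : ℕ} (Λ Ψ Ψ₁ : (Finset (V × V) → ℝ) →ₗ[ℝ] ℝ) {μ γ δ Lm : ℝ}
    {B₀ : Finset (V × V)}
    (hmax : ∀ X D, 0 ≤ Λ (nu X D) → Λ (nu X D) ≤ Lm ∧
      (∀ x y, x ≠ y → Λ (g2 x y X D) ≤ if x ∈ B₀ then γ else 0) ∧
      ∀ x y, Λ (nu X D) - δ ≤ Λ (nu X (insert x (insert y D))))
    (hend : ∀ X D, 0 < Λ (nu X D) → Ed univ ⊆ X ∪ D → Has p X) (hμ : Lm ≤ μ) (μ0 : 0 ≤ μ)
    (hγ : 0 ≤ γ) (hδ : 0 ≤ δ) (m0 : ∀ φ ψ, (∀ E, φ E ≤ ψ E) → Ψ φ ≤ Ψ ψ)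
    (m1 : ∀ φ ψ, (∀ E, φ E ≤ ψ E) → Ψ₁ φ ≤ Ψ₁ ψ)
    (h1 : ∀ F S 𝒬, Good r (2 * k + 2) S 𝒬 → Disjoint S F → 𝒬.card ≤ Ψ₁ (nu S F))
    (h0 : ∀ F S 𝒬, Good r (2 * k + 2) S 𝒬 → Disjoint S F → Ψ (nu S F) < 1 → ∀ A : Finset V,
      A.card = r → (Ed A \ (S ∪ PE 𝒬)).card ≤ k + 2 → (Ed A ∩ PE 𝒬).card ≤ k)
    (t : ℕ) (S : Finset (V × V)) (hS : Up S) (hc : S.card + 2 * t = (Fintype.card V).choose 2)
    (hr : k + 2 + S.card ≤ r.choose 2)
    (h : γ * B₀.card < Λ (nu ∅ S) - μ * Ψ (nu S ∅) - δ * Ψ₁ (nu S ∅)) :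
    Has p (∅ : Finset (V × V)) ∨ Win (Has p) (fun S => ∃ Q, r ≤ Q.card ∧ Cl S Q) t ∅ S := by
  set Φ : Finset (V × V) → Finset (V × V) → Finset (Rec V) → Prop := fun F S 𝒬 =>
    γ * (B₀ \ (F ∪ (S ∪ PE 𝒬))).card <
      Λ (nu F (S ∪ PE 𝒬)) - μ * Ψ (nu S F) - δ * Ψ₁ (nu S F) + δ * 𝒬.card with hΦ
  have bd : ∀ {F S G T 𝒬}, Pos r (2 * k + 2) F S G T 𝒬 → Φ F S 𝒬 →
      0 < Λ (nu F (S ∪ PE 𝒬)) ∧ Ψ (nu S F) < 1 := fun {F S G T 𝒬} h g => by
    have a := mul_le_mul_of_nonneg_left (h1 F S 𝒬 h.good (h.dis.symm.mono h.s1 h.f1)) hδ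
    have b := m0 0 (nu S F) fun _ => nu_nonneg
    rw [map_zero] at b
    have c := mul_nonneg hγ (Nat.cast_nonneg (B₀ \ (F ∪ (S ∪ PE 𝒬))).card)
    have d := mul_nonneg μ0 b
    have e : μ * Ψ (nu S F) < Λ (nu F (S ∪ PE 𝒬)) := by linarith
    exact ⟨by linarith, lt_of_mul_lt_mul_left (a := μ)
      (by linarith [(hmax F (S ∪ PE 𝒬) (by linarith)).1]) μ0⟩
  have cas : ∀ (n : ℕ) F S G T 𝒬, (Ed univ \ PE 𝒬).card < n → Pos r (2 * k + 2) F S G T 𝒬 →
      Φ F S 𝒬 → (∀ A : Finset V, A.card = r → ¬ Prot F 𝒬 A → k + 2 ≤ (Ed A \ S).card) →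
      ∃ 𝒬', Pos r (2 * k + 2) F S G T 𝒬' ∧ Φ F S 𝒬' ∧
        ∀ A : Finset V, A.card = r → ¬ Prot F 𝒬' A → k + 2 < (Ed A \ (S ∪ PE 𝒬')).card := by
    intro n
    induction n with
    | zero => exact fun _ _ _ _ _ h => absurd h (Nat.not_lt_zero _)
    | succ n ih =>
      intro F S G T 𝒬 hn h g u
      by_contra! c
      obtain ⟨A, a1, a2, a3⟩ := c 𝒬 h g
      have c1 := h0 F S 𝒬 h.good (h.dis.symm.mono h.s1 h.f1) (bd h g).2 A a1 a3
      have c2 : (Ed A \ S).card ≤ (Ed A \ (S ∪ PE 𝒬)).card + (Ed A ∩ PE 𝒬).card := by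
        refine (card_le_card fun x hx => ?_).trans (card_union_le _ _)
        simp only [mem_union, mem_sdiff, mem_inter] at hx ⊢
        tauto
      have c3 := u A a1 a2
      obtain ⟨e, he, f, hf, ef⟩ := one_lt_card.1 (show 1 < (Ed A \ (S ∪ PE 𝒬)).card by omega)
      obtain ⟨𝒬', p1, p2, p3, p4⟩ := h.add a1 a2 (by omega) he hf ef
      have sP : PE 𝒬 ⊆ PE 𝒬' := p4 ▸ (subset_insert _ _).trans (subset_insert _ _)
      obtain ⟨𝒬'', q1, q2, q3⟩ := ih F S G T 𝒬' (by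
        refine (card_lt_card ⟨sdiff_subset_sdiff (Subset.refl _) sP, fun c => ?_⟩).trans_le
          (Nat.lt_succ_iff.1 hn)
        exact (mem_sdiff.1 (c (mem_sdiff.2 ⟨Ed_mono (subset_univ A) (mem_sdiff.1 he).1, fun c =>
          (mem_sdiff.1 he).2 (mem_union_right _ c)⟩))).2 (p4 ▸ mem_insert_self _ _)) p1 (by
        have a := (hmax F (S ∪ PE 𝒬) (bd h g).1.le).2.2 e f
        have b : ((B₀ \ (F ∪ (S ∪ PE 𝒬'))).card : ℝ) ≤ (B₀ \ (F ∪ (S ∪ PE 𝒬))).card := by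
          gcongr
        have b := mul_le_mul_of_nonneg_left b hγ
        simp only [hΦ] at g ⊢
        rw [p3]
        nth_rewrite 2 [p4]
        rw [union_insert, union_insert]
        push_cast
        linarith) fun A a b => u A a fun c => b (c.imp id fun ⟨π, x, y⟩ => ⟨π, p2 x, y⟩)
      obtain ⟨A', b1, b2, b3⟩ := c 𝒬'' q1 q2
      exact (q3 A' b1 b2).not_ge b3
  set O : ℕ → Prop := fun t => ∀ F S G T 𝒬, Pos r (2 * k + 2) F S G T 𝒬 →
    (∀ y, Free F (S ∪ PE 𝒬) y → Φ F (insert y S) 𝒬) →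
    (∀ A : Finset V, A.card = r → ¬ Prot F 𝒬 A → k + 2 < (Ed A \ (S ∪ PE 𝒬)).card) →
    ¬ Has p G → G.card + T.card + 2 * t + 1 = (Fintype.card V).choose 2 → ∀ f, Free G T f →
      (¬ ∃ Q, r ≤ Q.card ∧ Cl (insert f T) Q) ∧
        Win (Has p) (fun S => ∃ Q, r ≤ Q.card ∧ Cl S Q) t G (insert f T) with hO
  have M : ∀ t, (∀ t', t = t' + 1 → O t') → ∀ F S G T 𝒬, Pos r (2 * k + 2) F S G T 𝒬 → Φ F S 𝒬 →
      (∀ A : Finset V, A.card = r → ¬ Prot F 𝒬 A → k + 2 ≤ (Ed A \ S).card) →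
      G.card + T.card + 2 * t = (Fintype.card V).choose 2 →
      Has p G ∨ Win (Has p) (fun S => ∃ Q, r ≤ Q.card ∧ Cl S Q) t G T := by
    intro t ho F S G T 𝒬₀ h g u hc
    obtain ⟨𝒬, h, g, u⟩ := cas _ F S G T 𝒬₀ (Nat.lt_succ_self _) h g u
    rcases (univ.filter (Free F (S ∪ PE 𝒬))).eq_empty_or_nonempty with e | e
    · obtain ⟨Q, q1, q2⟩ := hend F _ (bd h g).1 fun x hx => by
        by_contra n
        rw [mem_union, not_or] at n
        exact filter_eq_empty_iff.1 e (mem_univ x) ⟨(mem_Ed.1 hx).2.2, n⟩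
      exact .inl ⟨Q, q1, q2.mono h.f1⟩
    obtain ⟨x, hx, hm⟩ := exists_max_image _
      (fun x => Λ (gn x F (S ∪ PE 𝒬)) + μ * Ψ (gn x S F) + δ * Ψ₁ (gn x S F)) e
    have hx := (mem_filter.1 hx).2
    have fx := h.free hx
    have lt := card_lt_of_free h.upG h.upT h.dis fx
    obtain ⟨t, rfl⟩ : ∃ t', t = t' + 1 := ⟨t - 1, by omega⟩
    refine .inr ⟨x, fx, or_iff_not_imp_left.2 fun nA => ho t rfl (insert x F) S _ T 𝒬
      ⟨h.good, h.upG.insert hx.1, h.upT, disjoint_insert_left.2 ⟨fx.2.2, h.dis⟩,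
        insert_subset_insert _ h.f1, insert_union x F _ ▸ insert_subset_insert _ h.f2, h.s1, h.s2,
        fun π a => ?_⟩ (fun y hy => ?_) (fun A a b => u A a fun c => b (c.imp_left fun c d =>
          c (d.mono_right (subset_insert _ _)))) nA
        (by rw [card_insert_of_notMem fx.2.1]; omega)⟩
    · have n1 : π.e ≠ x := fun c => hx.2.2 (mem_union_right _ (mem_PE.2 ⟨π, a, .inl c⟩))
      have n2 : π.f ≠ x := fun c => hx.2.2 (mem_union_right _ (mem_PE.2 ⟨π, a, .inr c⟩))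
      simpa [n1, n2] using h.pe π a
    · have xy : x ≠ y := fun c => hy.2.1 (c ▸ mem_insert_self _ _)
      have m := hm y (mem_filter.2 ⟨mem_univ _, hy.1, fun c => hy.2.1 (mem_insert_of_mem c), hy.2.2⟩)
      have a := (hmax F (S ∪ PE 𝒬) (bd h g).1.le).2.1 x y xy
      have k0 : ∀ E, gn y S (insert x F) E ≤ gn y S F E := fun E => by
        simp only [gn, nu_D, Pi.sub_apply]
        split_ifs
        exacts [sub_le_self _ nu_nonneg, (sub_zero _).le, le_rfl]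
      have k1 := mul_le_mul_of_nonneg_left (m0 _ _ k0) μ0
      have k2 := mul_le_mul_of_nonneg_left (m1 _ _ k0) hδ
      have sub : B₀ \ (insert x F ∪ insert y (S ∪ PE 𝒬)) ⊆ B₀ \ (F ∪ (S ∪ PE 𝒬)) :=
        sdiff_subset_sdiff (Subset.refl _)
          (union_subset_union (subset_insert _ _) (subset_insert _ _))
      have b : γ * (B₀ \ (insert x F ∪ insert y (S ∪ PE 𝒬))).card + (if x ∈ B₀ then γ else 0) ≤
          γ * (B₀ \ (F ∪ (S ∪ PE 𝒬))).card := by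
        split_ifs with c
        · rw [← mul_add_one]
          refine mul_le_mul_of_nonneg_left ?_ hγ
          exact_mod_cast card_lt_card ⟨sub, fun d => (mem_sdiff.1 (d (mem_sdiff.2 ⟨c, fun c =>
            (mem_union.1 c).elim hx.2.1 hx.2.2⟩))).2 (mem_union_left _ (mem_insert_self _ _))⟩
        · rw [add_zero]
          gcongr
      simp only [hΦ] at g ⊢
      rw [insert_union y S, nu_D, nu_X hx.2.1, gn_X hx.2.1,
        nu_X (fun c => hy.2.2 (mem_union_left _ c)), nu_D]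
      simp only [map_add, map_sub]
      linarith
  have N : ∀ t, (∀ t', t = t' + 1 → O t') → O t := by
    intro t ho F S G T 𝒬 h g u nA hc f hf
    refine ⟨h.notB hf fun A a b => lt_of_le_of_lt (by omega) (u A a b), ?_⟩
    by_cases c : f ∈ PE 𝒬
    · obtain ⟨b, b1, b2⟩ := h.swap c hf
      have lt := card_lt_of_free h.upG b2.upT (b2.dis.mono_left (subset_insert _ _)) b1
      rw [card_insert_of_notMem hf.2.2] at lt
      obtain ⟨t, rfl⟩ : ∃ t', t = t' + 1 := ⟨t - 1, by omega⟩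
      exact ⟨b, b1, or_iff_not_imp_left.2 fun nA => ho t rfl F S _ _ 𝒬 b2 g u nA
        (by rw [card_insert_of_notMem b1.2.1, card_insert_of_notMem hf.2.2]; omega)⟩
    · refine (M t ho F (insert f S) G _ 𝒬 ⟨{ h.good with miss := fun π a => ?_ }, h.upG,
        h.upT.insert hf.1, disjoint_insert_right.2 ⟨hf.2.1, h.dis⟩, h.f1, h.f2,
        insert_subset_insert _ h.s1, insert_union f S _ ▸ insert_subset_insert _ h.s2,
        fun π a => ?_⟩ (g f ⟨hf.1, fun d => hf.2.1 (h.f1 d), fun d =>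
          (mem_union.1 d).elim (fun d => hf.2.2 (h.s1 d)) c⟩) (fun A a b => ?_)
        (by rw [card_insert_of_notMem hf.2.2]; omega)).resolve_left nA
      · exact (card_le_card (sdiff_subset_sdiff (Subset.refl _) (subset_insert _ _))).trans
          (h.good.miss π a)
      · have n1 : π.e ≠ f := fun d => c (mem_PE.2 ⟨π, a, .inl d⟩)
        have n2 : π.f ≠ f := fun d => c (mem_PE.2 ⟨π, a, .inr d⟩)
        simpa [n1, n2] using h.pe π a
      · have c1 := u A a b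
        have c2 := card_le_card (sdiff_subset_sdiff (Subset.refl (Ed A))
          (subset_union_left (s₁ := S) (s₂ := PE 𝒬)))
        have c3 := pred_card_le_card_erase (s := Ed A \ S) (a := f)
        rw [sdiff_insert]
        omega
  have all : ∀ t, O t := fun t => by
    induction t with
    | zero => exact N 0 fun _ c => absurd c (by omega)
    | succ t ih => exact N _ fun _ c => Nat.succ_injective c ▸ ih
  have e0 : PE (∅ : Finset (Rec V)) = ∅ := by simp [PE]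
  refine M t (fun t' _ => all t') ∅ S ∅ S ∅ ⟨by constructor <;> simp, fun _ c => absurd c
    (notMem_empty _), hS, disjoint_empty_left _, Subset.refl _, empty_subset _, Subset.refl _,
    subset_union_left, by simp⟩ ?_ (fun A a _ => ?_) (by simpa using hc)
  · have b : ((B₀ \ S).card : ℝ) ≤ B₀.card := by exact_mod_cast card_le_card sdiff_subset
    simp only [hΦ, e0, union_empty, empty_union, card_empty]
    push_cast
    linarith [mul_le_mul_of_nonneg_left b hγ]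
  · have := le_card_sdiff S (Ed A)
    rw [card_Ed, a] at this
    omega

end Pool.Agent.Lib.MP_e78360_co
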