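import Pool.Agent.Lib.MP_e78360_co.SMom

/-! Counting cliques by their trace on a set of old vertices. -/

set_option autoImplicit false

noncomputable section

namespace Pool.Agent.Lib.MP_e78360_co

open Finset Pool.Agent.Lib.MP_4a944d_co Pool.Agent.Lib.MP_4a944d_co.Hc
open scoped Classical

variable {V : Type*} [LinearOrder V] {W Z : Finset V} {p : ℕ} {E : Finset (V × V)}

/-- The weight of an edge set. -/
def wt (E : Finset (V × V)) : ℝ := (1 / 2) ^ E.card

/-- The total weight of the `p`-sets with a given trace of size `j`. -/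
def gw (n p j : ℕ) : ℝ := n.choose (p - j) * ((1 / 2) ^ p.choose 2 * 2 ^ j.choose 2)

omit [LinearOrder V] in
lemma wt_pos : 0 < wt E := by
  unfold wt
  positivity

lemma gw_nonneg (n p j : ℕ) : 0 ≤ gw n p j := by
  unfold gw
  positivity

lemma nu_le_wt (D E : Finset (V × V)) : nu ∅ D E ≤ wt E := by
  rw [nu, sdiff_empty]
  split_ifs
  exacts [le_rfl, wt_pos.le]

lemma wt_le {A : Finset V} (hA : A.card = p) (hE : E ⊆ Ed Z) :
    wt (E ∪ Ed A) ≤ wt E * ((1 / 2) ^ p.choose 2 * 2 ^ (A ∩ Z).card.choose 2) := by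
  have c1 := card_union_add_card_inter E (Ed A)
  have c2 : (E ∩ Ed A).card ≤ (A ∩ Z).card.choose 2 := by
    rw [← card_Ed]
    refine card_le_card fun e he => ?_
    obtain ⟨u, v⟩ := mem_inter.1 he
    have u := mem_Ed.1 (hE u)
    have v := mem_Ed.1 v
    exact mem_Ed.2 ⟨mem_inter.2 ⟨v.1, u.1⟩, mem_inter.2 ⟨v.2.1, u.2.1⟩, v.2.2⟩
  rw [card_Ed, hA] at c1
  rw [wt, wt, ← mul_assoc, ← pow_add, ← c1, pow_add, mul_assoc]
  refine le_mul_of_one_le_right (by positivity) ?_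
  rw [one_div, inv_pow, le_inv_mul_iff₀ (by positivity), mul_one]
  exact pow_le_pow_right₀ one_le_two c2

lemma sum_trace {s F : Finset (Finset V)} (hs : ∀ A ∈ s, (A ⊆ W ∧ A.card = p) ∧ A ∩ Z ∈ F)
    (hE : E ⊆ Ed Z) : ∑ A ∈ s, wt (E ∪ Ed A) ≤ wt E * ∑ B ∈ F, gw W.card p B.card := by
  refine (sum_le_sum fun A hA => wt_le (hs A hA).1.2 hE).trans ?_
  rw [← mul_sum, ← sum_fiberwise_of_maps_to (t := F) (g := fun A => A ∩ Z) fun A hA => (hs A hA).2]
  refine mul_le_mul_of_nonneg_left (sum_le_sum fun B _ => ?_) wt_pos.le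
  rw [sum_congr rfl fun A hA => by rw [(mem_filter.1 hA).2], sum_const, nsmul_eq_mul, gw]
  gcongr
  rw [← card_powersetCard]
  refine card_le_card_of_injOn (fun A => A \ Z) (fun A hA => ?_) fun A hA A' hA' e => ?_
  · obtain ⟨a, b⟩ := mem_filter.1 hA
    have := card_sdiff_add_card_inter A Z
    rw [b, (hs A a).1.2] at this
    exact mem_powersetCard.2 ⟨sdiff_subset.trans (hs A a).1.1, by simp only; omega⟩
  · rw [← sdiff_union_inter A Z, ← sdiff_union_inter A' Z, (mem_filter.1 hA).2,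
      (mem_filter.1 hA').2]
    exact congrArg (· ∪ B) e

lemma sum_trace' {s F : Finset (Finset V)} (hs : ∀ A ∈ s, (A ⊆ W ∧ A.card = p) ∧ A ∩ Z ∈ F)
    (hE : E ⊆ Ed Z) {c γ : ℝ} (hγ : 0 ≤ γ) (hc : F.card ≤ c)
    (h : ∀ B ∈ F, gw W.card p B.card ≤ γ) : ∑ A ∈ s, wt (E ∪ Ed A) ≤ wt E * (c * γ) := by
  refine (sum_trace hs hE).trans (mul_le_mul_of_nonneg_left ((sum_le_card_nsmul _ _ _ h).trans ?_)
    wt_pos.le)
  rw [nsmul_eq_mul]
  gcongr

/-- The subsets with at most `σ` elements. -/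
def sm (U : Finset V) (σ : ℕ) : Finset (Finset V) := U.powerset.filter (·.card ≤ σ)

omit [LinearOrder V] in
lemma mem_sm {U B : Finset V} {σ : ℕ} : B ∈ sm U σ ↔ B ⊆ U ∧ B.card ≤ σ := by simp [sm]

omit [LinearOrder V] in
lemma card_sm {U : Finset V} {u : ℕ} (h : U.card ≤ u) (σ : ℕ) :
    (sm U σ).card ≤ (σ + 1) * (u + 1) ^ σ := by
  refine (card_le_card (t := (range (σ + 1)).biUnion fun j => powersetCard j U) fun B hB =>
    mem_biUnion.2 ⟨B.card, mem_range.2 (Nat.lt_succ_of_le (mem_sm.1 hB).2),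
      mem_powersetCard.2 ⟨(mem_sm.1 hB).1, rfl⟩⟩).trans
    ((card_biUnion_le_card_mul _ _ ((u + 1) ^ σ) fun j hj => ?_).trans (by rw [card_range]))
  rw [card_powersetCard]
  exact (Nat.choose_le_pow _ _).trans ((Nat.pow_le_pow_left (by omega) _).trans
    (Nat.pow_le_pow_right u.succ_pos (Nat.lt_succ_iff.1 (mem_range.1 hj))))

variable {s : Finset (Finset V)} (hs : ∀ A ∈ s, A ⊆ W ∧ A.card = p) {b ρ : ℝ}

include hs in
lemma crude (hb : 0 ≤ b) (hg : ∀ j ≤ p, gw W.card p j ≤ b) {u : ℕ} : ∀ (k : ℕ) (Z : Finset V)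
    (E : Finset (V × V)), E ⊆ Ed Z → Z.card + k * p ≤ u → Lk s k E wt ≤ wt E * (2 ^ u * b) ^ k
  | 0, Z, E, _, _ => by simp [Lk_zero]
  | k + 1, Z, E, hE, hZ => by
    rw [Lk_succ]
    refine (sum_le_sum fun A hA => crude hb hg (u := u) k (Z ∪ A) _ (union_subset
      (hE.trans (Ed_mono subset_union_left)) (Ed_mono subset_union_right)) ?_).trans ?_
    · have := card_union_le Z A
      rw [(hs A hA).2] at this
      linarith [add_one_mul k p]
    rw [← sum_mul, pow_succ', ← mul_assoc]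
    refine mul_le_mul_of_nonneg_right (sum_trace' (F := sm Z p) (fun A hA => ⟨hs A hA, mem_sm.2
      ⟨inter_subset_right, (card_le_card inter_subset_left).trans (hs A hA).2.le⟩⟩) hE hb ?_
      fun B hB => hg _ (mem_sm.1 hB).2) (by positivity)
    have := card_filter_le Z.powerset (·.card ≤ p)
    rw [card_powerset] at this
    exact_mod_cast this.trans (Nat.pow_le_pow_right two_pos (by omega))

theorem second (hb : 1 ≤ b) (hρ : 0 ≤ ρ) (hb' : b = W.card.choose p * (1 / 2) ^ p.choose 2)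
    (g1 : ∀ j, 2 * j ≤ p → gw W.card p j ≤ b * ρ ^ j)
    (g2 : ∀ j ≤ p, p ≤ 2 * j → gw W.card p j ≤ ρ ^ (p - j)) :
    Lk (powersetCard p W) 2 ∅ wt ≤ b * (2 * b * (1 + ρ) ^ p) := by
  rw [Lk_succ]
  refine (sum_le_card_nsmul _ _ ((1 / 2) ^ p.choose 2 * (2 * b * (1 + ρ) ^ p))
    fun A hA => ?_).trans (by rw [nsmul_eq_mul, card_powersetCard, ← mul_assoc, ← hb'])
  have hA := (mem_powersetCard.1 hA).2
  rw [Lk_succ, empty_union]
  refine (sum_trace (W := W) (p := p) (F := A.powerset) (fun B hB => ⟨mem_powersetCard.1 hB,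
    mem_powerset.2 inter_subset_right⟩) (Subset.refl _)).trans ?_
  rw [wt, card_Ed, hA]
  gcongr
  have e1 := sum_pow_mul_eq_add_pow ρ 1 A
  have e2 := sum_pow_mul_eq_add_pow 1 ρ A
  simp only [one_pow, mul_one, one_mul, hA] at e1 e2
  rw [add_comm] at e1
  rw [mul_assoc, two_mul]
  nth_rewrite 1 [← e1]
  rw [← e2, mul_sum, mul_sum, ← sum_add_distrib]
  refine sum_le_sum fun B hB => ?_
  have c := (card_le_card (mem_powerset.1 hB)).trans hA.le
  have p1 : 0 ≤ ρ ^ B.card := by positivity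
  have p2 : 0 ≤ ρ ^ (p - B.card) := by positivity
  rcases le_total (2 * B.card) p with h | h
  · nlinarith [g1 _ h]
  · nlinarith [g2 _ c h]

end Pool.Agent.Lib.MP_e78360_co
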