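import Pool.Agent.Lib.MP_e78360_co.SCnt

/-! The local moments of fixed order: cluster analysis. -/

set_option autoImplicit false

noncomputable section

namespace Pool.Agent.Lib.MP_e78360_co

open Finset Pool.Agent.Lib.MP_4a944d_co Pool.Agent.Lib.MP_4a944d_co.Hc
open scoped Classical

variable {V : Type*} [LinearOrder V] {W : Finset V} {p : ℕ}

/-- The edges `E` lie in clusters `C ∪ X`, where the cores `C` are disjoint outside `X`. -/
structure Clu (p : ℕ) (𝒞 : Finset (Finset V)) (X : Finset V) (E : Finset (V × V)) : Prop where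
  card : ∀ C ∈ 𝒞, C.card = p
  disj : ∀ C ∈ 𝒞, ∀ C' ∈ 𝒞, C ≠ C' → ∀ x ∈ C, x ∈ C' → x ∈ X
  edge : ∀ e ∈ E, e.1 < e.2 ∧ ∃ C ∈ 𝒞, e.1 ∈ C ∪ X ∧ e.2 ∈ C ∪ X

variable {𝒞 : Finset (Finset V)} {X A : Finset V} {E : Finset (V × V)}

lemma sub_old {C : Finset V} (hC : C ∈ 𝒞) : C ∪ X ⊆ X ∪ 𝒞.biUnion id :=
  union_subset ((subset_biUnion_of_mem id hC).trans subset_union_right) subset_union_left

lemma Clu.sub (h : Clu p 𝒞 X E) : E ⊆ Ed (X ∪ 𝒞.biUnion id) := fun e he => by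
  obtain ⟨l, C, hC, a, b⟩ := h.edge e he
  exact mem_Ed.2 ⟨sub_old hC a, sub_old hC b, l⟩

lemma Clu.card_old (h : Clu p 𝒞 X E) : (X ∪ 𝒞.biUnion id).card ≤ X.card + 𝒞.card * p :=
  (card_union_le _ _).trans (Nat.add_le_add_left
    (card_biUnion_le_card_mul _ _ _ fun C hC => (h.card C hC).le) _)

lemma Clu.far (h : Clu p 𝒞 X E) (hA : A.card = p) :
    Clu p (insert A 𝒞) (X ∪ A ∩ (X ∪ 𝒞.biUnion id)) (E ∪ Ed A) where
  card C hC := (mem_insert.1 hC).elim (fun e => e ▸ hA) (h.card C)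
  disj C hC C' hC' n x a b := by
    rcases mem_insert.1 hC with e | k <;> rcases mem_insert.1 hC' with e' | k'
    · exact absurd (e.trans e'.symm) n
    · exact mem_union_right _ (mem_inter.2 ⟨e ▸ a, sub_old k' (mem_union_left _ b)⟩)
    · exact mem_union_right _ (mem_inter.2 ⟨e' ▸ b, sub_old k (mem_union_left _ a)⟩)
    · exact mem_union_left _ (h.disj C k C' k' n x a b)
  edge e he := by
    rcases mem_union.1 he with he | he
    · obtain ⟨l, C, hC, a, b⟩ := h.edge e he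
      exact ⟨l, C, mem_insert_of_mem hC, union_subset_union_right subset_union_left a,
        union_subset_union_right subset_union_left b⟩
    · obtain ⟨a, b, l⟩ := mem_Ed.1 he
      exact ⟨l, A, mem_insert_self _ _, mem_union_left _ a, mem_union_left _ b⟩

lemma Clu.near (h : Clu p 𝒞 X E) {C : Finset V} (hC : C ∈ 𝒞) :
    Clu p 𝒞 (X ∪ A \ (C ∪ X)) (E ∪ Ed A) where
  card := h.card
  disj C hC C' hC' n x a b := mem_union_left _ (h.disj C hC C' hC' n x a b)
  edge e he := by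
    rcases mem_union.1 he with he | he
    · obtain ⟨l, C, hC, a, b⟩ := h.edge e he
      exact ⟨l, C, hC, union_subset_union_right subset_union_left a,
        union_subset_union_right subset_union_left b⟩
    · obtain ⟨a, b, l⟩ := mem_Ed.1 he
      have : A ⊆ C ∪ (X ∪ A \ (C ∪ X)) := by
        rw [← union_assoc, union_sdiff_self_eq_union]
        exact subset_union_right
      exact ⟨l, C, hC, this a, this b⟩

lemma Clu.cross (h : Clu p 𝒞 X E) {s s₁ : ℕ} (h1 : (A \ (X ∪ 𝒞.biUnion id)).card ≤ s₁)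
    (h2 : ∀ C ∈ 𝒞, s < (A \ (C ∪ X)).card) :
    (A.card - s₁ - X.card) * (s - s₁) ≤ 2 * (Ed A \ E).card := by
  set U := X ∪ 𝒞.biUnion id
  set A' := (A ∩ U) \ X with hA'
  have c1 : A.card - s₁ - X.card ≤ A'.card := by
    have := card_sdiff_add_card_inter A U
    have := le_card_sdiff X (A ∩ U)
    rw [← hA'] at this
    omega
  set R := (A' ×ˢ A').filter fun e => ¬ ∃ C ∈ 𝒞, e.1 ∈ C ∧ e.2 ∈ C with hR
  have core : ∀ x ∈ A', ∃ C ∈ 𝒞, x ∈ C := fun x hx => by
    obtain ⟨a, b⟩ := mem_sdiff.1 hx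
    simpa using (mem_union.1 (mem_inter.1 a).2).resolve_left b
  have c2 : A'.card * (s - s₁) ≤ R.card := by
    rw [card_eq_sum_card_fiberwise (f := Prod.fst) (s := R) (t := A')
      fun e he => (mem_product.1 (mem_filter.1 he).1).1]
    refine card_nsmul_le_sum _ _ _ fun x hx => ?_
    obtain ⟨C, hC, xC⟩ := core x hx
    have d1 : A \ (C ∪ X) ⊆ A \ U ∪ A' \ C := fun y hy => by
      simp only [hA', mem_sdiff, mem_union, mem_inter] at hy ⊢
      tauto
    have d2 := (card_le_card d1).trans (card_union_le _ _)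
    have d3 := h2 C hC
    refine le_trans (by omega : _ ≤ (A' \ C).card) (card_le_card_of_injOn (fun y => (x, y))
      (fun y hy => ?_) fun y _ y' _ e => (Prod.mk.inj e).2)
    obtain ⟨a, b⟩ := mem_sdiff.1 hy
    refine mem_filter.2 ⟨mem_filter.2 ⟨mem_product.2 ⟨hx, a⟩, ?_⟩, rfl⟩
    rintro ⟨C', hC', u, v⟩
    exact (mem_sdiff.1 hx).2 (h.disj C hC C' hC' (fun e => b (e ▸ v)) x xC u)
  have key : ∀ x y, x ∈ A' → y ∈ A' → x < y → (¬ ∃ C ∈ 𝒞, x ∈ C ∧ y ∈ C) → (x, y) ∈ Ed A \ E := by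
    intro x y hx hy l n
    obtain ⟨a, a'⟩ := mem_sdiff.1 hx
    obtain ⟨b, b'⟩ := mem_sdiff.1 hy
    refine mem_sdiff.2 ⟨mem_Ed.2 ⟨(mem_inter.1 a).1, (mem_inter.1 b).1, l⟩, fun c => ?_⟩
    obtain ⟨-, C, hC, u, v⟩ := h.edge _ c
    exact n ⟨C, hC, (mem_union.1 u).resolve_right a', (mem_union.1 v).resolve_right b'⟩
  have c3 : R ⊆ Ed A \ E ∪ (Ed A \ E).image Prod.swap := by
    rintro ⟨x, y⟩ he
    obtain ⟨a, n⟩ := mem_filter.1 he
    obtain ⟨hx, hy⟩ := mem_product.1 a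
    rcases lt_trichotomy x y with l | rfl | l
    · exact mem_union_left _ (key x y hx hy l n)
    · obtain ⟨C, hC, xC⟩ := core x hx
      exact absurd ⟨C, hC, xC, xC⟩ n
    · exact mem_union_right _ (mem_image.2 ⟨(y, x), key y x hy hx l
        fun ⟨C, hC, u, v⟩ => n ⟨C, hC, v, u⟩, rfl⟩)
  have c4 := (card_le_card c3).trans (card_union_le _ _)
  have c5 := card_image_le (s := Ed A \ E) (f := Prod.swap)
  have := Nat.mul_le_mul_right (s - s₁) c1
  omega

lemma card_near (h : Clu p 𝒞 X E) {U : Finset V} (hU : U = X ∪ 𝒞.biUnion id) {s σ u : ℕ}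
    (hσ : X.card + s ≤ σ) (hu : U.card ≤ u) : ∃ F : Finset (Finset V),
      F.card ≤ 𝒞.card * ((σ + 1) * (u + 1) ^ σ) ^ 2 ∧ ∀ A : Finset V, A.card = p → ∀ C ∈ 𝒞,
        (A \ (C ∪ X)).card ≤ s → A ∩ U ∈ F := by
  refine ⟨(𝒞 ×ˢ sm U σ ×ˢ sm U σ).image fun t => ((t.1 ∪ X) \ t.2.1) ∪ t.2.2,
    card_image_le.trans ?_, fun A hA C hC hs => mem_image.2
      ⟨(C, (C ∪ X) \ A, (A ∩ U) \ (C ∪ X)), mem_product.2 ⟨hC, mem_product.2
        ⟨mem_sm.2 ⟨sdiff_subset.trans (hU ▸ sub_old hC), ?_⟩, mem_sm.2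
          ⟨sdiff_subset.trans inter_subset_right, ?_⟩⟩⟩, ?_⟩⟩
  · rw [card_product, card_product, sq]
    gcongr <;> exact card_sm hu σ
  · have c1 := card_sdiff_add_card_inter (C ∪ X) A
    have c2 := card_sdiff_add_card_inter A (C ∪ X)
    have c3 := card_union_le C X
    rw [inter_comm] at c2
    rw [h.card C hC] at c3
    simp only
    omega
  · exact (card_le_card (sdiff_subset_sdiff inter_subset_left (Subset.refl _))).trans (by omega)
  · have := @sub_old _ _ _ X _ hC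
    rw [← hU] at this
    ext x
    have := @this x
    simp only [mem_union, mem_sdiff, mem_inter] at this ⊢
    tauto

end Pool.Agent.Lib.MP_e78360_co
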