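import Pool.Agent.Lib.MP_e78360_co.SInd

/-! The bound for the local moments. -/

set_option autoImplicit false

noncomputable section

namespace Pool.Agent.Lib.MP_e78360_co

open Finset Pool.Agent.Lib.MP_4a944d_co Pool.Agent.Lib.MP_4a944d_co.Hc
open scoped Classical

lemma sum_four {α : Type*} {s : Finset α} {f : α → ℝ} (h0 : ∀ a, 0 ≤ f a) (P Q R S : α → Prop)
    [DecidablePred P] [DecidablePred Q] [DecidablePred R] [DecidablePred S] (h : ∀ a ∈ s, P a ∨ Q a ∨ R a ∨ S a) : ∑ a ∈ s, f a ≤ ∑ a ∈ s with P a, f a +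
      ∑ a ∈ s with Q a, f a + ∑ a ∈ s with R a, f a + ∑ a ∈ s with S a, f a := by
  simp only [sum_filter, ← sum_add_distrib]
  refine sum_le_sum fun a ha => ?_
  have := h a ha
  have := h0 a
  split_ifs <;> first | linarith | tauto

variable {V : Type*} [LinearOrder V] {W : Finset V} {p : ℕ}

theorem local_moment {T : Finset V} {τ : ℕ} (hT : T.card = τ) {m s s₁ u σ : ℕ} {b ρ κ ξ K : ℝ}
    (hu : m * s + 3 + m * p ≤ u) (hσ : m * s + 3 + s ≤ σ) (hb : 1 ≤ b) (ρ0 : 0 ≤ ρ) (ρ1 : ρ ≤ 1)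
    (κ0 : 0 ≤ κ) (ξ0 : 0 ≤ ξ) (g1 : ∀ j, 2 * j ≤ p → gw W.card p j ≤ b * ρ ^ j)
    (g2 : ∀ j ≤ p, p ≤ 2 * j → gw W.card p j ≤ ρ ^ (p - j))
    (g3 : ∀ j, τ ≤ j → j ≤ s → gw W.card p j ≤ κ) (hs : s₁ ≤ s) (hp : 2 * s₁ ≤ p)
    (hξ : ∀ d, (p - s₁ - (m * s + 3)) * (s - s₁) ≤ 2 * d → (1 / 2 : ℝ) ^ d ≤ ξ)
    (t1 : 2 ^ u * (b * ρ ^ s₁) * (2 ^ u * b) ^ m ≤ 1)
    (t2 : (2 ^ u * ((s₁ + 1) * (W.card + 1) ^ s₁) : ℕ) * ξ * (2 ^ u * b) ^ m ≤ 1)
    (hK : ((s + 1) * (u + 1) ^ s : ℕ) * κ + (m * ((σ + 1) * (u + 1) ^ σ) ^ 2 : ℕ) + 2 ≤ K) :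
    ∀ (k : ℕ) (𝒞 : Finset (Finset V)) (X : Finset V) (E : Finset (V × V)), Clu p 𝒞 X E → T ⊆ X →
      𝒞.card + k ≤ m → X.card + k * s ≤ m * s + 3 → Lk (Fm W p T) k E wt ≤ wt E * K ^ k := by
  have K1 : 1 ≤ K := le_trans (by norm_num) ((le_add_of_nonneg_left (by positivity)).trans hK)
  have Z1 : 1 ≤ 2 ^ u * b := one_le_mul_of_one_le_of_one_le (one_le_pow₀ one_le_two) hb
  have b0 : 0 ≤ b := by linarith
  have g0 : ∀ j ≤ p, gw W.card p j ≤ b := fun j hj => by
    rcases le_total (2 * j) p with h | h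
    · exact (g1 j h).trans (mul_le_of_le_one_right b0 (pow_le_one₀ ρ0 ρ1))
    · exact (g2 j hj h).trans ((pow_le_one₀ ρ0 ρ1).trans hb)
  intro k
  induction k with
  | zero => exact fun _ _ _ _ _ _ _ => by simp [Lk_zero]
  | succ k ih =>
    intro 𝒞 X E h hX hc hx
    have Kk : 1 ≤ K ^ k := one_le_pow₀ K1
    have w0 := wt_pos (E := E)
    have cU := h.card_old
    have hE := h.sub
    set U := X ∪ 𝒞.biUnion id with hU
    have e1 := add_one_mul k s
    have e2 : 𝒞.card * p + p + k * p ≤ m * p := by nlinarith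
    have uU : U.card ≤ u := by omega
    have term : ∀ (P : Finset V → Prop) [DecidablePred P] (δ : ℝ), 0 ≤ δ → δ * (2 ^ u * b) ^ m ≤ 1 →
        ∑ A ∈ Fm W p T with P A, wt (E ∪ Ed A) ≤ wt E * δ →
        ∑ A ∈ Fm W p T with P A, Lk (Fm W p T) k (E ∪ Ed A) wt ≤ wt E * K ^ k := by
      intro P _ δ d0 d1 d2
      refine (sum_le_sum fun A hA => crude (fun A hA => (mem_Fm.1 hA).1) b0 g0 (u := u) k (U ∪ A) _
        (union_subset (hE.trans (Ed_mono subset_union_left)) (Ed_mono subset_union_right))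
        ?_).trans ?_
      · have := card_union_le U A
        rw [(mem_Fm.1 (mem_filter.1 hA).1).1.2] at this
        omega
      rw [← sum_mul]
      refine (mul_le_mul d2 (pow_le_pow_right₀ Z1 (show k ≤ m by omega)) (by positivity)
        (by positivity)).trans ?_
      rw [mul_assoc]
      exact mul_le_mul_of_nonneg_left (d1.trans Kk) w0.le
    have split : ∀ A ∈ Fm W p T, (A \ U).card + (A ∩ U).card = p := fun A hA => by
      rw [card_sdiff_add_card_inter, (mem_Fm.1 hA).1.2]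
    have a1 : ∑ A ∈ Fm W p T with (A ∩ U).card ≤ s, Lk (Fm W p T) k (E ∪ Ed A) wt ≤
        wt E * (((s + 1) * (u + 1) ^ s : ℕ) * κ) * K ^ k := by
      refine (sum_le_sum fun A hA => ih _ _ _ (h.far (mem_Fm.1 (mem_filter.1 hA).1).1.2)
        (hX.trans subset_union_left) ?_ ?_).trans ?_
      · have := card_insert_le A 𝒞
        omega
      · have := card_union_le X (A ∩ U)
        have : (A ∩ U).card ≤ s := (mem_filter.1 hA).2
        rw [← hU]
        omega
      rw [← sum_mul]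
      refine mul_le_mul_of_nonneg_right (sum_trace' (F := (sm U s).filter (τ ≤ ·.card))
        (fun A hA => ?_) hE κ0 ?_ fun B hB => g3 _ (mem_filter.1 hB).2
          (mem_sm.1 (mem_filter.1 hB).1).2) (by positivity)
      · obtain ⟨a, c⟩ := mem_filter.1 hA
        exact ⟨(mem_Fm.1 a).1, mem_filter.2 ⟨mem_sm.2 ⟨inter_subset_right, c⟩, hT ▸ card_le_card
          (subset_inter (mem_Fm.1 a).2 (hX.trans subset_union_left))⟩⟩
      · exact_mod_cast (card_filter_le _ _).trans (card_sm uU s)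
    have a2 : ∑ A ∈ Fm W p T with (A \ U).card ≤ s₁ ∧ ∃ C ∈ 𝒞, (A \ (C ∪ X)).card ≤ s,
        Lk (Fm W p T) k (E ∪ Ed A) wt ≤
        wt E * ((m * ((σ + 1) * (u + 1) ^ σ) ^ 2 : ℕ) * 1) * K ^ k := by
      refine (sum_le_sum (g := fun A => wt (E ∪ Ed A) * K ^ k) fun A hA => ?_).trans ?_
      · obtain ⟨-, -, C, hC, c⟩ := mem_filter.1 hA
        have := card_union_le X (A \ (C ∪ X))
        exact ih _ _ _ (h.near hC) (hX.trans subset_union_left) (by omega) (by omega)
      obtain ⟨F, f1, f2⟩ := card_near h hU (s := s) (σ := σ) (by omega) uU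
      rw [← sum_mul]
      refine mul_le_mul_of_nonneg_right (sum_trace'
        (F := F.filter fun B => B.card ≤ p ∧ p ≤ 2 * B.card) (fun A hA => ?_) hE zero_le_one ?_
        fun B hB => (g2 _ (mem_filter.1 hB).2.1 (mem_filter.1 hB).2.2).trans (pow_le_one₀ ρ0 ρ1))
        (by positivity)
      · obtain ⟨a, c, C, hC, d⟩ := mem_filter.1 hA
        have := split A a
        exact ⟨(mem_Fm.1 a).1, mem_filter.2 ⟨f2 A (mem_Fm.1 a).1.2 C hC d, by omega, by omega⟩⟩
      · exact_mod_cast (card_filter_le _ _).trans (f1.trans (Nat.mul_le_mul_right _ (by omega)))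
    have a3 := term (fun A => s < (A ∩ U).card ∧ s₁ < (A \ U).card) _ (by positivity) t1
      (sum_trace' (F := U.powerset.filter fun B => s < B.card ∧ B.card + s₁ < p) (fun A hA => by
        obtain ⟨a, c, d⟩ := mem_filter.1 hA
        have := split A a
        exact ⟨(mem_Fm.1 a).1, mem_filter.2 ⟨mem_powerset.2 inter_subset_right, c, by omega⟩⟩)
        hE (by positivity) (by
          have := card_filter_le U.powerset fun B => s < B.card ∧ B.card + s₁ < p
          rw [card_powerset] at this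
          exact_mod_cast this.trans (Nat.pow_le_pow_right two_pos uU)) fun B hB => by
        obtain ⟨-, c, d⟩ := mem_filter.1 hB
        rcases le_total (2 * B.card) p with l | l
        · exact (g1 _ l).trans (mul_le_mul_of_nonneg_left
            (pow_le_pow_of_le_one ρ0 ρ1 (by omega)) b0)
        · exact (g2 _ (by omega) l).trans ((pow_le_pow_of_le_one ρ0 ρ1 (by omega)).trans
            (le_mul_of_one_le_left (by positivity) hb)))
    have a4 := term (fun A => (A \ U).card ≤ s₁ ∧ ∀ C ∈ 𝒞, s < (A \ (C ∪ X)).card) _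
      (by positivity) t2 (by
        refine (sum_le_card_nsmul _ _ (wt E * ξ) fun A hA => ?_).trans ?_
        · obtain ⟨a, c, d⟩ := mem_filter.1 hA
          have c1 := h.cross c d
          rw [(mem_Fm.1 a).1.2] at c1
          rw [wt, ← union_sdiff_self_eq_union, card_union_of_disjoint disjoint_sdiff, pow_add]
          exact mul_le_mul_of_nonneg_left (hξ _ ((Nat.mul_le_mul_right _ (by omega)).trans c1))
            w0.le
        · rw [nsmul_eq_mul, mul_left_comm]
          gcongr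
          refine le_trans (card_le_card_of_injOn (t := U.powerset ×ˢ sm W s₁)
            (fun A => (A ∩ U, A \ U)) (fun A hA => ?_) fun A _ B _ e => ?_) ?_
          · obtain ⟨a, c, -⟩ := mem_filter.1 hA
            exact mem_product.2 ⟨mem_powerset.2 inter_subset_right,
              mem_sm.2 ⟨sdiff_subset.trans (mem_Fm.1 a).1.1, c⟩⟩
          · rw [← sdiff_union_inter A U, ← sdiff_union_inter B U, (Prod.mk.inj e).1,
              (Prod.mk.inj e).2]
          · rw [card_product, card_powerset]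
            exact Nat.mul_le_mul (Nat.pow_le_pow_right two_pos uU) (card_sm le_rfl _))
    rw [Lk_succ]
    refine (sum_four (f := fun A => Lk (Fm W p T) k (E ∪ Ed A) wt)
      (fun A => Lk_nonneg (fun _ => wt_pos.le) _ _) (fun A => (A ∩ U).card ≤ s)
      (fun A => (A \ U).card ≤ s₁ ∧ ∃ C ∈ 𝒞, (A \ (C ∪ X)).card ≤ s)
      (fun A => s < (A ∩ U).card ∧ s₁ < (A \ U).card)
      (fun A => (A \ U).card ≤ s₁ ∧ ∀ C ∈ 𝒞, s < (A \ (C ∪ X)).card) fun A _ => ?_).trans
      ((add_le_add (add_le_add (add_le_add a1 a2) a3) a4).trans ?_)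
    · by_contra! n
      obtain ⟨n1, n2, n3, n4⟩ := n
      obtain ⟨C, hC, c⟩ := n4 (n3 n1)
      exact (n2 (n3 n1) C hC).not_ge c
    · rw [pow_succ' K]
      nlinarith [mul_le_mul_of_nonneg_left hK (mul_nonneg w0.le (zero_le_one.trans Kk))]

end Pool.Agent.Lib.MP_e78360_co
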