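import Pool.Agent.Lib.MP_4a944d_co.HBeck

/-! Moments of arbitrary order. -/

set_option autoImplicit false

noncomputable section

namespace Pool.Agent.Lib.MP_e78360_co

open Finset Pool.Agent.Lib.MP_4a944d_co Pool.Agent.Lib.MP_4a944d_co.Hc
open scoped Classical

variable {V : Type*} [LinearOrder V]

/-- The sum over all `k`-tuples from `s`, evaluated at the union of `E` and their edge sets. -/
def Lk (s : Finset (Finset V)) : ℕ → Finset (V × V) → (Finset (V × V) → ℝ) →ₗ[ℝ] ℝ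
  | 0, E => LinearMap.proj E
  | k + 1, E => ∑ A ∈ s, Lk s k (E ∪ Ed A)

variable {s : Finset (Finset V)} {W : Finset V} {p : ℕ}

lemma Lk_zero (E : Finset (V × V)) (φ : Finset (V × V) → ℝ) : Lk s 0 E φ = φ E := rfl

lemma Lk_succ (k : ℕ) (E : Finset (V × V)) (φ : Finset (V × V) → ℝ) :
    Lk s (k + 1) E φ = ∑ A ∈ s, Lk s k (E ∪ Ed A) φ := by
  rw [Lk, LinearMap.sum_apply]

lemma Lk_mono {φ ψ : Finset (V × V) → ℝ} (h : ∀ E, φ E ≤ ψ E) :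
    ∀ (k : ℕ) (E : Finset (V × V)), Lk s k E φ ≤ Lk s k E ψ
  | 0, E => h E
  | k + 1, E => by
    rw [Lk_succ, Lk_succ]
    exact sum_le_sum fun A _ => Lk_mono h k _

lemma Lk_nonneg {φ : Finset (V × V) → ℝ} (h : ∀ E, 0 ≤ φ E) (k : ℕ) (E : Finset (V × V)) :
    0 ≤ Lk s k E φ := by
  simpa using Lk_mono (s := s) (φ := 0) h k E

lemma Lk_pow (X D : Finset (V × V)) : ∀ (k : ℕ) (E : Finset (V × V)),
    nu X D E * (∑ A ∈ s, nu X D (Ed A)) ^ k ≤ Lk s k E (nu X D)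
  | 0, E => by simp [Lk_zero]
  | k + 1, E => by
    have t0 : 0 ≤ ∑ A ∈ s, nu X D (Ed A) := sum_nonneg fun _ _ => nu_nonneg
    rw [Lk_succ, pow_succ', ← mul_assoc, mul_sum, sum_mul]
    exact sum_le_sum fun A _ => (mul_le_mul_of_nonneg_right (nu_union _ _)
      (pow_nonneg t0 _)).trans (Lk_pow X D k _)

lemma Lk_pow' (X D : Finset (V × V)) (k : ℕ) :
    (∑ A ∈ s, nu X D (Ed A)) ^ k ≤ Lk s k ∅ (nu X D) := by
  simpa [nu] using Lk_pow (s := s) X D k ∅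

lemma La_g2 {X D : Finset (V × V)} {x y : V × V} (xy : x ≠ y) {γ : ℝ} (hγ : 0 ≤ γ)
    (h : ∀ T ∈ powersetCard 3 W, ∑ A ∈ Fm W p T, nu X D (Ed A) ≤ γ) :
    La W p (g2 x y X D) ≤ γ := by
  rw [La_apply]
  by_cases ex : ∃ A ∈ powersetCard p W, x ∈ Ed A ∧ y ∈ Ed A
  swap
  · exact (sum_eq_zero fun A hA => if_neg fun a => ex ⟨A, hA, a⟩).trans_le hγ
  obtain ⟨A, hA, hx, hy⟩ := ex
  rw [mem_Ed] at hx hy
  obtain ⟨z, z1, z2, z3⟩ : ∃ z, (z = y.1 ∨ z = y.2) ∧ z ≠ x.1 ∧ z ≠ x.2 := by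
    by_contra! n
    have n1 := or_iff_not_imp_left.2 (n _ (.inl rfl))
    have n2 := or_iff_not_imp_left.2 (n _ (.inr rfl))
    have := hx.2.2
    have := hy.2.2
    rcases n1 with n1 | n1 <;> rcases n2 with n2 | n2 <;>
      first | order | exact xy (Prod.ext n1.symm n2.symm)
  have m : ∀ B : Finset V, x.1 ∈ B → x.2 ∈ B → y.1 ∈ B → y.2 ∈ B → {x.1, x.2, z} ⊆ B := by
    intro B b1 b2 b3 b4
    rcases z1 with rfl | rfl <;> simp [insert_subset_iff, *]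
  have hT : {x.1, x.2, z} ∈ powersetCard 3 W := mem_powersetCard.2
    ⟨(m A hx.1 hx.2.1 hy.1 hy.2.1).trans (mem_powersetCard.1 hA).1,
      card_eq_three.2 ⟨_, _, _, hx.2.2.ne, z2.symm, z3.symm, rfl⟩⟩
  refine le_trans ?_ (h _ hT)
  simp only [Fm, sum_filter, g2]
  refine sum_le_sum fun B _ => ?_
  split_ifs with c1 c2
  · rfl
  · exact absurd (m B (mem_Ed.1 c1.1).1 (mem_Ed.1 c1.1).2.1 (mem_Ed.1 c1.2).1
      (mem_Ed.1 c1.2).2.1) c2
  · exact nu_nonneg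
  · rfl

variable (W p) in
/-- The building functional: first moment minus a local moment of order `m` minus the second
moment. -/
def Lam (m : ℕ) (c₁ c₂ : ℝ) : (Finset (V × V) → ℝ) →ₗ[ℝ] ℝ :=
  La W p - c₁ • ∑ T ∈ powersetCard 3 W, Lk (Fm W p T) m ∅ - c₂ • Lk (powersetCard p W) 2 ∅

lemma Lam_apply (m : ℕ) (c₁ c₂ : ℝ) (φ : Finset (V × V) → ℝ) : Lam W p m c₁ c₂ φ =
    La W p φ - c₁ * ∑ T ∈ powersetCard 3 W, Lk (Fm W p T) m ∅ φ -
      c₂ * Lk (powersetCard p W) 2 ∅ φ := by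
  simp only [Lam, LinearMap.sub_apply, LinearMap.smul_apply, LinearMap.sum_apply, smul_eq_mul]

lemma Lam_le {m : ℕ} {c₁ c₂ : ℝ} (h₁ : 0 ≤ c₁) (h₂ : 0 ≤ c₂) {φ : Finset (V × V) → ℝ}
    (h : ∀ E, 0 ≤ φ E) : Lam W p m c₁ c₂ φ ≤ La W p φ := by
  rw [Lam_apply]
  have a := mul_nonneg h₁ (sum_nonneg fun T (_ : T ∈ powersetCard 3 W) =>
    Lk_nonneg (s := Fm W p T) h m ∅)
  have b := mul_nonneg h₂ (Lk_nonneg (s := powersetCard p W) h 2 ∅)
  linarith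

theorem Lam_max {m : ℕ} (hm : m ≠ 0) {c₁ c₂ γ : ℝ} (h₁ : 0 < c₁) (h₂ : 0 < c₂) (hγ : 0 ≤ γ)
    (h : 1 ≤ c₁ * c₂ * γ ^ m) (X D : Finset (V × V)) (h0 : 0 ≤ Lam W p m c₁ c₂ (nu X D)) :
    Lam W p m c₁ c₂ (nu X D) ≤ c₂⁻¹ ∧ ∀ x y, x ≠ y → Lam W p m c₁ c₂ (g2 x y X D) ≤ γ := by
  have n0 : ∀ E, 0 ≤ nu X D E := fun _ => nu_nonneg
  have a0 : 0 ≤ La W p (nu X D) := by
    rw [La_apply]
    exact sum_nonneg fun _ _ => nu_nonneg
  have b1 := mul_nonneg h₁.le (sum_nonneg fun T (_ : T ∈ powersetCard 3 W) =>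
    Lk_nonneg (s := Fm W p T) n0 m ∅)
  have b2 := mul_nonneg h₂.le (Lk_nonneg (s := powersetCard p W) n0 2 ∅)
  have b3 := mul_le_mul_of_nonneg_left (Lk_pow' (s := powersetCard p W) X D 2) h₂.le
  rw [← La_apply] at b3
  rw [Lam_apply] at h0
  have a1 : c₂ * La W p (nu X D) ≤ 1 := by
    rcases a0.eq_or_lt with z | z
    · rw [← z, mul_zero]
      exact zero_le_one
    · exact le_of_mul_le_mul_right (by nlinarith) z
  refine ⟨(Lam_le h₁.le h₂.le n0).trans ?_, fun x y xy => ?_⟩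
  · rw [← one_div, le_div_iff₀' h₂]
    exact a1
  refine (Lam_le h₁.le h₂.le fun E => ?_).trans (La_g2 xy hγ fun T hT => ?_)
  · unfold g2
    split_ifs
    exacts [nu_nonneg, le_rfl]
  · refine le_of_pow_le_pow_left₀ hm hγ (le_of_mul_le_mul_left ?_ (mul_pos h₁ h₂))
    have b4 := (Lk_pow' (s := Fm W p T) X D m).trans (single_le_sum
      (f := fun T => Lk (Fm W p T) m ∅ (nu X D)) (fun T _ => Lk_nonneg n0 m ∅) hT)
    have b5 := mul_le_mul_of_nonneg_left b4 h₁.le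
    nlinarith

end Pool.Agent.Lib.MP_e78360_co
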